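import Mathlib

/-!
Sums over boxes `[0, M)^ι` of products of functions which depend on residues modulo primes.
-/

set_option autoImplicit false

open Finset

namespace Pool.Agent.H21.BFT

variable {ι : Type*} [Fintype ι] [DecidableEq ι]

/-- the numbers below `M` in the class `c` -/
def cls (d M : ℕ) (c : ZMod d) : Finset ℕ := (range M).filter (fun x : ℕ => (x : ZMod d) = c)

lemma card_class (d M : ℕ) [NeZero d] (c : ZMod d) :
    #(cls d M c) = M / d + if c.val % d < M % d then 1 else 0 := by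
  have hd : 0 < d := Nat.pos_of_ne_zero (NeZero.ne d)
  rw [← Nat.count_modEq_card M hd c.val, Nat.count_eq_card_filter_range, cls]
  congr 1
  refine Finset.filter_congr fun x _ => ?_
  rw [← ZMod.natCast_eq_natCast_iff, ZMod.natCast_zmod_val]

lemma card_class_le (d M : ℕ) [NeZero d] (c : ZMod d) :
    #(cls d M c) ≤ M / d + 1 := by
  rw [card_class]; split_ifs <;> omega

lemma le_card_class (d M : ℕ) [NeZero d] (c : ZMod d) :
    M / d ≤ #(cls d M c) := by
  rw [card_class]; split_ifs <;> omega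

/-- the box -/
abbrev box (ι : Type*) [Fintype ι] [DecidableEq ι] (M : ℕ) : Finset (ι → ℕ) :=
  Fintype.piFinset (fun _ : ι => range M)

lemma card_box (M : ℕ) : #(box ι M) = M ^ Fintype.card ι := by
  rw [box, Fintype.card_piFinset]; simp

/-- grouping the points of a box by residues -/
lemma box_sum_eq (d M : ℕ) [NeZero d] (F : (ι → ZMod d) → ℝ) :
    ∑ x ∈ box ι M, F (fun i => (x i : ZMod d)) =
      ∑ y : ι → ZMod d, (∏ i, (#(cls d M (y i)) : ℝ)) * F y := by
  classical
  rw [← Finset.sum_fiberwise (box ι M) (fun x i => (x i : ZMod d))]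
  refine Finset.sum_congr rfl fun y _ => ?_
  have h1 : ∑ x ∈ box ι M with (fun i => (x i : ZMod d)) = y, F (fun i => (x i : ZMod d)) =
      ∑ x ∈ box ι M with (fun i => (x i : ZMod d)) = y, F y := by
    refine Finset.sum_congr rfl fun x hx => ?_
    rw [(mem_filter.mp hx).2]
  rw [h1, Finset.sum_const, nsmul_eq_mul]
  congr 1
  have h2 : (box ι M).filter (fun x => (fun i => (x i : ZMod d)) = y) =
      Fintype.piFinset (fun i => cls d M (y i)) := by
    ext x
    simp only [mem_filter, Fintype.mem_piFinset, box, funext_iff, cls]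
    exact ⟨fun h i => ⟨h.1 i, h.2 i⟩, fun h => ⟨fun i => (h i).1, fun i => (h i).2⟩⟩
  rw [h2, Fintype.card_piFinset]
  push_cast
  rfl

/-- upper bound for non-negative functions -/
lemma box_sum_le_nonneg (d M : ℕ) [NeZero d] (F : (ι → ZMod d) → ℝ) (hF : ∀ y, 0 ≤ F y) :
    ∑ x ∈ box ι M, F (fun i => (x i : ZMod d)) ≤
      ((M : ℝ) / d + 1) ^ Fintype.card ι * ∑ y, F y := by
  rw [box_sum_eq, Finset.mul_sum]
  refine Finset.sum_le_sum fun y _ => ?_
  refine mul_le_mul_of_nonneg_right ?_ (hF y)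
  have h1 : ∀ i ∈ (univ : Finset ι), (#(cls d M (y i)) : ℝ) ≤ (M : ℝ) / d + 1 := by
    intro i _
    have h2 := card_class_le d M (y i)
    have h3 : ((M / d : ℕ) : ℝ) ≤ (M : ℝ) / d := Nat.cast_div_le
    have h4 : (#(cls d M (y i)) : ℝ) ≤ ((M / d + 1 : ℕ) : ℝ) := by exact_mod_cast h2
    push_cast at h4
    linarith
  calc ∏ i, (#(cls d M (y i)) : ℝ) ≤ ∏ _i : ι, ((M : ℝ) / d + 1) :=
        Finset.prod_le_prod (fun i _ => by positivity) h1
    _ = _ := by rw [Finset.prod_const, Finset.card_univ]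

/-- Bernoulli type bound -/
lemma pow_sub_pow_le (q : ℕ) (A B : ℝ) (hB : 0 ≤ B) (hAB : B ≤ A) :
    A ^ q - B ^ q ≤ q * A ^ (q - 1) * (A - B) := by
  have hA : 0 ≤ A := hB.trans hAB
  induction q with
  | zero => simp
  | succ q ih =>
    have h1 : A ^ (q + 1) - B ^ (q + 1) = A * (A ^ q - B ^ q) + B ^ q * (A - B) := by ring
    have h2 : B ^ q ≤ A ^ q := pow_le_pow_left₀ hB hAB q
    have h3 : B ^ q * (A - B) ≤ A ^ q * (A - B) := mul_le_mul_of_nonneg_right h2 (by linarith)
    rw [h1, Nat.add_sub_cancel]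
    have h4 : A * (A ^ q - B ^ q) ≤ q * A ^ q * (A - B) := by
      have h5 := mul_le_mul_of_nonneg_left ih hA
      refine h5.trans (le_of_eq ?_)
      rcases Nat.eq_zero_or_pos q with rfl | hq
      · simp
      · obtain ⟨k, rfl⟩ : ∃ k, q = k + 1 := ⟨q - 1, by omega⟩
        rw [Nat.add_sub_cancel]
        ring
    push_cast
    nlinarith

/-- upper bound for functions `≤ 1` with known total -/
lemma box_sum_le_signed (d M : ℕ) [NeZero d] (F : (ι → ZMod d) → ℝ) (hF : ∀ y, F y ≤ 1) (γ : ℝ)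
    (hγ : 0 ≤ γ) (hsum : ∑ y, F y = γ * (d : ℝ) ^ Fintype.card ι) :
    ∑ x ∈ box ι M, F (fun i => (x i : ZMod d)) ≤
      γ * (M : ℝ) ^ Fintype.card ι + Fintype.card ι * (M : ℝ) ^ (Fintype.card ι - 1) * d := by
  classical
  set q := Fintype.card ι with hq
  have hd : 0 < d := Nat.pos_of_ne_zero (NeZero.ne d)
  have hd' : (0 : ℝ) < d := by exact_mod_cast hd
  set N : (ι → ZMod d) → ℝ := fun y => ∏ i, (#(cls d M (y i)) : ℝ) with hN
  have hNtot : ∑ y, N y = (M : ℝ) ^ q := by
    have := box_sum_eq (ι := ι) d M (fun _ => 1)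
    simp only [mul_one, Finset.sum_const, nsmul_eq_mul] at this
    rw [card_box] at this
    rw [← this]
    push_cast
    rfl
  set m : ℝ := ((M / d : ℕ) : ℝ) with hm
  have hNge : ∀ y, m ^ q ≤ N y := by
    intro y
    rw [hN]
    calc m ^ q = ∏ _i : ι, m := by rw [Finset.prod_const, Finset.card_univ]
      _ ≤ _ := Finset.prod_le_prod (fun i _ => by positivity) fun i _ => by
          rw [hm]; exact_mod_cast le_card_class d M (y i)
  rw [box_sum_eq]
  have h1 : ∑ y, N y * F y = ∑ y, (N y - m ^ q) * F y + m ^ q * ∑ y, F y := by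
    rw [Finset.mul_sum, ← Finset.sum_add_distrib]
    refine Finset.sum_congr rfl fun y _ => ?_
    ring
  have h2 : ∑ y, (N y - m ^ q) * F y ≤ ∑ y, (N y - m ^ q) := by
    refine Finset.sum_le_sum fun y _ => ?_
    have := hNge y
    nlinarith [hF y]
  have h3 : ∑ y : ι → ZMod d, (N y - m ^ q) = (M : ℝ) ^ q - (m * d) ^ q := by
    rw [Finset.sum_sub_distrib, hNtot, Finset.sum_const, Finset.card_univ, Fintype.card_fun,
      ZMod.card, nsmul_eq_mul, mul_pow]
    push_cast
    ring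
  have hmd : m * d ≤ M := by
    rw [hm]; exact_mod_cast Nat.div_mul_le_self M d
  have hmd2 : (M : ℝ) - m * d ≤ d := by
    have h4 : M < (M / d + 1) * d := by
      have h5 := Nat.lt_div_mul_add (a := M) hd
      rw [Nat.add_mul, Nat.one_mul]
      exact h5
    have h5 : (M : ℝ) ≤ (m + 1) * d := by rw [hm]; exact_mod_cast h4.le
    linarith
  have hm0 : 0 ≤ m := by rw [hm]; positivity
  have h4 : (M : ℝ) ^ q - (m * d) ^ q ≤ q * (M : ℝ) ^ (q - 1) * d := by
    refine (pow_sub_pow_le q M (m * d) (by positivity) hmd).trans ?_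
    exact mul_le_mul_of_nonneg_left hmd2 (by positivity)
  have h5 : m ^ q * ∑ y, F y ≤ γ * (M : ℝ) ^ q := by
    rw [hsum]
    have h6 : (m * d) ^ q ≤ (M : ℝ) ^ q := pow_le_pow_left₀ (by positivity) hmd q
    calc m ^ q * (γ * (d : ℝ) ^ q) = γ * (m * d) ^ q := by rw [mul_pow]; ring
      _ ≤ γ * (M : ℝ) ^ q := mul_le_mul_of_nonneg_left h6 hγ
  have e : ∑ y : ι → ZMod d, (∏ i, (#(cls d M (y i)) : ℝ)) * F y =
      ∑ y, N y * F y := rfl
  rw [e, h1]
  linarith

instance neZeroPrimes (p : Nat.Primes) : NeZero (p : ℕ) := ⟨p.2.ne_zero⟩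

/-- product over the primes of `J` -/
def dd (J : Finset Nat.Primes) : ℕ := ∏ p : J, ((p : Nat.Primes) : ℕ)

lemma dd_eq (J : Finset Nat.Primes) : dd J = ∏ p ∈ J, (p : ℕ) := by
  unfold dd
  exact Finset.prod_coe_sort J (fun p : Nat.Primes => (p : ℕ))

instance neZero_dd (J : Finset Nat.Primes) : NeZero (dd J) :=
  ⟨by unfold dd; exact Finset.prod_ne_zero_iff.mpr fun p _ => (p : Nat.Primes).2.ne_zero⟩

lemma coprime_pairwise (J : Finset Nat.Primes) :
    Pairwise (Function.onFun Nat.Coprime (fun p : J => ((p : Nat.Primes) : ℕ))) := by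
  intro p q hpq
  exact (Nat.coprime_primes (p : Nat.Primes).2 (q : Nat.Primes).2).mpr fun h =>
    hpq (Subtype.ext (Subtype.ext h))

/-- the product function modulo `dd J` -/
noncomputable def FF (J : Finset Nat.Primes) (f : (p : Nat.Primes) → (ι → ZMod p) → ℝ) :
    (ι → ZMod (dd J)) → ℝ :=
  fun y => ∏ p : J, f p (fun i => ZMod.prodEquivPi (fun p : J => ((p : Nat.Primes) : ℕ))
    (coprime_pairwise J) (y i) p)

omit [Fintype ι] [DecidableEq ι] in
lemma FF_cast (J : Finset Nat.Primes) (f : (p : Nat.Primes) → (ι → ZMod p) → ℝ) (x : ι → ℕ) :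
    FF J f (fun i => (x i : ZMod (dd J))) = ∏ p ∈ J, f p (fun i => (x i : ZMod p)) := by
  unfold FF
  rw [← Finset.prod_coe_sort J (fun p : Nat.Primes => f p (fun i => (x i : ZMod p)))]
  refine Finset.prod_congr rfl fun p _ => ?_
  congr 1
  ext i
  have : ZMod.prodEquivPi (fun p : J => ((p : Nat.Primes) : ℕ)) (coprime_pairwise J)
      ((x i : ℕ) : ZMod (dd J)) = ((x i : ℕ) : (p : J) → ZMod ((p : Nat.Primes) : ℕ)) :=
    map_natCast _ (x i)
  rw [this]
  rfl

lemma sum_FF (J : Finset Nat.Primes) (f : (p : Nat.Primes) → (ι → ZMod p) → ℝ) :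
    ∑ y, FF J f y = ∏ p ∈ J, ∑ y, f p y := by
  classical
  rw [← Finset.prod_coe_sort J (fun p : Nat.Primes => ∑ y, f p y)]
  rw [Finset.prod_univ_sum]
  set e1 : (ι → ZMod (dd J)) ≃ (ι → (p : J) → ZMod ((p : Nat.Primes) : ℕ)) :=
    Equiv.piCongrRight (fun _ => (ZMod.prodEquivPi (fun p : J => ((p : Nat.Primes) : ℕ))
      (coprime_pairwise J)).toEquiv) with he1
  set e2 : (ι → (p : J) → ZMod ((p : Nat.Primes) : ℕ)) ≃ ((p : J) → ι → ZMod ((p : Nat.Primes) : ℕ)) :=
    Equiv.piComm (fun (_ : ι) (p : J) => ZMod ((p : Nat.Primes) : ℕ)) with he2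
  rw [Fintype.piFinset_univ]
  refine Fintype.sum_equiv (e1.trans e2) _ _ fun y => ?_
  rfl

end Pool.Agent.H21.BFT
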