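import Pool.Agent.H90.BFT.Main

/-!
Weighted second moment method in the random sieve model.
-/

set_option autoImplicit false

open MeasureTheory ProbabilityTheory Finset Pool.Agent.H90.BFT

namespace Pool.Agent.H21.BFT

variable {Ω : Type*} [MeasurableSpace Ω]

lemma second_moment_w (P : Measure Ω) [IsProbabilityMeasure P] {Θ : Type*} (s : Finset Θ)
    (hs : s.Nonempty) (E : Θ → Set Ω) (hE : ∀ θ ∈ s, MeasurableSet (E θ))
    (hpos : ∀ θ ∈ s, 0 < P.real (E θ)) :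
    P.real {ω | ∀ θ ∈ s, ω ∉ E θ} ≤
      (∑ θ ∈ s, ∑ θ' ∈ s, P.real (E θ ∩ E θ') / (P.real (E θ) * P.real (E θ'))) / (#s : ℝ) ^ 2 - 1 := by
  classical
  set n : ℝ := (#s : ℝ) with hn
  have hn0 : 0 < n := by rw [hn]; exact_mod_cast hs.card_pos
  set g : Θ → Ω → ℝ := fun θ => (E θ).indicator (fun _ => (P.real (E θ))⁻¹) with hg
  have hgint : ∀ θ ∈ s, Integrable (g θ) P := fun θ hθ =>
    (integrable_const _).indicator (hE θ hθ)
  have hgi : ∀ θ ∈ s, ∫ ω, g θ ω ∂P = 1 := by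
    intro θ hθ
    rw [hg]
    simp only
    rw [integral_indicator (hE θ hθ), setIntegral_const, smul_eq_mul,
      mul_inv_cancel₀ (hpos θ hθ).ne']
  have hgg : ∀ θ ∈ s, ∀ θ' ∈ s, (fun ω => g θ ω * g θ' ω) =
      (E θ ∩ E θ').indicator (fun _ => (P.real (E θ))⁻¹ * (P.real (E θ'))⁻¹) := by
    intro θ _ θ' _
    funext ω
    simp only [hg]
    by_cases h1 : ω ∈ E θ <;> by_cases h2 : ω ∈ E θ' <;> simp [h1, h2]
  have hggint : ∀ θ ∈ s, ∀ θ' ∈ s, Integrable (fun ω => g θ ω * g θ' ω) P := by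
    intro θ hθ θ' hθ'
    rw [hgg θ hθ θ' hθ']
    exact (integrable_const _).indicator ((hE θ hθ).inter (hE θ' hθ'))
  have hggi : ∀ θ ∈ s, ∀ θ' ∈ s, ∫ ω, g θ ω * g θ' ω ∂P =
      P.real (E θ ∩ E θ') / (P.real (E θ) * P.real (E θ')) := by
    intro θ hθ θ' hθ'
    rw [hgg θ hθ θ' hθ', integral_indicator ((hE θ hθ).inter (hE θ' hθ')), setIntegral_const,
      smul_eq_mul, ← mul_inv, div_eq_mul_inv]
  set X : Ω → ℝ := fun ω => ∑ θ ∈ s, g θ ω with hX
  have hXint : Integrable X P := integrable_finsetSum s hgint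
  have hXi : ∫ ω, X ω ∂P = n := by
    rw [hX]
    simp only
    rw [integral_finsetSum s hgint, Finset.sum_congr rfl hgi]
    simp [hn]
  have hX2 : (fun ω => X ω ^ 2) = fun ω => ∑ θ ∈ s, ∑ θ' ∈ s, g θ ω * g θ' ω := by
    funext ω
    rw [hX]
    simp only
    rw [sq, Finset.sum_mul_sum]
  have hX2int : Integrable (fun ω => X ω ^ 2) P := by
    rw [hX2]
    exact integrable_finsetSum s fun θ hθ => integrable_finsetSum s fun θ' hθ' => hggint θ hθ θ' hθ'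
  have hX2i : ∫ ω, X ω ^ 2 ∂P =
      ∑ θ ∈ s, ∑ θ' ∈ s, P.real (E θ ∩ E θ') / (P.real (E θ) * P.real (E θ')) := by
    rw [hX2, integral_finsetSum s fun θ hθ => integrable_finsetSum s fun θ' hθ' => hggint θ hθ θ' hθ']
    refine Finset.sum_congr rfl fun θ hθ => ?_
    rw [integral_finsetSum s fun θ' hθ' => hggint θ hθ θ' hθ']
    exact Finset.sum_congr rfl fun θ' hθ' => hggi θ hθ θ' hθ'
  set F : Set Ω := {ω | ∀ θ ∈ s, ω ∉ E θ} with hF
  have hFm : MeasurableSet F := by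
    have : F = ⋂ θ ∈ s, (E θ)ᶜ := by ext ω; simp [hF]
    rw [this]
    exact Finset.measurableSet_biInter s fun θ hθ => (hE θ hθ).compl
  have hle : ∀ ω, F.indicator (fun _ => n ^ 2) ω ≤ (X ω - n) ^ 2 := by
    intro ω
    by_cases hω : ω ∈ F
    · rw [Set.indicator_of_mem hω]
      have : X ω = 0 := by
        rw [hX]
        refine Finset.sum_eq_zero fun θ hθ => ?_
        rw [hg]
        exact Set.indicator_of_notMem (hω θ hθ) _
      rw [this]
      nlinarith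
    · rw [Set.indicator_of_notMem hω]
      positivity
  have hsqint : Integrable (fun ω => (X ω - n) ^ 2) P := by
    have : (fun ω => (X ω - n) ^ 2) = fun ω => X ω ^ 2 - 2 * n * X ω + n ^ 2 := by
      funext ω; ring
    rw [this]
    exact (hX2int.sub (hXint.const_mul _)).add (integrable_const _)
  have h1 : n ^ 2 * P.real F ≤ ∫ ω, (X ω - n) ^ 2 ∂P := by
    calc n ^ 2 * P.real F = ∫ ω, F.indicator (fun _ => n ^ 2) ω ∂P := by
          rw [integral_indicator hFm, setIntegral_const, smul_eq_mul, mul_comm]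
      _ ≤ _ := integral_mono ((integrable_const _).indicator hFm) hsqint hle
  have h2 : ∫ ω, (X ω - n) ^ 2 ∂P = (∫ ω, X ω ^ 2 ∂P) - n ^ 2 := by
    have e : (fun ω => (X ω - n) ^ 2) = fun ω => X ω ^ 2 - 2 * n * X ω + n ^ 2 := by
      funext ω; ring
    have e1 : ∫ ω, (X ω ^ 2 - 2 * n * X ω + n ^ 2) ∂P =
        ∫ ω, (X ω ^ 2 - 2 * n * X ω) ∂P + ∫ _ω, n ^ 2 ∂P :=
      integral_add (hX2int.sub (hXint.const_mul (2 * n))) (integrable_const _)
    have e2 : ∫ ω, (X ω ^ 2 - 2 * n * X ω) ∂P = ∫ ω, X ω ^ 2 ∂P - ∫ ω, 2 * n * X ω ∂P :=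
      integral_sub hX2int (hXint.const_mul (2 * n))
    rw [e, e1, e2, integral_const_mul, hXi]
    simp
    ring
  rw [h2, hX2i] at h1
  rw [le_sub_iff_add_le, le_div_iff₀ (by positivity)]
  nlinarith

variable {P : Measure Ω} [IsProbabilityMeasure P] {a : ℕ → Ω → ℕ}

omit [IsProbabilityMeasure P] in
lemma measurable_avoid (h : Model P a) (T : Finset ℕ) (hT : ∀ p ∈ T, p.Prime) (B : ℕ → Finset ℕ) :
    MeasurableSet {ω | ∀ p ∈ T, a p ω ∉ B p} := by
  have : {ω | ∀ p ∈ T, a p ω ∉ B p} = ⋂ p ∈ T, (a p) ⁻¹' ((B p : Set ℕ)ᶜ) := by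
    ext ω; simp
  rw [this]
  exact Finset.measurableSet_biInter T fun p hp => h.meas p (hT p hp) (Set.to_countable _).measurableSet

/-- second moment in the model -/
lemma model_second (h : Model P a) (T : Finset ℕ) (hT : ∀ p ∈ T, p.Prime) {Θ : Type*} (s : Finset Θ)
    (hs : s.Nonempty) (B : Θ → ℕ → Finset ℕ) (hB : ∀ θ ∈ s, ∀ p ∈ T, B θ p ⊆ range p)
    (hlt : ∀ θ ∈ s, ∀ p ∈ T, #(B θ p) < p) :
    P.real {ω | ∀ θ ∈ s, ω ∉ {ω | ∀ p ∈ T, a p ω ∉ B θ p}} ≤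
      (∑ θ ∈ s, ∑ θ' ∈ s, ∏ p ∈ T, ((1 - #(B θ p ∪ B θ' p) / (p : ℝ)) /
        ((1 - #(B θ p) / (p : ℝ)) * (1 - #(B θ' p) / (p : ℝ))))) / (#s : ℝ) ^ 2 - 1 := by
  classical
  have hE : ∀ θ ∈ s, MeasurableSet {ω | ∀ p ∈ T, a p ω ∉ B θ p} := fun θ _ =>
    measurable_avoid h T hT (B θ)
  have hp : ∀ θ ∈ s, P.real {ω | ∀ p ∈ T, a p ω ∉ B θ p} = ∏ p ∈ T, (1 - #(B θ p) / (p : ℝ)) :=
    fun θ hθ => h.avoid_all T hT (B θ) (hB θ hθ)
  have hpos : ∀ θ ∈ s, 0 < P.real {ω | ∀ p ∈ T, a p ω ∉ B θ p} := by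
    intro θ hθ
    rw [hp θ hθ]
    refine Finset.prod_pos fun p hpT => ?_
    have h0 : (0 : ℝ) < p := by exact_mod_cast (hT p hpT).pos
    have h1 : (#(B θ p) : ℝ) < p := by exact_mod_cast hlt θ hθ p hpT
    rw [sub_pos, div_lt_one h0]
    exact h1
  refine (second_moment_w P s hs (fun θ => {ω | ∀ p ∈ T, a p ω ∉ B θ p}) hE hpos).trans ?_
  refine sub_le_sub_right (div_le_div_of_nonneg_right (le_of_eq ?_) (by positivity)) _
  refine Finset.sum_congr rfl fun θ hθ => Finset.sum_congr rfl fun θ' hθ' => ?_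
  rw [hp θ hθ, hp θ' hθ', Finset.prod_div_distrib, Finset.prod_mul_distrib]
  congr 1
  have e : {ω | ∀ p ∈ T, a p ω ∉ B θ p} ∩ {ω | ∀ p ∈ T, a p ω ∉ B θ' p} =
      {ω | ∀ p ∈ T, a p ω ∉ B θ p ∪ B θ' p} := by
    ext ω
    simp only [Set.mem_inter_iff, Set.mem_ofPred_eq, mem_union, not_or]
    exact ⟨fun h p hp => ⟨h.1 p hp, h.2 p hp⟩, fun h => ⟨fun p hp => (h p hp).1, fun p hp => (h p hp).2⟩⟩
  rw [e]
  exact h.avoid_all T hT _ fun p hpT => union_subset (hB θ hθ p hpT) (hB θ' hθ' p hpT)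

/-- freezing the classes of the primes of `S` -/
lemma freeze (h : Model P a) (S T : Finset ℕ) (hT : ∀ p ∈ T, p.Prime)
    (hST : Disjoint S T) {Θ : Type*} (s : Finset Θ) (B : (ℕ → ℕ) → Θ → ℕ → Finset ℕ) (η : ℝ)
    (hη : ∀ α : ℕ → ℕ, P.real {ω | ∀ θ ∈ s, ω ∉ {ω | ∀ p ∈ T, a p ω ∉ B α θ p}} ≤ η) :
    P {ω | ∀ θ ∈ s, ¬ ∀ p ∈ T, a p ω ∉ B (ext S (fun i => a (i : Nat.Primes) ω)) θ p} ≤
      ENNReal.ofReal η := by
  classical
  set V : Ω → (sub S → ℕ) := fun ω i => a (i : Nat.Primes) ω with hV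
  set W : Ω → (sub T → ℕ) := fun ω i => a (i : Nat.Primes) ω with hW
  have hmeas : ∀ i : Nat.Primes, Measurable (a i) := fun i => h.meas i i.2
  have hVm : Measurable V := measurable_pi_lambda _ fun i => hmeas i
  have hWm : Measurable W := measurable_pi_lambda _ fun i => hmeas i
  have hdisj : Disjoint (sub S) (sub T) := by
    rw [Finset.disjoint_left]
    intro p hp hp'
    rw [mem_sub] at hp hp'
    exact (Finset.disjoint_left.mp hST) hp hp'
  have hind : IndepFun V W P := h.indep.indepFun_finset (sub S) (sub T) hdisj hmeas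
  have hprod := (indepFun_iff_map_prod_eq_prod_map_map hVm.aemeasurable hWm.aemeasurable).mp hind
  set A : Set ((sub S → ℕ) × (sub T → ℕ)) :=
    {vw | ∀ θ ∈ s, ¬ ∀ p : sub T, vw.2 p ∉ B (ext S vw.1) θ (p : Nat.Primes)} with hA
  have hAm : MeasurableSet A := MeasurableSet.of_discrete
  have hset : {ω | ∀ θ ∈ s, ¬ ∀ p ∈ T, a p ω ∉ B (ext S (fun i => a (i : Nat.Primes) ω)) θ p} ⊆
      (fun ω => (V ω, W ω)) ⁻¹' A := by
    intro ω hω
    rw [Set.mem_ofPred_eq] at hω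
    rw [Set.mem_preimage, hA, Set.mem_ofPred_eq]
    intro θ hθ hcon
    apply hω θ hθ
    intro p hp
    exact hcon ⟨⟨p, hT p hp⟩, mem_sub.mpr hp⟩
  have hfib : ∀ v : sub S → ℕ, P.map W (Prod.mk v ⁻¹' A) ≤ ENNReal.ofReal η := by
    intro v
    rw [Measure.map_apply hWm MeasurableSet.of_discrete]
    have h1 := hη (ext S v)
    have h2 : W ⁻¹' (Prod.mk v ⁻¹' A) = {ω | ∀ θ ∈ s, ω ∉
        {ω | ∀ p ∈ T, a p ω ∉ B (ext S v) θ p}} := by
      ext ω
      simp only [hA, hW, Set.mem_preimage, Set.mem_ofPred_eq]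
      refine forall_congr' fun i => forall_congr' fun _ => not_congr ?_
      constructor
      · intro h p hp
        exact h ⟨⟨p, hT p hp⟩, mem_sub.mpr hp⟩
      · intro h p
        exact h p (mem_sub.mp p.2)
    rw [h2]
    rw [← ENNReal.ofReal_toReal (measure_ne_top P _)]
    exact ENNReal.ofReal_le_ofReal h1
  calc P _ ≤ P ((fun ω => (V ω, W ω)) ⁻¹' A) := measure_mono hset
    _ = (P.map (fun ω => (V ω, W ω))) A := (Measure.map_apply (hVm.prodMk hWm) hAm).symm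
    _ = ((P.map V).prod (P.map W)) A := by rw [hprod]
    _ = ∫⁻ v, P.map W (Prod.mk v ⁻¹' A) ∂(P.map V) := by
        have : IsProbabilityMeasure (P.map W) := Measure.isProbabilityMeasure_map hWm.aemeasurable
        rw [Measure.prod_apply hAm]
    _ ≤ ∫⁻ _v, ENNReal.ofReal η ∂(P.map V) := lintegral_mono hfib
    _ = ENNReal.ofReal η := by
        have : IsProbabilityMeasure (P.map V) := Measure.isProbabilityMeasure_map hVm.aemeasurable
        simp

end Pool.Agent.H21.BFT
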