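import Pool.Agent.H21.BFT.Fam
import Pool.Agent.H21.BFT.Second

/-!
The choice of the class of the first term modulo the small primes.
-/

set_option autoImplicit false

open Finset Pool.Agent.H90.BFT

namespace Pool.Agent.H21.BFT

/-- Some progression `a, a + b, …, a + (l - 1) b` (with `b ≥ 1`) has the property that all the numbers
`a + j b + h` with `j < l` and `h ∈ H` lie in `A` and are at most `x`. -/
def HasAP (A : Set ℕ) (H : Finset ℕ) (x l : ℕ) : Prop :=
  ∃ a b : ℕ, 0 < b ∧ ∀ j < l, ∀ h ∈ H, a + j * b + h ∈ A ∧ a + j * b + h ≤ x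

/-- `H` does not cover all classes modulo any prime -/
def Admissible (H : Finset ℕ) : Prop :=
  ∀ p : ℕ, p.Prime → ∃ c : ℕ, ∀ h ∈ H, ¬ c + h ≡ 0 [MOD p]

lemma exists_r (H : Finset ℕ) (hH : Admissible H) (w : ℕ) (α : ℕ → ℕ) :
    ∃ r : ℕ, 8 ≤ r ∧ r ≤ 9 * primorial w ∧
      ∀ p : ℕ, p.Prime → p ≤ w → ∀ h ∈ H, ¬ r + h ≡ α p [MOD p] := by
  classical
  choose! c hc using hH
  have hs : ∀ i ∈ Nat.primesLE w, (fun p : ℕ => p) i ≠ 0 := fun i hi =>
    (Nat.mem_primesLE.mp hi).2.ne_zero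
  have pp : Set.Pairwise (Nat.primesLE w : Set ℕ) (Function.onFun Nat.Coprime (fun p : ℕ => p)) := by
    intro p hp q hq hpq
    exact (Nat.coprime_primes (Nat.mem_primesLE.mp hp).2 (Nat.mem_primesLE.mp hq).2).mpr hpq
  set k := Nat.chineseRemainderOfFinset (fun p => c p + α p) (fun p => p) (Nat.primesLE w) hs pp with hk
  have hk1 : (k : ℕ) < primorial w := by
    rw [primorial_eq_prod_primesLE]
    exact Nat.chineseRemainderOfFinset_lt_prod (fun p => c p + α p) (fun p => p) hs pp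
  have hpos := primorial_pos w
  refine ⟨k + 8 * primorial w, by omega, by omega, ?_⟩
  intro p hp hpw h hh hcon
  have h1 : (k : ℕ) ≡ c p + α p [MOD p] := k.2 p (Nat.mem_primesLE.mpr ⟨hpw, hp⟩)
  have h2 : 8 * primorial w ≡ 0 [MOD p] :=
    Nat.modEq_zero_iff_dvd.mpr (((Nat.Prime.dvd_primorial_iff hp).mpr hpw).mul_left 8)
  have h3 : (k : ℕ) + 8 * primorial w + h ≡ c p + α p + 0 + h [MOD p] := (h1.add h2).add_right h
  have h4 : c p + α p + 0 + h ≡ α p [MOD p] := h3.symm.trans hcon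
  have h5 : (c p + h) + α p ≡ 0 + α p [MOD p] := by
    have e : (c p + h) + α p = c p + α p + 0 + h := by ring
    rw [e, zero_add]
    exact h4
  exact hc p hp h hh (Nat.ModEq.add_right_cancel' (α p) h5)

open Classical in
/-- the chosen class -/
noncomputable def rr (H : Finset ℕ) (hH : Admissible H) (w : ℕ) (α : ℕ → ℕ) : ℕ :=
  Classical.choose (exists_r H hH w α)

lemma rr_spec (H : Finset ℕ) (hH : Admissible H) (w : ℕ) (α : ℕ → ℕ) :
    8 ≤ rr H hH w α ∧ rr H hH w α ≤ 9 * primorial w ∧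
      ∀ p : ℕ, p.Prime → p ≤ w → ∀ h ∈ H, ¬ rr H hH w α + h ≡ α p [MOD p] :=
  Classical.choose_spec (exists_r H hH w α)

lemma mem_UU_le {r D l : ℕ} {H : Finset ℕ} {θ : Fin 2 → ℕ} {M hm : ℕ} (hr : r ≤ 9 * D)
    (hθ : θ ∈ box (Fin 2) M) (hH : ∀ h ∈ H, h ≤ hm) {u : ℕ} (hu : u ∈ UU r D l H θ) :
    u ≤ D * M * (l + 10) + hm := by
  unfold UU at hu
  rw [mem_image] at hu
  obtain ⟨⟨j, h⟩, hz, rfl⟩ := hu
  rw [mem_product, mem_range] at hz
  simp only at hz ⊢
  have h0 := mem_range.mp (Fintype.mem_piFinset.mp hθ 0)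
  have h1 := mem_range.mp (Fintype.mem_piFinset.mp hθ 1)
  have hM : 1 ≤ M := by omega
  have e1 : D * θ 0 ≤ D * M := Nat.mul_le_mul_left D h0.le
  have e2 : j * (D * (θ 1 + 1)) ≤ l * (D * M) :=
    Nat.mul_le_mul hz.1.le (Nat.mul_le_mul_left D h1)
  have e3 : 9 * D ≤ 9 * (D * M) := Nat.mul_le_mul_left 9 (Nat.le_mul_of_pos_right D hM)
  have e4 := hH h hz.2
  calc r + D * θ 0 + j * (D * (θ 1 + 1)) + h ≤ 9 * (D * M) + D * M + l * (D * M) + hm := by omega
    _ = _ := by ring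

/-- A successful parameter gives a progression. -/
lemma hasAP_of_success (H : Finset ℕ) (w l M x : ℕ) (α : ℕ → ℕ) (hαlt : ∀ p, p.Prime → α p < p) (t : ℝ)
    (hx : Real.log x ≤ t) (T : Finset ℕ) (hT : ∀ p : ℕ, p.Prime → w < p → (Th p)⁻¹ ≤ t → p ∈ T)
    (r : ℕ) (hr8 : 8 ≤ r) (hr : ∀ p : ℕ, p.Prime → p ≤ w → ∀ h ∈ H, ¬ r + h ≡ α p [MOD p])
    (θ : Fin 2 → ℕ) (hle : ∀ u ∈ UU r (primorial w) l H θ, u ≤ x)
    (hsucc : ∀ p ∈ T, α p ∉ (UU r (primorial w) l H θ).image (· % p)) :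
    HasAP (RS α) H x l := by
  refine ⟨r + primorial w * θ 0, primorial w * (θ 1 + 1), by
    have := primorial_pos w; positivity, fun j hj h hh => ?_⟩
  set u := r + primorial w * θ 0 + j * (primorial w * (θ 1 + 1)) + h with hu
  have humem : u ∈ UU r (primorial w) l H θ := by
    unfold UU
    rw [mem_image]
    exact ⟨(j, h), mem_product.mpr ⟨mem_range.mpr hj, hh⟩, rfl⟩
  refine ⟨⟨?_, ?_⟩, hle u humem⟩
  · have : r ≤ u := by rw [hu]; omega
    omega
  · intro p hp hpt hmod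
    have h8 : 0 < u := by
      have : r ≤ u := by rw [hu]; omega
      omega
    have hlog : Real.log u ≤ t := by
      refine le_trans ?_ hx
      apply Real.log_le_log (by exact_mod_cast h8)
      exact_mod_cast hle u humem
    rcases Nat.lt_or_ge w p with h1 | h1
    · have h2 := hT p hp h1 (hpt.trans hlog)
      apply hsucc p h2
      rw [mem_image]
      refine ⟨u, humem, ?_⟩
      have h3 : u % p = α p % p := hmod
      rw [Nat.mod_eq_of_lt (hαlt p hp)] at h3
      exact h3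
    · apply hr p hp h1 h hh
      have hd : p ∣ primorial w := (Nat.Prime.dvd_primorial_iff hp).mpr h1
      have h3 : primorial w * θ 0 ≡ 0 [MOD p] := Nat.modEq_zero_iff_dvd.mpr (hd.mul_right _)
      have h4 : j * (primorial w * (θ 1 + 1)) ≡ 0 [MOD p] :=
        Nat.modEq_zero_iff_dvd.mpr ((hd.mul_right _).mul_left _)
      have h5 : u ≡ r + 0 + 0 + h [MOD p] := by
        rw [hu]
        exact (((Nat.ModEq.refl r).add h3).add h4).add_right h
      have h6 : r + 0 + 0 + h ≡ α p [MOD p] := h5.symm.trans hmod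
      simpa using h6

end Pool.Agent.H21.BFT
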