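import Pool.Agent.H21.BFT.Pair

/-!
The family of progressions of patterns, and the total of the pair correlations.
-/

set_option autoImplicit false

open Finset

namespace Pool.Agent.H21.BFT

/-- the elements `a + j b + h` with `a = r + D θ₀` and `b = D (θ₁ + 1)` -/
def UU (r D l : ℕ) (H : Finset ℕ) (θ : Fin 2 → ℕ) : Finset ℕ :=
  (range l ×ˢ H).image (fun z => r + D * θ 0 + z.1 * (D * (θ 1 + 1)) + z.2)

/-- the same modulo `p` -/
def AA (r D l : ℕ) (H : Finset ℕ) (p : ℕ) (y : Fin 2 → ZMod p) : Finset (ZMod p) :=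
  (range l ×ˢ H).image (fun z => (r : ZMod p) + D * y 0 + z.1 * (D * (y 1 + 1)) + z.2)

lemma res_UU (r D l : ℕ) (H : Finset ℕ) (p : ℕ) (θ : Fin 2 → ℕ) :
    res p (UU r D l H θ) = AA r D l H p (fun i => (θ i : ZMod p)) := by
  unfold res UU AA
  rw [Finset.image_image]
  refine Finset.image_congr fun z _ => ?_
  simp

lemma card_UU_le (r D l : ℕ) (H : Finset ℕ) (θ : Fin 2 → ℕ) : #(UU r D l H θ) ≤ l * #H := by
  unfold UU
  refine card_image_le.trans (le_of_eq ?_)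
  rw [card_product, card_range]

lemma card_AA_le (r D l : ℕ) (H : Finset ℕ) (p : ℕ) (y : Fin 2 → ZMod p) :
    #(AA r D l H p y) ≤ l * #H := by
  unfold AA
  refine card_image_le.trans (le_of_eq ?_)
  rw [card_product, card_range]

lemma inv_AA (r D l : ℕ) (H : Finset ℕ) (p : ℕ) (hp : p.Prime) (hD : ¬ p ∣ D) :
    Inv p (AA r D l H p) := by
  have : Fact p.Prime := ⟨hp⟩
  have hD' : (D : ZMod p) ≠ 0 := by rwa [Ne, ZMod.natCast_eq_zero_iff]
  intro b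
  refine ⟨Equiv.addRight (Pi.single (0 : Fin 2) ((D : ZMod p)⁻¹ * b)), fun y a => ?_⟩
  unfold AA
  rw [mem_image, mem_image]
  refine exists_congr fun z => and_congr_right fun _ => ?_
  have e0 : (Equiv.addRight (Pi.single (0 : Fin 2) ((D : ZMod p)⁻¹ * b)) y : Fin 2 → ZMod p) 0 =
      y 0 + (D : ZMod p)⁻¹ * b := by
    simp
  have e1 : (Equiv.addRight (Pi.single (0 : Fin 2) ((D : ZMod p)⁻¹ * b)) y : Fin 2 → ZMod p) 1 =
      y 1 := by
    simp
  rw [e0, e1, mul_add, ← mul_assoc, mul_inv_cancel₀ hD', one_mul]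
  constructor
  · intro h
    rw [← h]; ring
  · intro h
    rw [eq_sub_iff_add_eq] at h
    rw [← h]; ring

variable {κ : Type*} [Fintype κ] [DecidableEq κ]

lemma sum_box_pairs (M : ℕ) (F : (κ → ℕ) → (κ → ℕ) → ℝ) :
    ∑ θ ∈ box κ M, ∑ θ' ∈ box κ M, F θ θ' =
      ∑ x ∈ box (κ ⊕ κ) M, F (fun i => x (Sum.inl i)) (fun i => x (Sum.inr i)) := by
  rw [← Finset.sum_product']
  refine Finset.sum_bij' (fun z _ => Sum.elim z.1 z.2)
    (fun x _ => (fun i => x (Sum.inl i), fun i => x (Sum.inr i))) ?_ ?_ ?_ ?_ ?_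
  · rintro ⟨θ, θ'⟩ h
    rw [mem_product, Fintype.mem_piFinset, Fintype.mem_piFinset] at h
    rw [Fintype.mem_piFinset]
    rintro (i | i)
    · exact h.1 i
    · exact h.2 i
  · intro x h
    rw [Fintype.mem_piFinset] at h
    rw [mem_product, Fintype.mem_piFinset, Fintype.mem_piFinset]
    exact ⟨fun i => h _, fun i => h _⟩
  · rintro ⟨θ, θ'⟩ _; rfl
  · intro x _
    ext (i | i) <;> rfl
  · rintro ⟨θ, θ'⟩ _; rfl

/-- the pairs of progressions which meet -/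
lemma card_meet_le (r D l : ℕ) (hD : 0 < D) (H : Finset ℕ) (M : ℕ) :
    #(((box (Fin 2) M) ×ˢ (box (Fin 2) M)).filter
      (fun z => (UU r D l H z.1 ∩ UU r D l H z.2).Nonempty)) ≤ (l * #H) ^ 2 * M ^ 3 := by
  classical
  have hex : ∀ z : (Fin 2 → ℕ) × (Fin 2 → ℕ), ∃ v : (ℕ × ℕ) × (ℕ × ℕ),
      (UU r D l H z.1 ∩ UU r D l H z.2).Nonempty →
        v.1 ∈ range l ×ˢ H ∧ v.2 ∈ range l ×ˢ H ∧
        r + D * z.1 0 + v.1.1 * (D * (z.1 1 + 1)) + v.1.2 =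
          r + D * z.2 0 + v.2.1 * (D * (z.2 1 + 1)) + v.2.2 := by
    intro z
    by_cases h : (UU r D l H z.1 ∩ UU r D l H z.2).Nonempty
    · obtain ⟨u, hu⟩ := h
      rw [mem_inter, UU, UU, mem_image, mem_image] at hu
      obtain ⟨⟨v1, h1, e1⟩, ⟨v2, h2, e2⟩⟩ := hu
      exact ⟨(v1, v2), fun _ => ⟨h1, h2, e1.trans e2.symm⟩⟩
    · exact ⟨((0, 0), (0, 0)), fun h' => absurd h' h⟩
  choose g hg using hex
  set S := (((box (Fin 2) M) ×ˢ (box (Fin 2) M)).filter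
      (fun z => (UU r D l H z.1 ∩ UU r D l H z.2).Nonempty)) with hS
  set t := (box (Fin 2) M) ×ˢ ((range l ×ˢ H) ×ˢ (range l ×ˢ H)) ×ˢ range M with ht
  have hmaps : Set.MapsTo (fun z : (Fin 2 → ℕ) × (Fin 2 → ℕ) => (z.1, g z, z.2 1)) S t := by
    intro z hz
    rw [hS, mem_coe, mem_filter, mem_product] at hz
    obtain ⟨⟨h1, h2⟩, h3⟩ := hz
    obtain ⟨h4, h5, -⟩ := hg z h3
    rw [ht, mem_coe]
    exact mem_product.mpr ⟨h1, mem_product.mpr ⟨mem_product.mpr ⟨h4, h5⟩,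
      (Fintype.mem_piFinset.mp h2) 1⟩⟩
  have hinj : Set.InjOn (fun z : (Fin 2 → ℕ) × (Fin 2 → ℕ) => (z.1, g z, z.2 1)) S := by
    intro z hz z' hz' h
    rw [hS, mem_coe, mem_filter] at hz hz'
    simp only [Prod.mk.injEq] at h
    obtain ⟨h1, h2, h3⟩ := h
    have e1 := (hg z hz.2).2.2
    have e2 := (hg z' hz'.2).2.2
    rw [← h1, ← h2, ← h3] at e2
    have h4 : D * z.2 0 = D * z'.2 0 := by omega
    have h5 := Nat.eq_of_mul_eq_mul_left hD h4
    refine Prod.ext h1 ?_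
    ext i
    fin_cases i
    · exact h5
    · exact h3
  refine (card_le_card_of_injOn _ hmaps hinj).trans (le_of_eq ?_)
  rw [ht]
  simp only [card_product, card_range, card_box, Fintype.card_fin]
  ring

/-- the pairs of progressions with at least two different places of meeting -/
lemma card_meet_two_le (r D l : ℕ) (hD : 0 < D) (H : Finset ℕ) (M : ℕ) :
    #(((box (Fin 2) M) ×ˢ (box (Fin 2) M)).filter
      (fun z => #H < #(UU r D l H z.1 ∩ UU r D l H z.2))) ≤ (l * #H) ^ 4 * M ^ 2 := by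
  classical
  have hex : ∀ z : (Fin 2 → ℕ) × (Fin 2 → ℕ), ∃ v : ((ℕ × ℕ) × (ℕ × ℕ)) × ((ℕ × ℕ) × (ℕ × ℕ)),
      #H < #(UU r D l H z.1 ∩ UU r D l H z.2) →
        (v.1.1 ∈ range l ×ˢ H ∧ v.1.2 ∈ range l ×ˢ H ∧ v.2.1 ∈ range l ×ˢ H ∧ v.2.2 ∈ range l ×ˢ H) ∧
        v.1.2.1 ≠ v.2.2.1 ∧
        r + D * z.1 0 + v.1.1.1 * (D * (z.1 1 + 1)) + v.1.1.2 =
          r + D * z.2 0 + v.1.2.1 * (D * (z.2 1 + 1)) + v.1.2.2 ∧
        r + D * z.1 0 + v.2.1.1 * (D * (z.1 1 + 1)) + v.2.1.2 =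
          r + D * z.2 0 + v.2.2.1 * (D * (z.2 1 + 1)) + v.2.2.2 := by
    intro z
    by_cases h : #H < #(UU r D l H z.1 ∩ UU r D l H z.2)
    · have hrep : ∀ u ∈ UU r D l H z.1 ∩ UU r D l H z.2, ∃ v : (ℕ × ℕ) × (ℕ × ℕ),
          v.1 ∈ range l ×ˢ H ∧ v.2 ∈ range l ×ˢ H ∧
          r + D * z.1 0 + v.1.1 * (D * (z.1 1 + 1)) + v.1.2 = u ∧
          r + D * z.2 0 + v.2.1 * (D * (z.2 1 + 1)) + v.2.2 = u := by
        intro u hu
        rw [mem_inter, UU, UU, mem_image, mem_image] at hu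
        obtain ⟨⟨v1, h1, e1⟩, ⟨v2, h2, e2⟩⟩ := hu
        exact ⟨(v1, v2), h1, h2, e1, e2⟩
      have hne : (UU r D l H z.1 ∩ UU r D l H z.2).Nonempty := by
        rw [← card_pos]; omega
      obtain ⟨u0, hu0⟩ := hne
      obtain ⟨v0, h01, h02, e01, e02⟩ := hrep u0 hu0
      by_contra hcon
      push Not at hcon
      -- all representations have the same index
      have hall : UU r D l H z.1 ∩ UU r D l H z.2 ⊆
          H.image (fun h => r + D * z.2 0 + v0.2.1 * (D * (z.2 1 + 1)) + h) := by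
        intro u hu
        obtain ⟨v, h1, h2, e1, e2⟩ := hrep u hu
        have h3 := hcon (v0, v) 
        have h4 : v0.2.1 = v.2.1 := by
          by_contra h5
          exact (h3.2 ⟨h01, h02, h1, h2⟩ h5 (e01.trans e02.symm)) (e1.trans e2.symm)
        rw [mem_image]
        exact ⟨v.2.2, (mem_product.mp h2).2, by rw [h4]; exact e2⟩
      have h5 := (card_le_card hall).trans card_image_le
      omega
    · exact ⟨(((0, 0), (0, 0)), ((0, 0), (0, 0))), fun h' => absurd h' h⟩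
  choose g hg using hex
  set S := (((box (Fin 2) M) ×ˢ (box (Fin 2) M)).filter
      (fun z => #H < #(UU r D l H z.1 ∩ UU r D l H z.2))) with hS
  set t := (box (Fin 2) M) ×ˢ (((range l ×ˢ H) ×ˢ (range l ×ˢ H)) ×ˢ
    ((range l ×ˢ H) ×ˢ (range l ×ˢ H))) with ht
  have hmaps : Set.MapsTo (fun z : (Fin 2 → ℕ) × (Fin 2 → ℕ) => (z.1, g z)) S t := by
    intro z hz
    rw [hS, mem_coe, mem_filter, mem_product] at hz
    obtain ⟨⟨h1, h2⟩, h3⟩ := hz
    obtain ⟨⟨h4, h5, h6, h7⟩, -⟩ := hg z h3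
    rw [ht, mem_coe]
    exact mem_product.mpr ⟨h1, mem_product.mpr ⟨mem_product.mpr ⟨h4, h5⟩, mem_product.mpr ⟨h6, h7⟩⟩⟩
  have hinj : Set.InjOn (fun z : (Fin 2 → ℕ) × (Fin 2 → ℕ) => (z.1, g z)) S := by
    intro z hz z' hz' h
    rw [hS, mem_coe, mem_filter] at hz hz'
    simp only [Prod.mk.injEq] at h
    obtain ⟨h1, h2⟩ := h
    obtain ⟨-, hne, e1, e2⟩ := hg z hz.2
    obtain ⟨-, -, e1', e2'⟩ := hg z' hz'.2
    rw [← h1, ← h2] at e1' e2'
    set v := g z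
    have f1 : r + D * z.2 0 + v.1.2.1 * (D * (z.2 1 + 1)) = r + D * z'.2 0 + v.1.2.1 * (D * (z'.2 1 + 1)) := by
      omega
    have f2 : r + D * z.2 0 + v.2.2.1 * (D * (z.2 1 + 1)) = r + D * z'.2 0 + v.2.2.1 * (D * (z'.2 1 + 1)) := by
      omega
    have f1' : (r : ℤ) + D * z.2 0 + v.1.2.1 * (D * (z.2 1 + 1)) =
        r + D * z'.2 0 + v.1.2.1 * (D * (z'.2 1 + 1)) := by exact_mod_cast f1
    have f2' : (r : ℤ) + D * z.2 0 + v.2.2.1 * (D * (z.2 1 + 1)) =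
        r + D * z'.2 0 + v.2.2.1 * (D * (z'.2 1 + 1)) := by exact_mod_cast f2
    have hD' : (D : ℤ) ≠ 0 := by exact_mod_cast hD.ne'
    have h3 : ((v.1.2.1 : ℤ) - v.2.2.1) * (D * ((z.2 1 : ℤ) - z'.2 1)) = 0 := by
      linear_combination f1' - f2'
    have h4 : ((v.1.2.1 : ℤ) - v.2.2.1) ≠ 0 := by
      rw [sub_ne_zero]; exact_mod_cast hne
    have h5 : (z.2 1 : ℤ) - z'.2 1 = 0 := by
      rcases mul_eq_zero.mp h3 with h | h
      · exact absurd h h4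
      · rcases mul_eq_zero.mp h with h | h
        · exact absurd h hD'
        · exact h
    have h6 : z.2 1 = z'.2 1 := by omega
    rw [h6] at f1
    have h7 : D * z.2 0 = D * z'.2 0 := by omega
    have h8 := Nat.eq_of_mul_eq_mul_left hD h7
    refine Prod.ext h1 ?_
    ext i
    fin_cases i
    · exact h8
    · exact h6
  refine (card_le_card_of_injOn _ hmaps hinj).trans (le_of_eq ?_)
  rw [ht]
  simp only [card_product, card_range, card_box, Fintype.card_fin]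
  ring

/-- the sum over all pairs for the middle primes -/
lemma mid_total (r D l : ℕ) (H : Finset ℕ) (N : ℕ) (hN : l * #H ≤ N) (T : Finset ℕ)
    (hT : ∀ p ∈ T, p.Prime) (hTD : ∀ p ∈ T, ¬ p ∣ D) (hTN : ∀ p ∈ T, 4 * N ≤ p) (M Y K : ℕ)
    (hY2 : 2 ≤ Y) (hY : ∀ p ∈ T, p ≤ Y) (hcard : #T ≤ Y) (hM : Y ^ K ≤ M) :
    ∑ θ ∈ box (Fin 2) M, ∑ θ' ∈ box (Fin 2) M,
      ∏ p ∈ T, (1 + cc p (res p (UU r D l H θ)) (res p (UU r D l H θ'))) ≤
    (M : ℝ) ^ 4 * (1 + 4 * (Y : ℝ) ^ (2 * K) / M + 16 * Real.exp (4 * N * ∑ p ∈ T, 1 / (p : ℝ)) *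
      ((4 * (N : ℝ) ^ 2 * ∑ p ∈ T, 1 / (p : ℝ) ^ 2) ^ K / K.factorial)) := by
  classical
  rw [sum_box_pairs M (fun θ θ' => ∏ p ∈ T, (1 + cc p (res p (UU r D l H θ)) (res p (UU r D l H θ'))))]
  set Q : Finset Nat.Primes := T.subtype Nat.Prime with hQ
  have hQT : Q.map (Function.Embedding.subtype _) = T := by
    rw [hQ, Finset.subtype_map]
    exact Finset.filter_true_of_mem hT
  have hprod : ∀ f : ℕ → ℝ, ∏ p ∈ T, f p = ∏ p ∈ Q, f (p : ℕ) := by
    intro f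
    conv_lhs => rw [← hQT]
    rw [Finset.prod_map]
    rfl
  have hsum : ∀ f : ℕ → ℝ, ∑ p ∈ T, f p = ∑ p ∈ Q, f (p : ℕ) := by
    intro f
    conv_lhs => rw [← hQT]
    rw [Finset.sum_map]
    rfl
  have hmem : ∀ p : Nat.Primes, p ∈ Q → (p : ℕ) ∈ T := fun p hp => Finset.mem_subtype.mp hp
  set c : (p : Nat.Primes) → (Fin 2 ⊕ Fin 2 → ZMod p) → ℝ := fun p y =>
    cc p (AA r D l H p (fun i => y (Sum.inl i))) (AA r D l H p (fun i => y (Sum.inr i))) with hc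
  have hAN : ∀ (p : ℕ) (y : Fin 2 → ZMod p), #(AA r D l H p y) ≤ N := fun p y =>
    (card_AA_le r D l H p y).trans hN
  have hmain := box_prod_le (ι := Fin 2 ⊕ Fin 2) Q c (fun p => 4 * N / ((p : ℕ) : ℝ))
    (fun p => 4 * (N : ℝ) ^ 2 / ((p : ℕ) : ℝ) ^ 2) (fun _ => 0) ?_ ?_ ?_ ?_ ?_ M Y K hY2 ?_ ?_ hM
  · have e1 : ∀ x ∈ box (Fin 2 ⊕ Fin 2) M, ∏ p ∈ T,
        (1 + cc p (res p (UU r D l H fun i => x (Sum.inl i))) (res p (UU r D l H fun i => x (Sum.inr i)))) =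
        ∏ p ∈ Q, (1 + c p (fun i => (x i : ZMod p))) := by
      intro x _
      rw [hprod]
      refine Finset.prod_congr rfl fun p _ => ?_
      rw [res_UU, res_UU]
    rw [Finset.sum_congr rfl e1]
    refine hmain.trans (le_of_eq ?_)
    have e2 : ∑ p ∈ Q, 4 * (N : ℝ) / ((p : ℕ) : ℝ) = 4 * N * ∑ p ∈ T, 1 / (p : ℝ) := by
      rw [hsum, Finset.mul_sum]
      refine Finset.sum_congr rfl fun p _ => ?_
      ring
    have e3 : ∑ p ∈ Q, 4 * (N : ℝ) ^ 2 / ((p : ℕ) : ℝ) ^ 2 = 4 * (N : ℝ) ^ 2 * ∑ p ∈ T, 1 / (p : ℝ) ^ 2 := by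
      rw [hsum (fun p => 1 / (p : ℝ) ^ 2), Finset.mul_sum]
      refine Finset.sum_congr rfl fun p _ => ?_
      ring
    rw [e2, e3]
    simp only [Fintype.card_sum, Fintype.card_fin, Finset.sum_const_zero, Real.exp_zero]
    norm_num
  · intro p hp
    have h1 : (0 : ℝ) < ((p : ℕ) : ℝ) := by exact_mod_cast p.2.pos
    rw [div_le_one h1]
    exact_mod_cast hTN p (hmem p hp)
  · intro p hp y
    exact abs_cc_le p.2.pos (hTN p (hmem p hp)) (hAN p _) (hAN p _)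
  · intro p _; exact le_rfl
  · intro p hp
    rw [zero_mul]
    exact sum_cc (hTN p (hmem p hp)) (hAN p) (inv_AA r D l H p p.2 (hTD p (hmem p hp)))
  · intro p hp
    exact sum_abs_cc (hTN p (hmem p hp)) (hAN p) (inv_AA r D l H p p.2 (hTD p (hmem p hp)))
  · intro p hp
    exact hY p (hmem p hp)
  · have h1 : #(Q.map (Function.Embedding.subtype _)) = #Q := Finset.card_map _
    rw [hQT] at h1
    exact h1 ▸ hcard

/-- the total over all pairs -/
lemma pair_total (r D l : ℕ) (hD : 0 < D) (H : Finset ℕ) (N : ℕ) (hN : l * #H ≤ N) (T : Finset ℕ)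
    (hT : ∀ p ∈ T, p.Prime) (hTD : ∀ p ∈ T, ¬ p ∣ D) (hTN : ∀ p ∈ T, 4 * N ≤ p) (M Y K L : ℕ)
    (hY2 : 2 ≤ Y) (hM : Y ^ K ≤ M)
    (hL : ∀ θ ∈ box (Fin 2) M, ∀ u ∈ UU r D l H θ, u < 2 ^ L)
    (σ β₁ β₂ β₃ : ℝ) (hσ : ∑ p ∈ T, 1 / (p : ℝ) ≤ σ)
    (hβ₁ : ∑ p ∈ T with p ≤ Y, 1 / (p : ℝ) ≤ β₁) (hβ₂ : ∑ p ∈ T, 1 / (p : ℝ) ^ 2 ≤ β₂)
    (hβ₃ : 2 * ((N : ℝ) ^ 2 * L / Y) ≤ β₃) :
    ∑ θ ∈ box (Fin 2) M, ∑ θ' ∈ box (Fin 2) M,
      ∏ p ∈ T, (1 + cc p (res p (UU r D l H θ)) (res p (UU r D l H θ'))) ≤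
    (M : ℝ) ^ 4 * (1 + 4 * (Y : ℝ) ^ (2 * K) / M + 16 * Real.exp (4 * N * β₁) *
      ((4 * (N : ℝ) ^ 2 * β₂) ^ K / K.factorial)) * Real.exp β₃ +
    (N : ℝ) ^ 2 * (M : ℝ) ^ 3 * Real.exp (4 * N * β₁ + β₃ + 2 * #H * σ) +
    (N : ℝ) ^ 4 * (M : ℝ) ^ 2 * Real.exp (N * σ + (N : ℝ) ^ 2 * β₂) := by
  classical
  set T1 := T.filter (fun p => p ≤ Y) with hT1
  set T2 := T.filter (fun p => ¬ p ≤ Y) with hT2
  have hT1p : ∀ p ∈ T1, p ∈ T := fun p hp => (mem_filter.mp hp).1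
  have hT2p : ∀ p ∈ T2, p ∈ T := fun p hp => (mem_filter.mp hp).1
  have hUN : ∀ θ, #(UU r D l H θ) ≤ N := fun θ => (card_UU_le r D l H θ).trans hN
  set R : (Fin 2 → ℕ) → (Fin 2 → ℕ) → ℝ := fun θ θ' =>
    ∏ p ∈ T, (1 + cc p (res p (UU r D l H θ)) (res p (UU r D l H θ'))) with hR
  set R1 : (Fin 2 → ℕ) → (Fin 2 → ℕ) → ℝ := fun θ θ' =>
    ∏ p ∈ T1, (1 + cc p (res p (UU r D l H θ)) (res p (UU r D l H θ'))) with hR1
  have hcc0 : ∀ θ θ' p, p ∈ T → 0 ≤ 1 + cc p (res p (UU r D l H θ)) (res p (UU r D l H θ')) := by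
    intro θ θ' p hp
    exact one_add_cc_nonneg (hT p hp).pos (hTN p hp) ((card_res_le p _).trans (hUN θ))
      ((card_res_le p _).trans (hUN θ'))
  have hR10 : ∀ θ θ', 0 ≤ R1 θ θ' := fun θ θ' =>
    Finset.prod_nonneg fun p hp => hcc0 θ θ' p (hT1p p hp)
  have hσ0 : 0 ≤ σ := le_trans (Finset.sum_nonneg fun p _ => by positivity) hσ
  have hβ₁0 : 0 ≤ β₁ := le_trans (Finset.sum_nonneg fun p _ => by positivity) hβ₁
  have hβ₂0 : 0 ≤ β₂ := le_trans (Finset.sum_nonneg fun p _ => by positivity) hβ₂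
  have hY0 : 0 < Y := by omega
  have hsplit : ∀ θ ∈ box (Fin 2) M, ∀ θ' ∈ box (Fin 2) M, R θ θ' ≤
      R1 θ θ' * Real.exp (β₃ + 2 * (#(UU r D l H θ ∩ UU r D l H θ') * σ)) := by
    intro θ hθ θ' hθ'
    rw [hR, hR1]
    simp only
    rw [← Finset.prod_filter_mul_prod_filter_not T (fun p => p ≤ Y)]
    refine mul_le_mul_of_nonneg_left ?_ (hR10 θ θ')
    refine (prod_large_le T2 (fun p hp => hT p (hT2p p hp)) Y L hY0
      (fun p hp => not_le.mp (mem_filter.mp hp).2) _ _ N (hUN θ) (hUN θ')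
      (fun p hp => hTN p (hT2p p hp)) (hL θ hθ) (hL θ' hθ') σ ?_).trans ?_
    · refine le_trans ?_ hσ
      exact Finset.sum_le_sum_of_subset_of_nonneg (filter_subset _ _) fun p _ _ => by positivity
    · apply Real.exp_le_exp.mpr
      rw [mul_add]
      linarith
  -- classification of pairs
  have hpt : ∀ z ∈ (box (Fin 2) M) ×ˢ (box (Fin 2) M), R z.1 z.2 ≤ R1 z.1 z.2 * Real.exp β₃ +
      (if (UU r D l H z.1 ∩ UU r D l H z.2).Nonempty then
        Real.exp (4 * N * β₁ + β₃ + 2 * #H * σ) else 0) +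
      (if #H < #(UU r D l H z.1 ∩ UU r D l H z.2) then
        Real.exp (N * σ + (N : ℝ) ^ 2 * β₂) else 0) := by
    intro z hz
    rw [mem_product] at hz
    by_cases h2 : #H < #(UU r D l H z.1 ∩ UU r D l H z.2)
    · rw [if_pos h2]
      have h3 := prod_all_le T hT (UU r D l H z.1) (UU r D l H z.2) N (hUN _) (hUN _) hTN
      have h4 : R z.1 z.2 ≤ Real.exp (N * σ + (N : ℝ) ^ 2 * β₂) := by
        refine h3.trans (Real.exp_le_exp.mpr ?_)
        gcongr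
      have h5 : 0 ≤ R1 z.1 z.2 * Real.exp β₃ := mul_nonneg (hR10 _ _) (Real.exp_pos _).le
      have h6 : 0 ≤ (if (UU r D l H z.1 ∩ UU r D l H z.2).Nonempty then
        Real.exp (4 * N * β₁ + β₃ + 2 * #H * σ) else 0) := by split_ifs <;> positivity
      linarith
    · rw [if_neg h2, add_zero]
      have h3 := hsplit z.1 hz.1 z.2 hz.2
      by_cases h1 : (UU r D l H z.1 ∩ UU r D l H z.2).Nonempty
      · rw [if_pos h1]
        have h5 : 0 ≤ R1 z.1 z.2 * Real.exp β₃ := mul_nonneg (hR10 _ _) (Real.exp_pos _).le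
        have h6 : R1 z.1 z.2 ≤ Real.exp (4 * N * β₁) := by
          refine (prod_mid_le T1 (fun p hp => hT p (hT1p p hp)) _ _ N (hUN _) (hUN _)
            (fun p hp => hTN p (hT1p p hp))).trans (Real.exp_le_exp.mpr ?_)
          gcongr
        have h7 : R z.1 z.2 ≤ Real.exp (4 * N * β₁ + β₃ + 2 * #H * σ) := by
          refine h3.trans ?_
          rw [add_assoc, Real.exp_add (4 * N * β₁)]
          refine mul_le_mul h6 (Real.exp_le_exp.mpr ?_) (Real.exp_pos _).le (Real.exp_pos _).le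
          have h8 : (#(UU r D l H z.1 ∩ UU r D l H z.2) : ℝ) ≤ #H := by
            exact_mod_cast not_lt.mp h2
          have h9 := mul_le_mul_of_nonneg_right h8 hσ0
          linarith
        linarith
      · rw [if_neg h1, add_zero]
        rw [Finset.not_nonempty_iff_eq_empty] at h1
        rw [h1, card_empty, Nat.cast_zero, zero_mul, mul_zero, add_zero] at h3
        exact h3
  have hcard1 := card_meet_le r D l hD H M
  have hcard2 := card_meet_two_le r D l hD H M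
  have hmid := mid_total r D l H N hN T1 (fun p hp => hT p (hT1p p hp))
    (fun p hp => hTD p (hT1p p hp)) (fun p hp => hTN p (hT1p p hp)) M Y K hY2
    (fun p hp => (mem_filter.mp hp).2) (by
      have : T1 ⊆ Finset.Icc 1 Y := by
        intro p hp
        rw [mem_Icc]
        exact ⟨(hT p (hT1p p hp)).pos, (mem_filter.mp hp).2⟩
      simpa using card_le_card this) hM
  rw [← Finset.sum_product'] at hmid ⊢
  have hNN : (((l * #H : ℕ) : ℕ) : ℝ) ≤ N := by exact_mod_cast hN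
  calc ∑ z ∈ (box (Fin 2) M) ×ˢ (box (Fin 2) M), R z.1 z.2 ≤
        ∑ z ∈ (box (Fin 2) M) ×ˢ (box (Fin 2) M), (R1 z.1 z.2 * Real.exp β₃ +
          (if (UU r D l H z.1 ∩ UU r D l H z.2).Nonempty then
            Real.exp (4 * N * β₁ + β₃ + 2 * #H * σ) else 0) +
          (if #H < #(UU r D l H z.1 ∩ UU r D l H z.2) then
            Real.exp (N * σ + (N : ℝ) ^ 2 * β₂) else 0)) := Finset.sum_le_sum hpt
    _ = (∑ z ∈ (box (Fin 2) M) ×ˢ (box (Fin 2) M), R1 z.1 z.2) * Real.exp β₃ +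
        #(((box (Fin 2) M) ×ˢ (box (Fin 2) M)).filter
          (fun z => (UU r D l H z.1 ∩ UU r D l H z.2).Nonempty)) *
            Real.exp (4 * N * β₁ + β₃ + 2 * #H * σ) +
        #(((box (Fin 2) M) ×ˢ (box (Fin 2) M)).filter
          (fun z => #H < #(UU r D l H z.1 ∩ UU r D l H z.2))) *
            Real.exp (N * σ + (N : ℝ) ^ 2 * β₂) := by
        rw [Finset.sum_add_distrib, Finset.sum_add_distrib, Finset.sum_mul, ← Finset.sum_filter,
          ← Finset.sum_filter, Finset.sum_const, Finset.sum_const, nsmul_eq_mul, nsmul_eq_mul]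
    _ ≤ _ := by
        refine add_le_add (add_le_add ?_ ?_) ?_
        · refine mul_le_mul_of_nonneg_right ?_ (Real.exp_pos _).le
          refine hmid.trans ?_
          have h4 : ∑ p ∈ T1, 1 / (p : ℝ) ^ 2 ≤ β₂ := by
            refine le_trans ?_ hβ₂
            exact Finset.sum_le_sum_of_subset_of_nonneg (filter_subset _ _) fun p _ _ => by positivity
          have h5 : 0 ≤ ∑ p ∈ T1, 1 / (p : ℝ) ^ 2 := Finset.sum_nonneg fun p _ => by positivity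
          gcongr
        · refine mul_le_mul_of_nonneg_right ?_ (Real.exp_pos _).le
          calc ((#(((box (Fin 2) M) ×ˢ (box (Fin 2) M)).filter
              (fun z => (UU r D l H z.1 ∩ UU r D l H z.2).Nonempty)) : ℕ) : ℝ) ≤
                (((l * #H) ^ 2 * M ^ 3 : ℕ) : ℝ) := by exact_mod_cast hcard1
            _ = ((l * #H : ℕ) : ℝ) ^ 2 * (M : ℝ) ^ 3 := by push_cast; ring
            _ ≤ (N : ℝ) ^ 2 * (M : ℝ) ^ 3 := by gcongr
        · refine mul_le_mul_of_nonneg_right ?_ (Real.exp_pos _).le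
          calc ((#(((box (Fin 2) M) ×ˢ (box (Fin 2) M)).filter
              (fun z => #H < #(UU r D l H z.1 ∩ UU r D l H z.2))) : ℕ) : ℝ) ≤
                (((l * #H) ^ 4 * M ^ 2 : ℕ) : ℝ) := by exact_mod_cast hcard2
            _ = ((l * #H : ℕ) : ℝ) ^ 4 * (M : ℝ) ^ 2 := by push_cast; ring
            _ ≤ (N : ℝ) ^ 4 * (M : ℝ) ^ 2 := by gcongr

end Pool.Agent.H21.BFT
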