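import Pool.Agent.H21.BFT.LowB

/-!
Existence of long progressions up to `e^t` with probability `1 - O(t^{-2})`.
-/

set_option autoImplicit false

open Finset Pool.Agent.H90.BFT MeasureTheory Filter Topology

namespace Pool.Agent.H21.BFT

variable {Ω : Type*} [MeasurableSpace Ω] {P : Measure Ω} [IsProbabilityMeasure P] {a : ℕ → Ω → ℕ}

/-- the length for the lower bound -/
noncomputable def lenLow (H : Finset ℕ) (ε : ℝ) (t : ℕ) : ℕ :=
  ⌊2 / (#H : ℝ) * ((1 - ε) * (t / Real.log t))⌋₊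

theorem low_prob (h : Model P a) (H : Finset ℕ) (hne : H.Nonempty) (hH : Admissible H) (ε : ℝ)
    (hε : 0 < ε) (hε1 : ε ≤ 1) : ∀ᶠ t : ℕ in atTop,
    P {ω | ¬ HasAP (RS fun p => a p ω) H ⌊Real.exp t⌋₊ (lenLow H ε t)} ≤
      ENNReal.ofReal (28 / (t : ℝ) ^ 2) := by
  classical
  have hk0 : 0 < #H := hne.card_pos
  have hk : (1 : ℝ) ≤ #H := by exact_mod_cast hk0
  set hm : ℕ := H.sup id with hhm
  have hHm : ∀ x ∈ H, x ≤ hm := fun x hx => Finset.le_sup (f := id) hx
  filter_upwards [ev_log_ge 1000, ev_log_ge (2560 * Real.exp 2721 / (ε / 8)),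
    ev_log_ge (32 / (ε / 8 * ε)), ev_log_le (1 / 16) (by norm_num), ev_log_sq_le (1 / 100) (by norm_num),
    ev_log_le (0.005 / #H) (by positivity), ev_log_le (ε / 12) (by positivity), ev_ge (2 / (0.75 * ε)),
    ev_ge 11, ev_log_ge (16 / (ε / 8)), ev_log_ge (-2 * Real.log (ε / 16)),
    ev_log_le (0.3 * (ε / 8)) (by positivity), ev_ge hm, ev_ge (2 / (ε / 16))]
    with t g1 g2 g3 g4 g5 g6 g7 g8 g9 g10 g11 g12 g13 g14
  set lt := Real.log t with hlt
  have ht0 : (0 : ℝ) < t := by linarith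
  have ht1 : 1 ≤ t := by exact_mod_cast (by linarith : (1 : ℝ) ≤ t)
  have hlt0 : 0 < lt := by linarith
  set s := (t : ℝ) / lt with hs
  have hs0 : 0 < s := by positivity
  have hslt : s * lt = t := by rw [hs]; field_simp
  have hs1 : s ≤ t / 1000 := by
    rw [hs]
    apply div_le_div_of_nonneg_left ht0.le (by norm_num) g1
  have hs2 : 100 * lt ≤ s := by
    rw [hs, le_div_iff₀ hlt0]
    nlinarith
  set l := lenLow H ε t with hl
  set N := l * #H with hN
  have hlle : (l : ℝ) ≤ 2 / (#H : ℝ) * ((1 - ε) * s) := by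
    rw [hl]
    unfold lenLow
    apply Nat.floor_le
    have : 0 ≤ 1 - ε := by linarith
    positivity
  have hNle : (N : ℝ) ≤ 2 * (1 - ε) * s := by
    rw [hN]
    push_cast
    calc (l : ℝ) * #H ≤ 2 / (#H : ℝ) * ((1 - ε) * s) * #H := by gcongr
      _ = 2 * (1 - ε) * s := by field_simp
  have hN2 : (N : ℝ) ≤ 2 * s := by nlinarith
  have hlN : (l : ℝ) ≤ N := by
    rw [hN]; push_cast
    have : (0 : ℝ) ≤ l := Nat.cast_nonneg l
    nlinarith
  set w := ⌊ε / 8 * t⌋₊ with hw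
  set K := ⌊s / 40⌋₊ with hK
  set M := ⌊Real.exp ((1 - 2 * (ε / 8)) * t)⌋₊ with hM
  have g14' : 2 ≤ ε / 16 * t := by
    rw [div_le_iff₀ (by positivity)] at g14
    linarith
  have hwle : (w : ℝ) ≤ ε / 8 * t := Nat.floor_le (by positivity)
  have hwge : ε / 16 * t ≤ w := by
    have := Nat.lt_floor_add_one (ε / 8 * (t : ℝ))
    rw [← hw] at this
    linarith
  have hw2 : 2 ≤ w := by exact_mod_cast g14'.trans hwge
  have hw0 : (0 : ℝ) < w := by linarith
  have hwN : 4 * N ≤ w := by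
    have h1 : 8 * s ≤ ε / 16 * t := by
      rw [div_le_iff₀ (by positivity)] at g10
      rw [← hslt]
      nlinarith
    have h2 : (4 : ℝ) * N ≤ w := by linarith
    exact_mod_cast h2
  have hwt : w ≤ t := by
    have : (w : ℝ) ≤ t := by nlinarith
    exact_mod_cast this
  have hwY : w ≤ t ^ 5 := hwt.trans (Nat.le_self_pow (by norm_num) t)
  have hexpge : (2 : ℝ) ≤ Real.exp ((1 - 2 * (ε / 8)) * t) := by
    refine exp_two_le.trans (Real.exp_le_exp.mpr ?_)
    nlinarith
  have hMge : Real.exp ((1 - 2 * (ε / 8)) * t) / 2 ≤ M := by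
    have := Nat.lt_floor_add_one (Real.exp ((1 - 2 * (ε / 8)) * (t : ℝ)))
    rw [← hM] at this
    linarith
  have hMle : (M : ℝ) ≤ Real.exp ((1 - 2 * (ε / 8)) * t) := Nat.floor_le (Real.exp_pos _).le
  have hM0 : 0 < M := by
    have : (0 : ℝ) < M := by linarith
    exact_mod_cast this
  have hK1 : (K : ℝ) ≤ s / 40 := Nat.floor_le (by positivity)
  have hK2 : s / 80 ≤ K := by
    have := Nat.lt_floor_add_one (s / 40)
    rw [← hK] at this
    linarith
  have htexp : ∀ n : ℕ, (t : ℝ) ^ n = Real.exp (n * lt) := by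
    intro n
    rw [mul_comm, Real.exp_mul, hlt, Real.exp_log ht0, Real.rpow_natCast]
  have hYM : (t ^ 5) ^ K ≤ M := by
    rw [hM]
    apply Nat.le_floor
    push_cast
    rw [← pow_mul, htexp]
    apply Real.exp_le_exp.mpr
    push_cast
    have h1 : (K : ℝ) * lt ≤ t / 40 := by
      calc (K : ℝ) * lt ≤ s / 40 * lt := mul_le_mul_of_nonneg_right hK1 hlt0.le
        _ = t / 40 := by rw [div_mul_eq_mul_div, hslt]
    nlinarith
  -- size of the elements
  have hD : ((primorial w : ℕ) : ℝ) ≤ Real.exp (1.4 * (ε / 8) * t) := by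
    have h1 : ((primorial w : ℕ) : ℝ) ≤ (4 : ℝ) ^ w := by exact_mod_cast primorial_le_four_pow w
    refine h1.trans ?_
    rw [← Real.exp_log (show (0 : ℝ) < 4 by norm_num), ← Real.exp_nat_mul]
    apply Real.exp_le_exp.mpr
    have := log_four_le
    have h2 : 0 ≤ Real.log 4 := Real.log_nonneg (by norm_num)
    calc (w : ℝ) * Real.log 4 ≤ (ε / 8 * t) * 1.4 := mul_le_mul hwle this h2 (by positivity)
      _ = _ := by ring
  have hUle : ∀ r : ℕ, r ≤ 9 * primorial w → ∀ θ ∈ box (Fin 2) M, ∀ u ∈ UU r (primorial w) l H θ,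
      (u : ℝ) ≤ Real.exp t := by
    intro r hr θ hθ u hu
    have h1 := mem_UU_le (l := l) hr hθ hHm hu
    have h2 : (u : ℝ) ≤ (primorial w : ℕ) * M * (l + 10) + hm := by exact_mod_cast h1
    refine h2.trans ?_
    set E := Real.exp ((1 - 0.6 * (ε / 8)) * t) with hE
    have h3 : ((primorial w : ℕ) : ℝ) * M ≤ E := by
      calc ((primorial w : ℕ) : ℝ) * M ≤ Real.exp (1.4 * (ε / 8) * t) *
            Real.exp ((1 - 2 * (ε / 8)) * t) := by gcongr
        _ = E := by
            rw [← Real.exp_add, hE]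
            congr 1
            ring
    have h4 : (l : ℝ) + 10 ≤ t + 10 := by
      have : 2 * s ≤ t := by linarith
      linarith
    have h5 : (hm : ℝ) ≤ E := by
      have h6 : (t : ℝ) ≤ Real.exp (t / 2) := by
        have h7 := htexp 1
        rw [pow_one] at h7
        refine le_trans (le_of_eq h7) (Real.exp_le_exp.mpr ?_)
        push_cast
        linarith
      have h8 : Real.exp (t / 2) ≤ E := Real.exp_le_exp.mpr (by nlinarith)
      linarith
    have hE0 : 0 < E := Real.exp_pos _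
    calc ((primorial w : ℕ) : ℝ) * M * (l + 10) + hm ≤ E * (t + 10) + E := by
          refine add_le_add (mul_le_mul h3 h4 (by positivity) hE0.le) h5
      _ = (t + 11) * E := by ring
      _ ≤ (t : ℝ) ^ 2 * E := by
          refine mul_le_mul_of_nonneg_right ?_ hE0.le
          nlinarith
      _ = Real.exp ((2 : ℕ) * lt + (1 - 0.6 * (ε / 8)) * t) := by
          rw [htexp, hE, ← Real.exp_add]
      _ ≤ Real.exp t := by
          apply Real.exp_le_exp.mpr
          push_cast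
          linarith
  have hL : ∀ r : ℕ, r ≤ 9 * primorial w → ∀ θ ∈ box (Fin 2) M, ∀ u ∈ UU r (primorial w) l H θ,
      u < 2 ^ (2 * t) := by
    intro r hr θ hθ u hu
    have h1 := hUle r hr θ hθ u hu
    have h2 : Real.exp t < (2 : ℝ) ^ (2 * t) := by
      have h3 : Real.exp (t : ℝ) = Real.exp 1 ^ t := by rw [← Real.exp_nat_mul, mul_one]
      rw [h3, pow_mul]
      apply pow_lt_pow_left₀ _ (Real.exp_pos 1).le (by omega)
      have := Real.exp_one_lt_d9
      norm_num
      linarith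
    have h3 : (u : ℝ) < ((2 ^ (2 * t) : ℕ) : ℝ) := by
      push_cast
      linarith
    exact_mod_cast h3
  -- the three bounds
  have hlogw : lt / 2 ≤ Real.log w := by
    have h1 : Real.log (ε / 16 * t) ≤ Real.log w := Real.log_le_log (by positivity) hwge
    rw [Real.log_mul (by positivity) ht0.ne', ← hlt] at h1
    linarith
  have hlogw0 : 0 < Real.log w := by linarith
  have hβ₁ : Real.log (Real.log ((t ^ 5 : ℕ) : ℝ) / Real.log w) + 5 / Real.log w ≤ 4 := by
    have h1 : Real.log ((t ^ 5 : ℕ) : ℝ) = 5 * lt := by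
      push_cast
      rw [Real.log_pow]
      push_cast
      rfl
    rw [h1]
    have h2 : 5 * lt / Real.log w ≤ 10 := by
      rw [div_le_iff₀ hlogw0]
      linarith
    have h3 : Real.log (5 * lt / Real.log w) ≤ 3 := by
      have h4 : Real.log (5 * lt / Real.log w) ≤ Real.log 10 := Real.log_le_log (by positivity) h2
      refine h4.trans ?_
      rw [Real.log_le_iff_le_exp (by norm_num)]
      have h5 : Real.exp 3 = Real.exp 1 * Real.exp 1 * Real.exp 1 := by
        rw [← Real.exp_add, ← Real.exp_add]; norm_num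
      have h6 := Real.exp_one_gt_d9
      rw [h5]
      nlinarith
    have h4 : 5 / Real.log w ≤ 1 := by
      rw [div_le_iff₀ hlogw0]
      linarith
    linarith
  have hβ₂ : 1 / (w : ℝ) ≤ 2 / (ε / 8 * t) := by
    rw [div_le_div_iff₀ hw0 (by positivity)]
    linarith
  have hβ₃ : 2 * ((N : ℝ) ^ 2 * ((2 * t : ℕ) : ℝ) / ((t ^ 5 : ℕ) : ℝ)) ≤ 4 / (t : ℝ) ^ 2 := by
    have h1 : (N : ℝ) ^ 2 ≤ (t : ℝ) ^ 2 :=
      pow_le_pow_left₀ (Nat.cast_nonneg N) (by linarith) 2
    push_cast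
    rw [← mul_div_assoc, div_le_div_iff₀ (by positivity) (by positivity)]
    calc 2 * ((N : ℝ) ^ 2 * (2 * t)) * (t : ℝ) ^ 2 ≤ 2 * ((t : ℝ) ^ 2 * (2 * t)) * (t : ℝ) ^ 2 := by
          gcongr
      _ = 4 * (t : ℝ) ^ 5 := by ring
  have hnum := numeric (t : ℝ) #H N K M ε hε hε1 g1 g2 g3 g4 g5 ?_ ?_ ?_ (by linarith) hNle hK1 hK2 hMge
  rotate_left
  · have h1 : 2 * (#H : ℝ) * lt ≤ 2 * #H * (0.005 / #H * t) := by gcongr
    refine h1.trans (le_of_eq ?_)
    field_simp
    norm_num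
  · have h1 := g7
    change 6 * lt ≤ _
    linarith
  · rw [div_le_iff₀ (by positivity)] at g8
    linarith
  have hη : ∀ α : ℕ → ℕ, P.real {ω | ∀ θ ∈ box (Fin 2) M,
      ω ∉ {ω | ∀ p ∈ TT w t, a p ω ∉ (UU (rr H hH w α) (primorial w) l H θ).image (· % p)}} ≤
      28 / (t : ℝ) ^ 2 := by
    intro α
    obtain ⟨hr1, hr2, hr3⟩ := rr_spec H hH w α
    have h1 := fail_real h (rr H hH w α) w l H N le_rfl t (by linarith) hw2 hwN M (t ^ 5) K (2 * t) hM0
      hwY hYM (hL _ hr2) 4 (2 / (ε / 8 * t)) (4 / (t : ℝ) ^ 2) hβ₁ hβ₂ hβ₃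
    refine h1.trans ?_
    push_cast
    exact hnum
  have hfr := freeze h (Nat.primesLE w) (TT w t) (fun p hp => (mem_TT.mp hp).1) (by
      rw [Finset.disjoint_left]
      intro p hp hp'
      have h1 := (Nat.mem_primesLE.mp hp).1
      have h2 := (mem_TT.mp hp').2.1
      omega) (box (Fin 2) M)
    (fun α θ p => (UU (rr H hH w α) (primorial w) l H θ).image (· % p)) (28 / (t : ℝ) ^ 2) hη
  refine le_trans (measure_mono ?_) hfr
  intro ω hω
  rw [Set.mem_ofPred_eq] at hω ⊢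
  intro θ hθ hcon
  apply hω
  obtain ⟨hr1, hr2, hr3⟩ := rr_spec H hH w
    (ext (Nat.primesLE w) (fun i => a (i : Nat.Primes) ω))
  refine hasAP_of_success H w l M _ (fun p => a p ω) (fun p hp => h.lt p hp ω) t ?_ (TT w t)
    (fun p hp h1 h2 => mem_TT.mpr ⟨hp, h1, h2⟩) _ hr1 ?_ θ ?_ hcon
  · have h1 : ((⌊Real.exp (t : ℝ)⌋₊ : ℕ) : ℝ) ≤ Real.exp t := Nat.floor_le (Real.exp_pos _).le
    have h2 : (0 : ℝ) < ((⌊Real.exp (t : ℝ)⌋₊ : ℕ) : ℝ) := by
      have h3 : 1 ≤ ⌊Real.exp (t : ℝ)⌋₊ := by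
        apply Nat.le_floor
        push_cast
        exact Real.one_le_exp ht0.le
      exact_mod_cast h3
    rw [Real.log_le_iff_le_exp h2]
    exact h1
  · intro p hp hpw x hx
    have h1 := hr3 p hp hpw x hx
    rwa [ext_apply (Nat.primesLE w) a ω p hp (Nat.mem_primesLE.mpr ⟨hpw, hp⟩)] at h1
  · intro u hu
    apply Nat.le_floor
    exact hUle _ hr2 θ hθ u hu

end Pool.Agent.H21.BFT
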