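import Pool.Agent.H21.BFT.UpC
import Pool.Agent.H21.BFT.LowC

/-!
Borel-Cantelli and the limit.
-/

set_option autoImplicit false

open Finset Pool.Agent.H90.BFT MeasureTheory Filter Topology

namespace Pool.Agent.H21.BFT

/-- the largest length of a progression of `H`-tuples of elements of `A` up to `x` -/
noncomputable def longest (A : Set ℕ) (H : Finset ℕ) (x : ℕ) : ℕ := sSup {l | HasAP A H x l}

lemma HasAP.mono_left {A : Set ℕ} {H : Finset ℕ} {x l l' : ℕ} (h : HasAP A H x l) (hl : l' ≤ l) :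
    HasAP A H x l' := by
  obtain ⟨a, b, hb, h1⟩ := h
  exact ⟨a, b, hb, fun j hj => h1 j (by omega)⟩

lemma HasAP.mono_right {A : Set ℕ} {H : Finset ℕ} {x x' l : ℕ} (h : HasAP A H x l) (hx : x ≤ x') :
    HasAP A H x' l := by
  obtain ⟨a, b, hb, h1⟩ := h
  exact ⟨a, b, hb, fun j hj y hy => ⟨(h1 j hj y hy).1, (h1 j hj y hy).2.trans hx⟩⟩

lemma HasAP.le {A : Set ℕ} {H : Finset ℕ} (hne : H.Nonempty) {x l : ℕ} (h : HasAP A H x l) :
    l ≤ x + 1 := by
  obtain ⟨a, b, hb, h1⟩ := h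
  obtain ⟨y, hy⟩ := hne
  rcases Nat.eq_zero_or_pos l with rfl | hl
  · omega
  have h2 := (h1 (l - 1) (by omega) y hy).2
  have h3 : (l - 1) * 1 ≤ (l - 1) * b := Nat.mul_le_mul_left _ hb
  omega

lemma hasAP_zero (A : Set ℕ) (H : Finset ℕ) (x : ℕ) : HasAP A H x 0 :=
  ⟨0, 1, one_pos, fun j hj => absurd hj (Nat.not_lt_zero j)⟩

lemma hasAP_longest (A : Set ℕ) (H : Finset ℕ) (hne : H.Nonempty) (x : ℕ) :
    HasAP A H x (longest A H x) :=
  Nat.sSup_mem (s := {l | HasAP A H x l}) ⟨0, hasAP_zero A H x⟩ ⟨x + 1, fun _ hl => HasAP.le hne hl⟩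

lemma le_longest {A : Set ℕ} {H : Finset ℕ} (hne : H.Nonempty) {x l : ℕ} (h : HasAP A H x l) :
    l ≤ longest A H x :=
  le_csSup ⟨x + 1, fun _ hl => HasAP.le hne hl⟩ h

lemma longest_lt {A : Set ℕ} {H : Finset ℕ} (hne : H.Nonempty) {x l : ℕ} (h : ¬ HasAP A H x l) :
    longest A H x < l := by
  by_contra hcon
  exact h ((hasAP_longest A H hne x).mono_left (not_lt.mp hcon))

section ae

variable {Ω : Type*} [MeasurableSpace Ω] {P : Measure Ω} [IsProbabilityMeasure P] {a : ℕ → Ω → ℕ}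

omit [IsProbabilityMeasure P] in
lemma bc (E : ℕ → Set Ω) (C : ℝ) (hC : 0 ≤ C)
    (hE : ∀ᶠ t : ℕ in atTop, P (E t) ≤ ENNReal.ofReal (C / (t : ℝ) ^ 2)) :
    ∀ᵐ ω ∂P, ∀ᶠ t : ℕ in atTop, ω ∉ E t := by
  obtain ⟨t0, ht0⟩ := eventually_atTop.mp hE
  set s : ℕ → Set Ω := fun t => if t0 ≤ t then E t else ∅ with hs
  have hbound : ∀ t, P (s t) ≤ ENNReal.ofReal (C * (1 / (t : ℝ) ^ 2)) := by
    intro t
    simp only [hs]
    split_ifs with h
    · refine (ht0 t h).trans (le_of_eq ?_)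
      congr 1
      ring
    · simp
  have hsum : Summable (fun t : ℕ => C * (1 / (t : ℝ) ^ 2)) :=
    (Real.summable_one_div_nat_pow.mpr (by norm_num)).mul_left C
  have htop : ∑' t, P (s t) ≠ ⊤ := by
    refine ne_top_of_le_ne_top ?_ (ENNReal.tsum_le_tsum hbound)
    rw [← ENNReal.ofReal_tsum_of_nonneg (fun t => by positivity) hsum]
    exact ENNReal.ofReal_ne_top
  filter_upwards [ae_eventually_notMem htop] with ω hω
  filter_upwards [hω, eventually_ge_atTop t0] with t ht htt0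
  simp only [hs] at ht
  rwa [if_pos htt0] at ht

lemma ae_low (h : Model P a) (H : Finset ℕ) (hne : H.Nonempty) (hH : Admissible H) (n : ℕ) :
    ∀ᵐ ω ∂P, ∀ᶠ t : ℕ in atTop,
      HasAP (RS fun p => a p ω) H ⌊Real.exp t⌋₊ (lenLow H (1 / ((n : ℝ) + 1)) t) := by
  have h1 := bc (P := P) _ 28 (by norm_num) (low_prob h H hne hH (1 / ((n : ℝ) + 1)) (by positivity)
    (by rw [div_le_one (by positivity)]; linarith [(Nat.cast_nonneg n : (0 : ℝ) ≤ n)]))
  filter_upwards [h1] with ω hω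
  filter_upwards [hω] with t ht
  exact not_not.mp ht

lemma ae_up (h : Model P a) (H : Finset ℕ) (hne : H.Nonempty) (n : ℕ) :
    ∀ᵐ ω ∂P, ∀ᶠ t : ℕ in atTop,
      ¬ HasAP (RS fun p => a p ω) H ⌊Real.exp t⌋₊ (lenUp H (1 / ((n : ℝ) + 1)) t) := by
  have h1 := bc (P := P) _ 1 (by norm_num) (up_prob h H hne (1 / ((n : ℝ) + 1)) (by positivity)
    (by rw [div_le_one (by positivity)]; linarith [(Nat.cast_nonneg n : (0 : ℝ) ≤ n)]))
  filter_upwards [h1] with ω hω
  filter_upwards [hω] with t ht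
  exact ht

end ae

/-- the deterministic passage to the limit -/
lemma tendsto_of_bounds (A : Set ℕ) (H : Finset ℕ) (hne : H.Nonempty)
    (hlow : ∀ n : ℕ, ∀ᶠ t : ℕ in atTop, HasAP A H ⌊Real.exp t⌋₊ (lenLow H (1 / ((n : ℝ) + 1)) t))
    (hup : ∀ n : ℕ, ∀ᶠ t : ℕ in atTop, ¬ HasAP A H ⌊Real.exp t⌋₊ (lenUp H (1 / ((n : ℝ) + 1)) t)) :
    Tendsto (fun x : ℕ => (longest A H x : ℝ) * Real.log (Real.log x) / Real.log x) atTop
      (𝓝 (2 / (#H : ℝ))) := by
  have hk : (1 : ℝ) ≤ #H := by exact_mod_cast hne.card_pos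
  set k : ℝ := (#H : ℝ) with hkdef
  have hlogx : Tendsto (fun x : ℕ => Real.log (x : ℝ)) atTop atTop :=
    Real.tendsto_log_atTop.comp tendsto_natCast_atTop_atTop
  have hflo : Tendsto (fun x : ℕ => ⌊Real.log (x : ℝ)⌋₊) atTop atTop := tendsto_nat_floor_atTop.comp hlogx
  have hflo1 : Tendsto (fun x : ℕ => ⌊Real.log (x : ℝ)⌋₊ + 1) atTop atTop :=
    (tendsto_add_atTop_nat 1).comp hflo
  -- limits in `u = log x`
  have hinv : Tendsto (fun u : ℝ => 1 / u) atTop (𝓝 0) := by
    simpa using tendsto_inv_atTop_zero (𝕜 := ℝ)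
  have hlog : Tendsto (fun u : ℝ => Real.log u / u) atTop (𝓝 0) := by
    have := Real.isLittleO_log_id_atTop.tendsto_div_nhds_zero
    exact this
  rw [tendsto_order]
  constructor
  · intro b hb
    -- choose `n`
    have h1 : Tendsto (fun n : ℕ => 2 / k * (1 - 1 / ((n : ℝ) + 1))) atTop (𝓝 (2 / k * (1 - 0))) :=
      (tendsto_const_nhds.sub tendsto_one_div_add_atTop_nhds_zero_nat).const_mul _
    rw [sub_zero, mul_one] at h1
    obtain ⟨n, hn⟩ := ((tendsto_order.mp h1).1 b hb).exists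
    set ε : ℝ := 1 / ((n : ℝ) + 1) with hε
    have hε1 : ε ≤ 1 := by
      rw [hε, div_le_one (by positivity)]; linarith [(Nat.cast_nonneg n : (0 : ℝ) ≤ n)]
    have h2 : Tendsto (fun u : ℝ => 2 / k * (1 - ε) * (1 - 1 / u) - Real.log u / u) atTop
        (𝓝 (2 / k * (1 - ε) * (1 - 0) - 0)) :=
      ((tendsto_const_nhds.sub hinv).const_mul _).sub hlog
    rw [sub_zero, sub_zero, mul_one] at h2
    have h3 := hlogx.eventually ((tendsto_order.mp h2).1 b hn)
    filter_upwards [h3, hflo.eventually (hlow n), hlogx.eventually_ge_atTop 3,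
      eventually_ge_atTop 1] with x g1 g2 g3 g4
    set u := Real.log (x : ℝ) with hu
    set t := ⌊u⌋₊ with ht
    have hu0 : 0 < u := by linarith
    have htu : (t : ℝ) ≤ u := Nat.floor_le hu0.le
    have htu2 : u < t + 1 := Nat.lt_floor_add_one u
    have ht2 : (2 : ℝ) < t := by linarith
    have hlt0 : 0 < Real.log t := Real.log_pos (by linarith)
    have hlu0 : 0 < Real.log u := Real.log_pos (by linarith)
    have hx0 : (0 : ℝ) < x := by exact_mod_cast g4
    have hxt : ⌊Real.exp (t : ℝ)⌋₊ ≤ x := by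
      have h5 : ((⌊Real.exp (t : ℝ)⌋₊ : ℕ) : ℝ) ≤ Real.exp t := Nat.floor_le (Real.exp_pos _).le
      have h6 : Real.exp t ≤ x := by
        rw [← Real.exp_log hx0]
        exact Real.exp_le_exp.mpr htu
      exact_mod_cast h5.trans h6
    have h5 := le_longest hne (g2.mono_right hxt)
    have h6 : 2 / k * ((1 - ε) * (t / Real.log t)) - 1 ≤ (longest A H x : ℝ) := by
      have h7 : 2 / k * ((1 - ε) * (t / Real.log t)) < lenLow H ε t + 1 := Nat.lt_floor_add_one _
      have h8 : (lenLow H ε t : ℝ) ≤ longest A H x := (Nat.cast_le (α := ℝ)).mpr h5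
      linarith
    refine g1.trans_le ?_
    rw [le_div_iff₀ hu0]
    have h9 : (2 / k * (1 - ε) * (1 - 1 / u) - Real.log u / u) * u =
        2 / k * (1 - ε) * (u - 1) - Real.log u := by
      field_simp
    rw [h9]
    have h10 : 0 ≤ 2 / k * (1 - ε) := by
      have : 0 ≤ 1 - ε := by linarith
      positivity
    have h11 : 2 / k * (1 - ε) * (u - 1) ≤ 2 / k * ((1 - ε) * (t / Real.log t)) * Real.log u := by
      have h12 : (t : ℝ) ≤ t / Real.log t * Real.log u := by
        rw [div_mul_eq_mul_div, le_div_iff₀ hlt0]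
        exact mul_le_mul_of_nonneg_left (Real.log_le_log (by linarith) htu) (by linarith)
      calc 2 / k * (1 - ε) * (u - 1) ≤ 2 / k * (1 - ε) * (t / Real.log t * Real.log u) :=
            mul_le_mul_of_nonneg_left (by linarith) h10
        _ = _ := by ring
    calc 2 / k * (1 - ε) * (u - 1) - Real.log u ≤
          (2 / k * ((1 - ε) * (t / Real.log t)) - 1) * Real.log u := by
          rw [sub_mul, one_mul]; linarith
      _ ≤ _ := mul_le_mul_of_nonneg_right h6 hlu0.le
  · intro b hb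
    have h1 : Tendsto (fun n : ℕ => 2 / k * (1 + 1 / ((n : ℝ) + 1))) atTop (𝓝 (2 / k * (1 + 0))) :=
      (tendsto_const_nhds.add tendsto_one_div_add_atTop_nhds_zero_nat).const_mul _
    rw [add_zero, mul_one] at h1
    obtain ⟨n, hn⟩ := ((tendsto_order.mp h1).2 b hb).exists
    set ε : ℝ := 1 / ((n : ℝ) + 1) with hε
    have hε0 : 0 < ε := by rw [hε]; positivity
    have h2 : Tendsto (fun u : ℝ => 2 / k * (1 + ε) * (1 + 1 / u) + 2 * (Real.log u / u)) atTop
        (𝓝 (2 / k * (1 + ε) * (1 + 0) + 2 * 0)) :=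
      ((tendsto_const_nhds.add hinv).const_mul _).add (hlog.const_mul 2)
    rw [mul_zero, add_zero, add_zero, mul_one] at h2
    have h3 := hlogx.eventually ((tendsto_order.mp h2).2 b hn)
    filter_upwards [h3, hflo1.eventually (hup n), hlogx.eventually_ge_atTop 3,
      eventually_ge_atTop 1] with x g1 g2 g3 g4
    set u := Real.log (x : ℝ) with hu
    set t := ⌊u⌋₊ + 1 with ht
    have hu0 : 0 < u := by linarith
    have htu : (t : ℝ) ≤ u + 1 := by
      rw [ht]; push_cast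
      have := Nat.floor_le hu0.le
      linarith
    have htu2 : u < t := by
      rw [ht]; push_cast
      exact Nat.lt_floor_add_one u
    have hlu0 : 0 < Real.log u := Real.log_pos (by linarith)
    have hlt0 : 0 < Real.log t := Real.log_pos (by linarith)
    have hlogle : Real.log u ≤ Real.log t := Real.log_le_log hu0 htu2.le
    have hx0 : (0 : ℝ) < x := by exact_mod_cast g4
    have hxt : x ≤ ⌊Real.exp (t : ℝ)⌋₊ := by
      apply Nat.le_floor
      rw [← Real.exp_log hx0]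
      exact Real.exp_le_exp.mpr htu2.le
    have h5 := longest_lt hne (fun hcon => g2 (HasAP.mono_right hcon hxt))
    have h6 : (longest A H x : ℝ) ≤ 2 / k * ((1 + ε) * (t / Real.log t)) + 2 := by
      have h7 : ((⌊2 / k * ((1 + ε) * (t / Real.log t))⌋₊ : ℕ) : ℝ) ≤
          2 / k * ((1 + ε) * (t / Real.log t)) := Nat.floor_le (by positivity)
      have h8 : (longest A H x : ℝ) ≤ lenUp H ε t := (Nat.cast_le (α := ℝ)).mpr h5.le
      have h9 : (lenUp H ε t : ℝ) = ((⌊2 / k * ((1 + ε) * (t / Real.log t))⌋₊ : ℕ) : ℝ) + 2 := by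
        unfold lenUp
        push_cast
        rfl
      linarith
    refine lt_of_le_of_lt ?_ g1
    rw [div_le_iff₀ hu0]
    have h9 : (2 / k * (1 + ε) * (1 + 1 / u) + 2 * (Real.log u / u)) * u =
        2 / k * (1 + ε) * (u + 1) + 2 * Real.log u := by
      field_simp
    rw [h9]
    have h11 : 2 / k * ((1 + ε) * (t / Real.log t)) * Real.log u ≤ 2 / k * (1 + ε) * (u + 1) := by
      have h12 : t / Real.log t * Real.log u ≤ (t : ℝ) := by
        rw [div_mul_eq_mul_div, div_le_iff₀ hlt0]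
        exact mul_le_mul_of_nonneg_left hlogle (by linarith)
      calc 2 / k * ((1 + ε) * (t / Real.log t)) * Real.log u =
            2 / k * (1 + ε) * (t / Real.log t * Real.log u) := by ring
        _ ≤ 2 / k * (1 + ε) * (u + 1) := mul_le_mul_of_nonneg_left (by linarith) (by positivity)
    calc (longest A H x : ℝ) * Real.log u ≤
          (2 / k * ((1 + ε) * (t / Real.log t)) + 2) * Real.log u :=
          mul_le_mul_of_nonneg_right h6 hlu0.le
      _ ≤ _ := by rw [add_mul]; linarith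

end Pool.Agent.H21.BFT
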