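import Pool.Agent.H21.BFT.Crt

/-!
The pair correlation at one prime.
-/

set_option autoImplicit false

open Finset

namespace Pool.Agent.H21.BFT

/-- pair correlation minus one -/
noncomputable def cc (p : ℕ) (A A' : Finset (ZMod p)) : ℝ :=
  (1 - #(A ∪ A') / (p : ℝ)) / ((1 - #A / (p : ℝ)) * (1 - #A' / (p : ℝ))) - 1

section
variable {p : ℕ} (hp : 0 < p) {N : ℕ} (hN : 4 * N ≤ p) {A A' : Finset (ZMod p)} (hA : #A ≤ N)
  (hA' : #A' ≤ N)

include hp hN hA in
lemma frac_ge : (3 / 4 : ℝ) ≤ 1 - #A / (p : ℝ) := by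
  have hp' : (0 : ℝ) < p := by exact_mod_cast hp
  have h1 : (#A : ℝ) ≤ p / 4 := by
    have h2 : (4 : ℝ) * N ≤ p := by exact_mod_cast hN
    have h3 : (#A : ℝ) ≤ N := by exact_mod_cast hA
    linarith
  have h2 : #A / (p : ℝ) ≤ 1 / 4 := by
    rw [div_le_iff₀ hp']
    linarith
  linarith

include hp hN hA hA'

lemma cc_eq : cc p A A' = (#(A ∩ A') / (p : ℝ) - (#A / (p : ℝ)) * (#A' / (p : ℝ))) /
    ((1 - #A / (p : ℝ)) * (1 - #A' / (p : ℝ))) := by
  have h1 := frac_ge hp hN hA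
  have h2 := frac_ge hp hN hA'
  have hp' : (0 : ℝ) < p := by exact_mod_cast hp
  have h3 : 0 < (1 - #A / (p : ℝ)) * (1 - #A' / (p : ℝ)) := by nlinarith
  have h4 : (#(A ∪ A') : ℝ) + #(A ∩ A') = #A + #A' := by
    exact_mod_cast card_union_add_card_inter A A'
  have h5 : (#(A ∪ A') : ℝ) = #A + #A' - #(A ∩ A') := by linarith
  unfold cc
  rw [h5, eq_div_iff h3.ne', sub_mul, div_mul_cancel₀ _ h3.ne']
  field_simp
  ring

lemma denom_ge : (1 / 2 : ℝ) ≤ (1 - #A / (p : ℝ)) * (1 - #A' / (p : ℝ)) := by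
  have h1 := frac_ge hp hN hA
  have h2 := frac_ge hp hN hA'
  nlinarith

lemma abs_cc_le_inter : |cc p A A'| ≤
    2 * (#(A ∩ A') / (p : ℝ) + (#A / (p : ℝ)) * (#A' / (p : ℝ))) := by
  have h3 := denom_ge hp hN hA hA'
  rw [cc_eq hp hN hA hA', abs_div, abs_of_pos (a := (1 - #A / (p : ℝ)) * (1 - #A' / (p : ℝ))) (by linarith),
    div_le_iff₀ (by linarith)]
  have h4 : 0 ≤ #(A ∩ A') / (p : ℝ) := by positivity
  have h5 : 0 ≤ (#A / (p : ℝ)) * (#A' / (p : ℝ)) := by positivity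
  have h6 : |#(A ∩ A') / (p : ℝ) - (#A / (p : ℝ)) * (#A' / (p : ℝ))| ≤
      #(A ∩ A') / (p : ℝ) + (#A / (p : ℝ)) * (#A' / (p : ℝ)) := by
    rw [abs_le]; constructor <;> linarith
  have h7 : 0 ≤ (#(A ∩ A') / (p : ℝ) + (#A / (p : ℝ)) * (#A' / (p : ℝ))) := by linarith
  nlinarith

lemma abs_cc_le : |cc p A A'| ≤ 4 * N / p := by
  have hp' : (0 : ℝ) < p := by exact_mod_cast hp
  refine (abs_cc_le_inter hp hN hA hA').trans ?_
  have h1 : (#(A ∩ A') : ℝ) ≤ N := by exact_mod_cast (card_le_card inter_subset_left).trans hA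
  have h2 : (#A : ℝ) ≤ N := by exact_mod_cast hA
  have h3 : (#A' : ℝ) ≤ N := by exact_mod_cast hA'
  have h4 : #(A ∩ A') / (p : ℝ) ≤ N / p := by gcongr
  have h5 : #A / (p : ℝ) ≤ N / p := by gcongr
  have h6 : #A' / (p : ℝ) ≤ 1 := by
    have := frac_ge hp hN hA'
    linarith
  have h7 : 0 ≤ #A / (p : ℝ) := by positivity
  have h8 : 0 ≤ #A' / (p : ℝ) := by positivity
  have h9 : (#A / (p : ℝ)) * (#A' / (p : ℝ)) ≤ N / p := by
    calc (#A / (p : ℝ)) * (#A' / (p : ℝ)) ≤ (#A / (p : ℝ)) * 1 := mul_le_mul_of_nonneg_left h6 h7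
      _ ≤ _ := by linarith
  have e : (4 : ℝ) * N / p = 4 * (N / p) := by ring
  rw [e]
  linarith

lemma one_add_cc_nonneg : 0 ≤ 1 + cc p A A' := by
  have hp' : (0 : ℝ) < p := by exact_mod_cast hp
  have h := abs_cc_le hp hN hA hA'
  have h1 : 4 * (N : ℝ) / p ≤ 1 := by
    rw [div_le_one hp']
    exact_mod_cast hN
  have h2 := neg_abs_le (cc p A A')
  linarith

lemma one_add_cc_le : 1 + cc p A A' ≤ Real.exp (2 * (#(A ∩ A') / (p : ℝ))) := by
  have h3 := denom_ge hp hN hA hA'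
  have h4 : cc p A A' ≤ 2 * (#(A ∩ A') / (p : ℝ)) := by
    rw [cc_eq hp hN hA hA', div_le_iff₀ (by linarith)]
    have h4 : 0 ≤ #(A ∩ A') / (p : ℝ) := by positivity
    have h5 : 0 ≤ (#A / (p : ℝ)) * (#A' / (p : ℝ)) := by positivity
    nlinarith
  have h5 := Real.add_one_le_exp (2 * (#(A ∩ A') / (p : ℝ)))
  linarith

end

variable {κ : Type*} [Fintype κ] [DecidableEq κ]

/-- translation invariance of a family of sets -/
def Inv (p : ℕ) (A : (κ → ZMod p) → Finset (ZMod p)) : Prop :=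
  ∀ b : ZMod p, ∃ e : Equiv.Perm (κ → ZMod p), ∀ y a, a ∈ A (e y) ↔ a - b ∈ A y

omit [Fintype κ] [DecidableEq κ] in
lemma Inv.card_eq {p : ℕ} {A : (κ → ZMod p) → Finset (ZMod p)} {b : ZMod p}
    {e : Equiv.Perm (κ → ZMod p)} (he : ∀ y a, a ∈ A (e y) ↔ a - b ∈ A y) (y : κ → ZMod p) :
    #(A (e y)) = #(A y) := by
  have : A (e y) = (A y).map (Equiv.addRight b).toEmbedding := by
    ext a
    rw [he, mem_map_equiv]
    simp [sub_eq_add_neg]
  rw [this, card_map]

lemma sum_weight_const {p : ℕ} [NeZero p] {A : (κ → ZMod p) → Finset (ZMod p)} (hinv : Inv p A)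
    (f : ℕ → ℝ) (a : ZMod p) :
    (p : ℝ) * ∑ y, (if a ∈ A y then f #(A y) else 0) = ∑ y, #(A y) * f #(A y) := by
  have h1 : ∀ a b : ZMod p, ∑ y, (if a ∈ A y then f #(A y) else 0) =
      ∑ y, (if b ∈ A y then f #(A y) else 0) := by
    intro a b
    obtain ⟨e, he⟩ := hinv (a - b)
    rw [← Equiv.sum_comp e]
    refine Finset.sum_congr rfl fun y _ => ?_
    have h3 : a ∈ A (e y) ↔ b ∈ A y := by
      rw [he]; simp
    rw [Inv.card_eq he]
    by_cases h4 : b ∈ A y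
    · rw [if_pos h4, if_pos (h3.mpr h4)]
    · rw [if_neg h4, if_neg (fun h5 => h4 (h3.mp h5))]
  have h2 : ∑ b : ZMod p, ∑ y, (if b ∈ A y then f #(A y) else 0) = ∑ y, #(A y) * f #(A y) := by
    rw [Finset.sum_comm]
    refine Finset.sum_congr rfl fun y _ => ?_
    rw [← Finset.sum_filter, Finset.sum_const, nsmul_eq_mul]
    congr 2
    rw [Finset.filter_mem_eq_inter, Finset.univ_inter]
  rw [← h2, Finset.sum_congr rfl fun b _ => h1 b a, Finset.sum_const, Finset.card_univ, ZMod.card,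
    nsmul_eq_mul]

lemma sum_weight_const' {p : ℕ} [NeZero p] {A : (κ → ZMod p) → Finset (ZMod p)} (hinv : Inv p A)
    (f : ℕ → ℝ) (a : ZMod p) :
    (p : ℝ) * ∑ y, (if a ∈ A y then 0 else f #(A y)) = ∑ y, ((p : ℝ) - #(A y)) * f #(A y) := by
  have h := sum_weight_const hinv f a
  have h1 : ∑ y, (if a ∈ A y then 0 else f #(A y)) =
      ∑ y, f #(A y) - ∑ y, (if a ∈ A y then f #(A y) else 0) := by
    rw [← Finset.sum_sub_distrib]
    refine Finset.sum_congr rfl fun y _ => ?_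
    split_ifs <;> ring
  rw [h1, mul_sub, h, Finset.mul_sum, ← Finset.sum_sub_distrib]
  refine Finset.sum_congr rfl fun y _ => ?_
  ring

/-- sums over pairs -/
lemma sum_pairs {p : ℕ} [NeZero p] (F : (κ → ZMod p) → (κ → ZMod p) → ℝ) :
    ∑ x : κ ⊕ κ → ZMod p, F (fun i => x (Sum.inl i)) (fun i => x (Sum.inr i)) =
      ∑ y, ∑ y', F y y' := by
  rw [← Fintype.sum_prod_type']
  refine Fintype.sum_equiv (Equiv.sumArrowEquivProdArrow κ κ (ZMod p)) _ _ fun x => ?_
  rfl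

lemma sum_cc {p : ℕ} [NeZero p] {N : ℕ} (hN : 4 * N ≤ p) {A : (κ → ZMod p) → Finset (ZMod p)}
    (hA : ∀ y, #(A y) ≤ N) (hinv : Inv p A) :
    ∑ x : κ ⊕ κ → ZMod p, cc p (A fun i => x (Sum.inl i)) (A fun i => x (Sum.inr i)) = 0 := by
  have hp : 0 < p := Nat.pos_of_ne_zero (NeZero.ne p)
  have hp' : (0 : ℝ) < p := by exact_mod_cast hp
  rw [sum_pairs (fun y y' => cc p (A y) (A y'))]
  set f : ℕ → ℝ := fun h => (1 - h / (p : ℝ))⁻¹ with hf
  set X : ZMod p → (κ → ZMod p) → ℝ := fun a y => if a ∈ A y then 0 else f #(A y) with hX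
  have hS : ∀ a, ∑ y, X a y = (p : ℝ) ^ Fintype.card κ := by
    intro a
    have h1 := sum_weight_const' hinv f a
    have h2 : ∑ y, ((p : ℝ) - #(A y)) * f #(A y) = (p : ℝ) * (p : ℝ) ^ Fintype.card κ := by
      have h3 : ∀ y ∈ (univ : Finset (κ → ZMod p)), ((p : ℝ) - #(A y)) * f #(A y) = p := by
        intro y _
        have h4 := frac_ge hp hN (hA y)
        rw [hf]
        simp only
        have h5 : (p : ℝ) - #(A y) = p * (1 - #(A y) / (p : ℝ)) := by field_simp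
        rw [h5, mul_assoc, mul_inv_cancel₀ (by linarith), mul_one]
      rw [Finset.sum_congr rfl h3, Finset.sum_const, Finset.card_univ, Fintype.card_fun, ZMod.card,
        nsmul_eq_mul]
      push_cast
      ring
    rw [h2] at h1
    exact mul_left_cancel₀ hp'.ne' h1
  have hcc : ∀ y y', cc p (A y) (A y') = (1 / (p : ℝ)) * ∑ a, X a y * X a y' - 1 := by
    intro y y'
    unfold cc
    congr 1
    have h1 : ∑ a, X a y * X a y' = (f #(A y) * f #(A y')) * ((p : ℝ) - #(A y ∪ A y')) := by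
      have h2 : ∀ a, X a y * X a y' = if a ∈ A y ∪ A y' then 0 else f #(A y) * f #(A y') := by
        intro a
        simp only [hX, mem_union]
        by_cases h1 : a ∈ A y <;> by_cases h2 : a ∈ A y' <;> simp [h1, h2]
      rw [Finset.sum_congr rfl fun a _ => h2 a, ← Finset.sum_filter_add_sum_filter_not univ
        (fun a => a ∈ A y ∪ A y')]
      rw [Finset.sum_congr rfl (fun a ha => if_pos (mem_filter.mp ha).2),
        Finset.sum_congr rfl (g := fun _ => f #(A y) * f #(A y'))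
          (fun a ha => if_neg (mem_filter.mp ha).2)]
      rw [Finset.sum_const_zero, zero_add, Finset.sum_const, nsmul_eq_mul, mul_comm]
      congr 1
      have h3 : #(univ.filter fun a => ¬ a ∈ A y ∪ A y') + #(A y ∪ A y') = p := by
        have h4 := Finset.card_filter_add_card_filter_not (s := (univ : Finset (ZMod p)))
          (fun a => a ∈ A y ∪ A y')
        rw [Finset.card_univ, ZMod.card] at h4
        have h5 : univ.filter (fun a => a ∈ A y ∪ A y') = A y ∪ A y' := by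
          ext a; simp
        rw [h5] at h4
        omega
      have h4 : (#(univ.filter fun a => ¬ a ∈ A y ∪ A y') : ℝ) + #(A y ∪ A y') = p := by
        exact_mod_cast h3
      linarith
    rw [h1]
    simp only [hf]
    rw [← mul_inv, div_eq_mul_inv]
    field_simp
  have h1 : ∑ y, ∑ y', cc p (A y) (A y') =
      (1 / (p : ℝ)) * (∑ a, (∑ y, X a y) * ∑ y', X a y') - ∑ _y : κ → ZMod p, ∑ _y' : κ → ZMod p, (1 : ℝ) := by
    have h2 : ∀ a, (∑ y, X a y) * ∑ y', X a y' = ∑ y, ∑ y', X a y * X a y' := fun a =>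
      Finset.sum_mul_sum _ _ _ _
    rw [Finset.sum_congr rfl fun a _ => h2 a]
    have h3 : ∑ a, ∑ y, ∑ y', X a y * X a y' = ∑ y, ∑ y', ∑ a, X a y * X a y' := by
      rw [Finset.sum_comm]
      exact Finset.sum_congr rfl fun y _ => Finset.sum_comm
    rw [h3, Finset.mul_sum, ← Finset.sum_sub_distrib]
    refine Finset.sum_congr rfl fun y _ => ?_
    rw [Finset.mul_sum, ← Finset.sum_sub_distrib]
    refine Finset.sum_congr rfl fun y' _ => ?_
    exact hcc y y'
  rw [h1, Finset.sum_congr rfl fun a _ => by rw [hS a]]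
  simp only [Finset.sum_const, Finset.card_univ, ZMod.card, Fintype.card_fun, nsmul_eq_mul]
  push_cast
  field_simp
  ring

lemma sum_inter {p : ℕ} [NeZero p] {N : ℕ} {A : (κ → ZMod p) → Finset (ZMod p)}
    (hA : ∀ y, #(A y) ≤ N) (hinv : Inv p A) :
    (p : ℝ) * ∑ y, ∑ y', (#(A y ∩ A y') : ℝ) ≤ ((N : ℝ) * (p : ℝ) ^ Fintype.card κ) ^ 2 := by
  have hp : 0 < p := Nat.pos_of_ne_zero (NeZero.ne p)
  have hp' : (0 : ℝ) < p := by exact_mod_cast hp
  set n : ZMod p → ℝ := fun a => ∑ y, (if a ∈ A y then (1 : ℝ) else 0) with hn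
  have hn1 : ∀ a, (p : ℝ) * n a ≤ N * (p : ℝ) ^ Fintype.card κ := by
    intro a
    have h1 := sum_weight_const hinv (fun _ => 1) a
    rw [hn]
    simp only at h1 ⊢
    rw [h1]
    calc ∑ y, (#(A y) : ℝ) * 1 ≤ ∑ _y : κ → ZMod p, (N : ℝ) := by
          refine Finset.sum_le_sum fun y _ => ?_
          rw [mul_one]
          exact_mod_cast hA y
      _ = _ := by
          rw [Finset.sum_const, Finset.card_univ, Fintype.card_fun, ZMod.card, nsmul_eq_mul]
          push_cast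
          ring
  have hn0 : ∀ a, 0 ≤ n a := fun a => Finset.sum_nonneg fun y _ => by split_ifs <;> norm_num
  have h1 : ∑ y, ∑ y', (#(A y ∩ A y') : ℝ) = ∑ a, n a ^ 2 := by
    have h2 : ∀ y y', (#(A y ∩ A y') : ℝ) =
        ∑ a, (if a ∈ A y then (1 : ℝ) else 0) * (if a ∈ A y' then (1 : ℝ) else 0) := by
      intro y y'
      rw [Finset.card_eq_sum_ones]
      push_cast
      rw [← Finset.sum_filter_add_sum_filter_not univ (fun a => a ∈ A y ∩ A y')]
      have h3 : univ.filter (fun a => a ∈ A y ∩ A y') = A y ∩ A y' := by ext a; simp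
      rw [h3]
      have h4 : ∑ a with ¬ a ∈ A y ∩ A y', (if a ∈ A y then (1 : ℝ) else 0) *
          (if a ∈ A y' then (1 : ℝ) else 0) = 0 := by
        refine Finset.sum_eq_zero fun a ha => ?_
        rw [mem_filter, mem_inter, not_and_or] at ha
        rcases ha.2 with h | h
        · rw [if_neg h, zero_mul]
        · rw [if_neg h, mul_zero]
      rw [h4, add_zero]
      refine Finset.sum_congr rfl fun a ha => ?_
      rw [mem_inter] at ha
      rw [if_pos ha.1, if_pos ha.2, mul_one]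
    rw [Finset.sum_congr rfl fun y _ => Finset.sum_congr rfl fun y' _ => h2 y y']
    have h3 : ∀ y, ∑ y', ∑ a, (if a ∈ A y then (1 : ℝ) else 0) * (if a ∈ A y' then (1 : ℝ) else 0) =
        ∑ a, ∑ y', (if a ∈ A y then (1 : ℝ) else 0) * (if a ∈ A y' then (1 : ℝ) else 0) :=
      fun y => Finset.sum_comm
    rw [Finset.sum_congr rfl fun y _ => h3 y, Finset.sum_comm]
    refine Finset.sum_congr rfl fun a _ => ?_
    rw [sq, hn]
    simp only
    rw [Finset.sum_mul_sum]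
  rw [h1, Finset.mul_sum]
  have h2 : ∀ a ∈ (univ : Finset (ZMod p)), (p : ℝ) * n a ^ 2 ≤
      (N * (p : ℝ) ^ Fintype.card κ) ^ 2 / p := by
    intro a _
    rw [le_div_iff₀ hp']
    calc (p : ℝ) * n a ^ 2 * p = ((p : ℝ) * n a) ^ 2 := by ring
      _ ≤ _ := pow_le_pow_left₀ (mul_nonneg hp'.le (hn0 a)) (hn1 a) 2
  refine (Finset.sum_le_sum h2).trans (le_of_eq ?_)
  rw [Finset.sum_const, Finset.card_univ, ZMod.card, nsmul_eq_mul]
  field_simp

lemma sum_abs_cc {p : ℕ} [NeZero p] {N : ℕ} (hN : 4 * N ≤ p) {A : (κ → ZMod p) → Finset (ZMod p)}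
    (hA : ∀ y, #(A y) ≤ N) (hinv : Inv p A) :
    ∑ x : κ ⊕ κ → ZMod p, |cc p (A fun i => x (Sum.inl i)) (A fun i => x (Sum.inr i))| ≤
      (4 * (N : ℝ) ^ 2 / (p : ℝ) ^ 2) * (p : ℝ) ^ Fintype.card (κ ⊕ κ) := by
  have hp : 0 < p := Nat.pos_of_ne_zero (NeZero.ne p)
  have hp' : (0 : ℝ) < p := by exact_mod_cast hp
  rw [sum_pairs (fun y y' => |cc p (A y) (A y')|), Fintype.card_sum]
  have h1 : ∀ y y', |cc p (A y) (A y')| ≤ 2 / (p : ℝ) * #(A y ∩ A y') + 2 * ((N : ℝ) / p) ^ 2 := by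
    intro y y'
    refine (abs_cc_le_inter hp hN (hA y) (hA y')).trans ?_
    have h2 : (#(A y) : ℝ) / p ≤ N / p := by
      gcongr
      exact_mod_cast hA y
    have h3 : (#(A y') : ℝ) / p ≤ N / p := by
      gcongr
      exact_mod_cast hA y'
    have h4 : (#(A y) : ℝ) / p * (#(A y') / p) ≤ ((N : ℝ) / p) ^ 2 := by
      rw [sq]
      exact mul_le_mul h2 h3 (by positivity) (by positivity)
    have e : 2 / (p : ℝ) * #(A y ∩ A y') = 2 * (#(A y ∩ A y') / (p : ℝ)) := by ring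
    rw [e]
    linarith
  calc ∑ y, ∑ y', |cc p (A y) (A y')| ≤
        ∑ y : κ → ZMod p, ∑ y' : κ → ZMod p, (2 / (p : ℝ) * #(A y ∩ A y') + 2 * ((N : ℝ) / p) ^ 2) :=
        Finset.sum_le_sum fun y _ => Finset.sum_le_sum fun y' _ => h1 y y'
    _ = 2 / (p : ℝ) * ∑ y, ∑ y', (#(A y ∩ A y') : ℝ) +
        2 * ((N : ℝ) / p) ^ 2 * ((p : ℝ) ^ Fintype.card κ) ^ 2 := by
        simp only [Finset.sum_add_distrib, Finset.mul_sum, Finset.sum_const, Finset.card_univ,
          Fintype.card_fun, ZMod.card, nsmul_eq_mul]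
        push_cast
        ring
    _ ≤ 2 / (p : ℝ) ^ 2 * ((N : ℝ) * (p : ℝ) ^ Fintype.card κ) ^ 2 +
        2 * ((N : ℝ) / p) ^ 2 * ((p : ℝ) ^ Fintype.card κ) ^ 2 := by
        have h2 := sum_inter hA hinv
        have h3 : 2 / (p : ℝ) * ∑ y, ∑ y', (#(A y ∩ A y') : ℝ) =
            2 / (p : ℝ) ^ 2 * ((p : ℝ) * ∑ y, ∑ y', (#(A y ∩ A y') : ℝ)) := by
          field_simp
        rw [h3]
        have := mul_le_mul_of_nonneg_left h2 (show (0 : ℝ) ≤ 2 / (p : ℝ) ^ 2 by positivity)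
        linarith
    _ = _ := by
        rw [pow_add]
        field_simp
        ring

end Pool.Agent.H21.BFT
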