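import Pool.Agent.H21.BFT.Det
import Pool.Agent.H16.Vprod

/-!
Sums over primes, and the failure probability for given parameters.
-/

set_option autoImplicit false

open Finset Pool.Agent.H90.BFT MeasureTheory

namespace Pool.Agent.H21.BFT

lemma inv_le_neg_log {q : ℕ} (hq : 2 ≤ q) : 1 / (q : ℝ) ≤ - Real.log (1 - 1 / (q : ℝ)) := by
  have h := Real.log_le_sub_one_of_pos (one_sub_inv_pos hq)
  linarith

/-- the sum of the reciprocals of the active primes -/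
lemma sum_inv_le_log (T : Finset ℕ) (hT : ∀ p ∈ T, p.Prime) (t : ℝ) (ht : 1 ≤ t)
    (h : ∀ p ∈ T, (Th p)⁻¹ ≤ t) : ∑ p ∈ T, 1 / (p : ℝ) ≤ Real.log t := by
  rcases T.eq_empty_or_nonempty with rfl | hne
  · simpa using Real.log_nonneg ht
  set p0 := T.max' hne with hp0
  have hp0T : p0 ∈ T := T.max'_mem hne
  have h1 : ∑ p ∈ T, 1 / (p : ℝ) ≤ ∑ q ∈ Nat.primesLE p0, 1 / (q : ℝ) := by
    refine Finset.sum_le_sum_of_subset_of_nonneg ?_ fun _ _ _ => by positivity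
    intro p hp
    rw [Nat.mem_primesLE]
    exact ⟨T.le_max' p hp, hT p hp⟩
  have h2 : ∑ q ∈ Nat.primesLE p0, 1 / (q : ℝ) ≤ Real.log (Th p0)⁻¹ := by
    unfold Th
    rw [Real.log_inv, Real.log_prod (fun q hq => (one_sub_inv_pos (two_le_of_mem hq)).ne'),
      ← Finset.sum_neg_distrib]
    exact Finset.sum_le_sum fun q hq => inv_le_neg_log (two_le_of_mem hq)
  have h3 : Real.log (Th p0)⁻¹ ≤ Real.log t :=
    Real.log_le_log (inv_pos.mpr (Th_pos p0)) (h p0 hp0T)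
  linarith

lemma sum_inv_sq_le (T : Finset ℕ) (w : ℕ) (hw : 1 ≤ w) (h : ∀ p ∈ T, w < p) :
    ∑ p ∈ T, 1 / (p : ℝ) ^ 2 ≤ 1 / (w : ℝ) := by
  rcases T.eq_empty_or_nonempty with rfl | hne
  · simp
  refine le_trans ?_ (Pool.Agent.H16.sum_inv_sq_Ioc w (T.max' hne) hw)
  refine Finset.sum_le_sum_of_subset_of_nonneg ?_ fun _ _ _ => by positivity
  intro p hp
  rw [mem_Ioc]
  exact ⟨h p hp, T.le_max' p hp⟩

lemma sum_inv_mid_le (T : Finset ℕ) (hT : ∀ p ∈ T, p.Prime) (w Y : ℕ) (hw : 2 ≤ w) (hwY : w ≤ Y)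
    (h : ∀ p ∈ T, w < p) :
    ∑ p ∈ T with p ≤ Y, 1 / (p : ℝ) ≤ Real.log (Real.log Y / Real.log w) + 5 / Real.log w := by
  refine le_trans ?_ (Pool.Agent.H16.sum_inv_primes_le w Y hw hwY)
  refine Finset.sum_le_sum_of_subset_of_nonneg ?_ fun _ _ _ => by positivity
  intro p hp
  rw [mem_filter] at hp
  rw [Pool.Agent.H16.mem_primesIoc]
  exact ⟨h p hp.1, hp.2, hT p hp.1⟩

/-- the primes that matter -/
noncomputable def TT (w : ℕ) (t : ℝ) : Finset ℕ :=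
  (Nat.primesLE ⌊Real.exp t⌋₊).filter (fun p => w < p ∧ (Th p)⁻¹ ≤ t)

lemma mem_TT {w : ℕ} {t : ℝ} {p : ℕ} : p ∈ TT w t ↔ p.Prime ∧ w < p ∧ (Th p)⁻¹ ≤ t := by
  unfold TT
  rw [mem_filter, Nat.mem_primesLE]
  constructor
  · rintro ⟨⟨-, h1⟩, h2, h3⟩; exact ⟨h1, h2, h3⟩
  · rintro ⟨h1, h2, h3⟩
    refine ⟨⟨?_, h1⟩, h2, h3⟩
    apply Nat.le_floor
    have h4 := (log_le_Th_inv p h1.one_lt.le).trans h3
    have h5 : (0 : ℝ) < (p : ℝ) + 1 := by positivity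
    rw [Real.log_le_iff_le_exp h5] at h4
    linarith

variable {Ω : Type*} [MeasurableSpace Ω] {P : Measure Ω} [IsProbabilityMeasure P] {a : ℕ → Ω → ℕ}

/-- failure probability for a fixed class of the first term -/
lemma fail_real (h : Model P a) (r w l : ℕ) (H : Finset ℕ) (N : ℕ) (hN : l * #H ≤ N) (t : ℝ)
    (ht : 1 ≤ t) (hw : 2 ≤ w) (hwN : 4 * N ≤ w) (M Y K L : ℕ) (hM0 : 0 < M) (hwY : w ≤ Y) (hM : Y ^ K ≤ M)
    (hL : ∀ θ ∈ box (Fin 2) M, ∀ u ∈ UU r (primorial w) l H θ, u < 2 ^ L)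
    (β₁ β₂ β₃ : ℝ) (hβ₁ : Real.log (Real.log Y / Real.log w) + 5 / Real.log w ≤ β₁)
    (hβ₂ : 1 / (w : ℝ) ≤ β₂) (hβ₃ : 2 * ((N : ℝ) ^ 2 * L / Y) ≤ β₃) :
    P.real {ω | ∀ θ ∈ box (Fin 2) M,
      ω ∉ {ω | ∀ p ∈ TT w t, a p ω ∉ (UU r (primorial w) l H θ).image (· % p)}} ≤
    (1 + 4 * (Y : ℝ) ^ (2 * K) / M + 16 * Real.exp (4 * N * β₁) *
      ((4 * (N : ℝ) ^ 2 * β₂) ^ K / K.factorial)) * Real.exp β₃ +
    (N : ℝ) ^ 2 / M * Real.exp (4 * N * β₁ + β₃ + 2 * #H * Real.log t) +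
    (N : ℝ) ^ 4 / (M : ℝ) ^ 2 * Real.exp (N * Real.log t + (N : ℝ) ^ 2 * β₂) - 1 := by
  classical
  set T := TT w t with hT
  have hTp : ∀ p ∈ T, p.Prime := fun p hp => (mem_TT.mp hp).1
  have hTw : ∀ p ∈ T, w < p := fun p hp => (mem_TT.mp hp).2.1
  have hTt : ∀ p ∈ T, (Th p)⁻¹ ≤ t := fun p hp => (mem_TT.mp hp).2.2
  have hTD : ∀ p ∈ T, ¬ p ∣ primorial w := fun p hp hd =>
    absurd ((Nat.Prime.dvd_primorial_iff (hTp p hp)).mp hd) (not_le.mpr (hTw p hp))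
  have hTN : ∀ p ∈ T, 4 * N ≤ p := fun p hp => hwN.trans (hTw p hp).le
  have hUN : ∀ θ, #(UU r (primorial w) l H θ) ≤ N := fun θ => (card_UU_le _ _ l H θ).trans hN
  have hne : (box (Fin 2) M).Nonempty := by
    refine ⟨fun _ => 0, ?_⟩
    rw [Fintype.mem_piFinset]
    intro i
    exact mem_range.mpr hM0
  have h1 := model_second h T hTp (box (Fin 2) M) hne
    (fun θ p => (UU r (primorial w) l H θ).image (· % p))
    (fun θ _ p hp => by
      intro c hc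
      rw [mem_image] at hc
      obtain ⟨u, _, rfl⟩ := hc
      exact mem_range.mpr (Nat.mod_lt _ (hTp p hp).pos))
    (fun θ _ p hp => by
      have h2 : #((UU r (primorial w) l H θ).image (· % p)) ≤ N := card_image_le.trans (hUN θ)
      have h3 := hTN p hp
      have h4 := (hTp p hp).two_le
      omega)
  refine h1.trans ?_
  have hcardΘ : (#(box (Fin 2) M) : ℝ) ^ 2 = (M : ℝ) ^ 4 := by
    rw [card_box]
    simp only [Fintype.card_fin]
    push_cast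
    ring
  have hM' : (0 : ℝ) < M := by exact_mod_cast hM0
  have h2 : ∑ θ ∈ box (Fin 2) M, ∑ θ' ∈ box (Fin 2) M, ∏ p ∈ T,
      ((1 - #((UU r (primorial w) l H θ).image (· % p) ∪ (UU r (primorial w) l H θ').image (· % p)) /
        (p : ℝ)) / ((1 - #((UU r (primorial w) l H θ).image (· % p)) / (p : ℝ)) *
        (1 - #((UU r (primorial w) l H θ').image (· % p)) / (p : ℝ)))) =
      ∑ θ ∈ box (Fin 2) M, ∑ θ' ∈ box (Fin 2) M, ∏ p ∈ T,
        (1 + cc p (res p (UU r (primorial w) l H θ)) (res p (UU r (primorial w) l H θ'))) := by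
    refine Finset.sum_congr rfl fun θ _ => Finset.sum_congr rfl fun θ' _ =>
      Finset.prod_congr rfl fun p hp => ?_
    have hp0 := (hTp p hp).pos
    unfold cc
    rw [add_sub_cancel, ← Finset.image_union, card_mod_eq hp0, card_mod_eq hp0, card_mod_eq hp0,
      res_union]
  rw [h2, hcardΘ]
  have h3 := pair_total r (primorial w) l (primorial_pos w) H N hN T hTp hTD hTN M Y K L
    (by omega) hM hL (Real.log t) β₁ β₂ β₃ (sum_inv_le_log T hTp t ht hTt)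
    ((sum_inv_mid_le T hTp w Y hw hwY hTw).trans hβ₁)
    ((sum_inv_sq_le T w (by omega) hTw).trans hβ₂) hβ₃
  rw [sub_le_sub_iff_right, div_le_iff₀ (by positivity)]
  refine h3.trans (le_of_eq ?_)
  field_simp

end Pool.Agent.H21.BFT
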