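import Pool.Agent.H21.BFT.LowA

/-!
Existence of long progressions: choice of the parameters.
-/

set_option autoImplicit false

open Finset Pool.Agent.H90.BFT MeasureTheory Filter Topology

namespace Pool.Agent.H21.BFT

lemma ev_log_ge (A : ℝ) : ∀ᶠ t : ℕ in atTop, A ≤ Real.log t :=
  (Real.tendsto_log_atTop.comp tendsto_natCast_atTop_atTop).eventually_ge_atTop A

lemma ev_log_le (η : ℝ) (hη : 0 < η) : ∀ᶠ t : ℕ in atTop, Real.log t ≤ η * t := by
  have h := (Real.isLittleO_log_id_atTop.def hη)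
  have h2 := tendsto_natCast_atTop_atTop.eventually (f := fun t : ℕ => (t : ℝ)) h
  filter_upwards [h2] with t ht
  simp only [id, Real.norm_eq_abs, Nat.abs_cast] at ht
  exact (le_abs_self _).trans ht

lemma ev_log_sq_le (η : ℝ) (hη : 0 < η) : ∀ᶠ t : ℕ in atTop, Real.log t ^ 2 ≤ η * t := by
  have h := ((Real.isLittleO_pow_log_id_atTop (n := 2)).def hη)
  have h2 := tendsto_natCast_atTop_atTop.eventually (f := fun t : ℕ => (t : ℝ)) h
  filter_upwards [h2] with t ht
  simp only [id, Real.norm_eq_abs, Nat.abs_cast] at ht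
  exact (le_abs_self _).trans ht

lemma ev_ge (A : ℝ) : ∀ᶠ t : ℕ in atTop, A ≤ (t : ℝ) :=
  tendsto_natCast_atTop_atTop.eventually_ge_atTop A

lemma exp_two_le : (2 : ℝ) ≤ Real.exp 1 := by have := Real.exp_one_gt_d9; linarith

lemma exp_le_four : Real.exp 1 ≤ 4 := by have := Real.exp_one_lt_d9; linarith

lemma log_four_le : Real.log 4 ≤ 1.4 := by
  have : (4 : ℝ) = 2 ^ 2 := by norm_num
  rw [this, Real.log_pow]
  have := Real.log_two_lt_d9
  push_cast
  linarith

/-- the numerical estimate -/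
lemma numeric (t : ℝ) (k N K M : ℕ) (ε : ℝ) (hε : 0 < ε) (hε1 : ε ≤ 1)
    (h1 : 1000 ≤ Real.log t) (h2 : 2560 * Real.exp 2721 / (ε / 8) ≤ Real.log t)
    (h3 : 32 / (ε / 8 * ε) ≤ Real.log t) (h4 : Real.log t ≤ (1 / 16) * t)
    (h5 : Real.log t ^ 2 ≤ (1 / 100) * t) (h6 : 2 * k * Real.log t ≤ 0.01 * t)
    (h7 : 6 * Real.log t ≤ ε * t / 2) (h8 : 2 ≤ 0.75 * ε * t) (h9 : 8 ≤ t)
    (hN : (N : ℝ) ≤ 2 * (1 - ε) * (t / Real.log t)) (hK1 : (K : ℝ) ≤ t / Real.log t / 40)
    (hK2 : t / Real.log t / 80 ≤ K) (hM : Real.exp ((1 - 2 * (ε / 8)) * t) / 2 ≤ M) :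
    (1 + 4 * (t ^ 5) ^ (2 * K) / M + 16 * Real.exp (4 * N * 4) *
      ((4 * (N : ℝ) ^ 2 * (2 / (ε / 8 * t))) ^ K / K.factorial)) * Real.exp (4 / t ^ 2) +
    (N : ℝ) ^ 2 / M * Real.exp (4 * N * 4 + 4 / t ^ 2 + 2 * k * Real.log t) +
    (N : ℝ) ^ 4 / (M : ℝ) ^ 2 * Real.exp (N * Real.log t + (N : ℝ) ^ 2 * (2 / (ε / 8 * t))) - 1 ≤
      28 / t ^ 2 := by
  set lt := Real.log t with hlt
  have ht0 : 0 < t := by linarith
  have hlt0 : 0 < lt := by linarith
  have hN0 : (0 : ℝ) ≤ N := Nat.cast_nonneg N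
  have hK0 : (0 : ℝ) ≤ K := Nat.cast_nonneg K
  set s := t / lt with hs
  have hs0 : 0 < s := by positivity
  have hslt : s * lt = t := by rw [hs]; field_simp
  have hs1 : s ≤ t / 1000 := by
    rw [hs]
    apply div_le_div_of_nonneg_left ht0.le (by norm_num) h1
  have hs2 : 100 * lt ≤ s := by
    rw [hs, le_div_iff₀ hlt0]
    nlinarith
  have hN2 : (N : ℝ) ≤ 2 * s := by nlinarith
  have hNt : (N : ℝ) ≤ t := by linarith
  have hsq : (1 : ℝ) / t ^ 2 = Real.exp (-(2 * lt)) := by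
    rw [Real.exp_neg, one_div]
    congr 1
    rw [mul_comm, Real.exp_mul, hlt, Real.exp_log ht0]
    norm_cast
  have htpow : ∀ n : ℕ, t ^ n = Real.exp (n * lt) := by
    intro n
    rw [mul_comm, Real.exp_mul, hlt, Real.exp_log ht0, Real.rpow_natCast]
  have hM0 : (0 : ℝ) < M := lt_of_lt_of_le (by positivity) hM
  have hMinv : 1 / (M : ℝ) ≤ Real.exp (1 - (1 - 2 * (ε / 8)) * t) := by
    have h10 : (M : ℝ)⁻¹ ≤ (Real.exp ((1 - 2 * (ε / 8)) * t) / 2)⁻¹ := inv_anti₀ (by positivity) hM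
    rw [one_div]
    refine h10.trans ?_
    rw [inv_div, Real.exp_sub]
    exact div_le_div_of_nonneg_right exp_two_le (Real.exp_pos _).le
  have hb : 3 / 4 * t ≤ (1 - 2 * (ε / 8)) * t := by nlinarith
  -- (b)
  have hB : 4 * (t ^ 5) ^ (2 * K) / M ≤ 1 / t ^ 2 := by
    rw [← pow_mul, htpow, hsq]
    have e1 : ((5 * (2 * K) : ℕ) : ℝ) * lt ≤ t / 4 := by
      push_cast
      have : (K : ℝ) * lt ≤ t / 40 := by
        calc (K : ℝ) * lt ≤ s / 40 * lt := mul_le_mul_of_nonneg_right hK1 hlt0.le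
          _ = t / 40 := by rw [div_mul_eq_mul_div, hslt]
      linarith
    calc 4 * Real.exp (((5 * (2 * K) : ℕ) : ℝ) * lt) / M =
          4 * Real.exp (((5 * (2 * K) : ℕ) : ℝ) * lt) * (1 / M) := by ring
      _ ≤ (Real.exp 1 * Real.exp 1) * Real.exp (t / 4) * Real.exp (1 - (1 - 2 * (ε / 8)) * t) := by
          have h11 : (4 : ℝ) ≤ Real.exp 1 * Real.exp 1 := by nlinarith [exp_two_le]
          gcongr
      _ = Real.exp (1 + 1 + t / 4 + (1 - (1 - 2 * (ε / 8)) * t)) := by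
          rw [← Real.exp_add, ← Real.exp_add, ← Real.exp_add]
      _ ≤ _ := by
          apply Real.exp_le_exp.mpr
          linarith
  -- (c)
  have hC : 16 * Real.exp (4 * N * 4) * ((4 * (N : ℝ) ^ 2 * (2 / (ε / 8 * t))) ^ K / K.factorial) ≤
      1 / t ^ 2 := by
    have hKpos : (0 : ℝ) < K := by
      have : 0 < s / 80 := by positivity
      linarith
    have e1 : 4 * (N : ℝ) ^ 2 * (2 / (ε / 8 * t)) ≤ K * Real.exp (-2721) := by
      have e2 : (N : ℝ) ^ 2 ≤ 4 * s ^ 2 := by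
        calc (N : ℝ) ^ 2 ≤ (2 * s) ^ 2 := pow_le_pow_left₀ hN0 hN2 2
          _ = 4 * s ^ 2 := by ring
      have e3 : 4 * (N : ℝ) ^ 2 * (2 / (ε / 8 * t)) ≤ 32 * s / (ε / 8 * lt) := by
        calc 4 * (N : ℝ) ^ 2 * (2 / (ε / 8 * t)) ≤ 4 * (4 * s ^ 2) * (2 / (ε / 8 * t)) := by gcongr
          _ = 32 * s / (ε / 8 * lt) := by
              rw [← hslt]
              field_simp
              ring
      refine e3.trans ?_
      have e4 : 32 * s / (ε / 8 * lt) ≤ s / 80 * Real.exp (-2721) := by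
        rw [div_le_iff₀ (by positivity)]
        rw [div_le_iff₀ (by positivity)] at h2
        have e5 : s / 80 * Real.exp (-2721) * (2560 * Real.exp 2721) ≤
            s / 80 * Real.exp (-2721) * (lt * (ε / 8)) := by gcongr
        have e6 : Real.exp (-2721) * Real.exp 2721 = 1 := by
          rw [← Real.exp_add]; norm_num
        have e7 : s / 80 * Real.exp (-2721) * (2560 * Real.exp 2721) = 32 * s := by
          calc s / 80 * Real.exp (-2721) * (2560 * Real.exp 2721) =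
                32 * s * (Real.exp (-2721) * Real.exp 2721) := by ring
            _ = 32 * s := by rw [e6, mul_one]
        rw [e7] at e5
        calc 32 * s ≤ s / 80 * Real.exp (-2721) * (lt * (ε / 8)) := e5
          _ = _ := by ring
      exact e4.trans (mul_le_mul_of_nonneg_right hK2 (Real.exp_pos _).le)
    have e2 : (4 * (N : ℝ) ^ 2 * (2 / (ε / 8 * t))) ^ K / K.factorial ≤ Real.exp (-2720 * K) := by
      calc (4 * (N : ℝ) ^ 2 * (2 / (ε / 8 * t))) ^ K / K.factorial ≤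
            (K * Real.exp (-2721)) ^ K / K.factorial := by
            gcongr
        _ = (K : ℝ) ^ K / K.factorial * Real.exp (-2721) ^ K := by rw [mul_pow]; ring
        _ ≤ Real.exp K * Real.exp (-2721) ^ K := by
            gcongr
            exact Real.pow_div_factorial_le_exp (x := (K : ℝ)) hK0 K
        _ = _ := by
            rw [← Real.exp_nat_mul, ← Real.exp_add]
            congr 1
            ring
    calc 16 * Real.exp (4 * N * 4) * ((4 * (N : ℝ) ^ 2 * (2 / (ε / 8 * t))) ^ K / K.factorial) ≤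
          (Real.exp 1 * Real.exp 1 * Real.exp 1 * Real.exp 1) * Real.exp (32 * s) *
            Real.exp (-34 * s) := by
          have h11 : (4 : ℝ) ≤ Real.exp 1 * Real.exp 1 := by nlinarith [exp_two_le]
          have h12 : (16 : ℝ) ≤ Real.exp 1 * Real.exp 1 * Real.exp 1 * Real.exp 1 := by
            nlinarith [exp_two_le]
          refine mul_le_mul (mul_le_mul h12 (Real.exp_le_exp.mpr (by linarith)) (Real.exp_pos _).le
            (by positivity)) (e2.trans (Real.exp_le_exp.mpr (by linarith))) (by positivity) (by positivity)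
      _ = Real.exp (4 - 2 * s) := by
          rw [← Real.exp_add, ← Real.exp_add, ← Real.exp_add, ← Real.exp_add, ← Real.exp_add]
          congr 1
          ring
      _ ≤ _ := by
          rw [hsq]
          apply Real.exp_le_exp.mpr
          linarith
  have hβ : 4 / t ^ 2 ≤ 1 / 2 := by
    rw [div_le_iff₀ (by positivity)]
    nlinarith
  -- (d)
  have hD : (N : ℝ) ^ 2 / M * Real.exp (4 * N * 4 + 4 / t ^ 2 + 2 * k * lt) ≤ 1 / t ^ 2 := by
    calc (N : ℝ) ^ 2 / M * Real.exp (4 * N * 4 + 4 / t ^ 2 + 2 * k * lt) =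
          (N : ℝ) ^ 2 * (1 / M) * Real.exp (4 * N * 4 + 4 / t ^ 2 + 2 * k * lt) := by ring
      _ ≤ t ^ 2 * Real.exp (1 - (1 - 2 * (ε / 8)) * t) * Real.exp (0.032 * t + 1 / 2 + 0.01 * t) := by
          have h10 : (N : ℝ) ^ 2 ≤ t ^ 2 := pow_le_pow_left₀ hN0 hNt 2
          refine mul_le_mul (mul_le_mul h10 hMinv (by positivity) (by positivity))
            (Real.exp_le_exp.mpr ?_) (Real.exp_pos _).le (by positivity)
          linarith
      _ = Real.exp ((2 : ℕ) * lt + (1 - (1 - 2 * (ε / 8)) * t) + (0.032 * t + 1 / 2 + 0.01 * t)) := by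
          rw [htpow, ← Real.exp_add, ← Real.exp_add]
      _ ≤ _ := by
          rw [hsq]
          apply Real.exp_le_exp.mpr
          push_cast
          linarith
  -- (e)
  have hE : (N : ℝ) ^ 4 / (M : ℝ) ^ 2 * Real.exp (N * lt + (N : ℝ) ^ 2 * (2 / (ε / 8 * t))) ≤
      1 / t ^ 2 := by
    have e1 : (N : ℝ) * lt ≤ 2 * (1 - ε) * t := by
      calc (N : ℝ) * lt ≤ 2 * (1 - ε) * s * lt := mul_le_mul_of_nonneg_right hN hlt0.le
        _ = 2 * (1 - ε) * t := by rw [mul_assoc, hslt]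
    have e2 : (N : ℝ) ^ 2 * (2 / (ε / 8 * t)) ≤ ε / 4 * t := by
      have e3 : (N : ℝ) ^ 2 ≤ 4 * s ^ 2 := by
        calc (N : ℝ) ^ 2 ≤ (2 * s) ^ 2 := pow_le_pow_left₀ hN0 hN2 2
          _ = 4 * s ^ 2 := by ring
      have e4 : (N : ℝ) ^ 2 * (2 / (ε / 8 * t)) ≤ 8 * s / (ε / 8 * lt) := by
        calc (N : ℝ) ^ 2 * (2 / (ε / 8 * t)) ≤ (4 * s ^ 2) * (2 / (ε / 8 * t)) := by gcongr
          _ = 8 * s / (ε / 8 * lt) := by
              rw [← hslt]
              field_simp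
              ring
      refine e4.trans ?_
      rw [div_le_iff₀ (by positivity)] at h3 ⊢
      have e5 : 8 * s ≤ 8 * t := by linarith
      calc 8 * s ≤ 8 * t := e5
        _ = t / 4 * 32 := by ring
        _ ≤ t / 4 * (lt * (ε / 8 * ε)) := by gcongr
        _ = _ := by ring
    have hMinv2 : 1 / (M : ℝ) ^ 2 ≤ Real.exp (2 - 2 * ((1 - 2 * (ε / 8)) * t)) := by
      have e3 : 1 / (M : ℝ) ^ 2 = (1 / M) ^ 2 := by ring
      rw [e3]
      refine (pow_le_pow_left₀ (by positivity) hMinv 2).trans (le_of_eq ?_)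
      rw [← Real.exp_nat_mul]
      congr 1
      push_cast
      ring
    calc (N : ℝ) ^ 4 / (M : ℝ) ^ 2 * Real.exp (N * lt + (N : ℝ) ^ 2 * (2 / (ε / 8 * t))) =
          (N : ℝ) ^ 4 * (1 / (M : ℝ) ^ 2) * Real.exp (N * lt + (N : ℝ) ^ 2 * (2 / (ε / 8 * t))) := by ring
      _ ≤ t ^ 4 * Real.exp (2 - 2 * ((1 - 2 * (ε / 8)) * t)) * Real.exp (2 * (1 - ε) * t + ε / 4 * t) := by
          have h10 : (N : ℝ) ^ 4 ≤ t ^ 4 := pow_le_pow_left₀ hN0 hNt 4
          refine mul_le_mul (mul_le_mul h10 hMinv2 (by positivity) (by positivity))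
            (Real.exp_le_exp.mpr ?_) (Real.exp_pos _).le (by positivity)
          linarith
      _ = Real.exp ((4 : ℕ) * lt + (2 - 2 * ((1 - 2 * (ε / 8)) * t)) + (2 * (1 - ε) * t + ε / 4 * t)) := by
          rw [htpow, ← Real.exp_add, ← Real.exp_add]
      _ ≤ _ := by
          rw [hsq]
          apply Real.exp_le_exp.mpr
          push_cast
          nlinarith
  have hexp : Real.exp (4 / t ^ 2) ≤ 1 + 8 / t ^ 2 := by
    have h10 : 0 ≤ 4 / t ^ 2 := by positivity
    have h11 := Real.one_sub_le_exp_neg (4 / t ^ 2)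
    rw [Real.exp_neg] at h11
    have h12 : 0 < 1 - 4 / t ^ 2 := by linarith
    have h13 : Real.exp (4 / t ^ 2) ≤ (1 - 4 / t ^ 2)⁻¹ := by
      rw [le_inv_comm₀ (Real.exp_pos _) h12]
      exact h11
    refine h13.trans ?_
    rw [inv_le_iff_one_le_mul₀ h12]
    have e : 8 / t ^ 2 = 2 * (4 / t ^ 2) := by ring
    rw [e]
    nlinarith
  set z := 1 / t ^ 2 with hz
  have hz0 : 0 < z := by positivity
  have hz1 : z ≤ 1 / 8 := by
    have : 4 / t ^ 2 = 4 * z := by rw [hz]; ring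
    rw [this] at hβ
    linarith
  have e8 : 8 / t ^ 2 = 8 * z := by rw [hz]; ring
  have e28 : 28 / t ^ 2 = 28 * z := by rw [hz]; ring
  rw [e8] at hexp
  rw [e28]
  have hfirst : (1 + 4 * (t ^ 5) ^ (2 * K) / M + 16 * Real.exp (4 * N * 4) *
      ((4 * (N : ℝ) ^ 2 * (2 / (ε / 8 * t))) ^ K / K.factorial)) * Real.exp (4 / t ^ 2) ≤
      (1 + z + z) * (1 + 8 * z) := by
    refine mul_le_mul (by linarith) hexp (Real.exp_pos _).le (by positivity)
  nlinarith

end Pool.Agent.H21.BFT
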