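import Pool.Agent.H21.BFT.Crt

/-!
The truncated expansion of `∏ (1 + c_p)` on a box.
-/

set_option autoImplicit false

open Finset

namespace Pool.Agent.H21.BFT

/-- `e_K(μ) ≤ (∑ μ)^K / K!` -/
lemma esymm_le {α : Type*} [DecidableEq α] (s : Finset α) (μ : α → ℝ) (hμ : ∀ a ∈ s, 0 ≤ μ a) (K : ℕ) :
    ∑ J ∈ s.powersetCard K, ∏ a ∈ J, μ a ≤ (∑ a ∈ s, μ a) ^ K / K.factorial := by
  induction s using Finset.induction_on generalizing K with
  | empty =>
    rcases Nat.eq_zero_or_pos K with rfl | hK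
    · simp
    · rw [Finset.powersetCard_eq_empty.mpr (by simpa using hK)]
      simp only [Finset.sum_empty]
      positivity
  | insert a s ha ih =>
    rcases Nat.eq_zero_or_pos K with rfl | hK
    · simp
    obtain ⟨k, rfl⟩ : ∃ k, K = k + 1 := ⟨K - 1, by omega⟩
    have hμs : ∀ b ∈ s, 0 ≤ μ b := fun b hb => hμ b (mem_insert_of_mem hb)
    have hμa : 0 ≤ μ a := hμ a (mem_insert_self a s)
    have hS : 0 ≤ ∑ b ∈ s, μ b := Finset.sum_nonneg hμs
    rw [Finset.powersetCard_succ_insert ha, Finset.sum_union, Finset.sum_insert ha]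
    · rw [Finset.sum_image]
      · have h1 := ih hμs (k + 1)
        have h2 := ih hμs k
        have h3 : ∑ J ∈ s.powersetCard k, ∏ b ∈ insert a J, μ b =
            μ a * ∑ J ∈ s.powersetCard k, ∏ b ∈ J, μ b := by
          rw [Finset.mul_sum]
          refine Finset.sum_congr rfl fun J hJ => ?_
          rw [Finset.prod_insert]
          intro h
          exact ha ((mem_powersetCard.mp hJ).1 h)
        rw [h3]
        have hf : (0 : ℝ) < ((k + 1).factorial : ℝ) := by positivity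
        have hf' : (0 : ℝ) < (k.factorial : ℝ) := by positivity
        have h4 : (∑ b ∈ s, μ b) ^ (k + 1) + (k + 1) * (μ a * (∑ b ∈ s, μ b) ^ k) ≤
            (μ a + ∑ b ∈ s, μ b) ^ (k + 1) := by
          set S := ∑ b ∈ s, μ b with hSdef
          clear_value S
          clear h1 h2 h3 ih hf hf' hK
          induction k with
          | zero => simp; linarith
          | succ k ihk =>
            have h5 := ihk
            have h6 : 0 ≤ μ a + S := by linarith
            have h7 := mul_le_mul_of_nonneg_left h5 h6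
            have h8 : (μ a + S) * (μ a + S) ^ (k + 1) = (μ a + S) ^ (k + 1 + 1) := by ring
            rw [h8] at h7
            refine le_trans ?_ h7
            have h9 : 0 ≤ S ^ k := pow_nonneg hS k
            have h10 : (μ a + S) * (S ^ (k + 1) + (↑k + 1) * (μ a * S ^ k)) =
              S ^ (k + 1 + 1) + (((k + 1 : ℕ) : ℝ) + 1) * (μ a * S ^ (k + 1)) + (k + 1) * (μ a ^ 2 * S ^ k) := by
              push_cast
              ring
            rw [h10]
            have : 0 ≤ ((k : ℝ) + 1) * (μ a ^ 2 * S ^ k) := by positivity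
            linarith
        calc _ ≤ (∑ b ∈ s, μ b) ^ (k + 1) / ((k + 1).factorial : ℝ) +
              μ a * ((∑ b ∈ s, μ b) ^ k / (k.factorial : ℝ)) :=
              add_le_add h1 (mul_le_mul_of_nonneg_left h2 hμa)
          _ = ((∑ b ∈ s, μ b) ^ (k + 1) + (k + 1) * (μ a * (∑ b ∈ s, μ b) ^ k)) /
              ((k + 1).factorial : ℝ) := by
              rw [Nat.factorial_succ]
              push_cast
              field_simp
          _ ≤ _ := by
              rw [div_le_div_iff_of_pos_right hf]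
              exact h4
      · intro x hx y hy hxy
        have hx' : a ∉ x := fun h => ha ((mem_powersetCard.mp hx).1 h)
        have hy' : a ∉ y := fun h => ha ((mem_powersetCard.mp hy).1 h)
        rw [← Finset.erase_insert hx', ← Finset.erase_insert hy', hxy]
    · rw [Finset.disjoint_left]
      intro x hx hx2
      rw [mem_image] at hx2
      obtain ⟨y, hy, rfl⟩ := hx2
      exact ha ((mem_powersetCard.mp hx).1 (mem_insert_self a y))

/-- the subsets with at least `K` elements -/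
lemma sum_large_le {α : Type*} [DecidableEq α] (s : Finset α) (f : α → ℝ) (hf : ∀ a ∈ s, 0 ≤ f a) (K : ℕ) :
    ∑ J ∈ s.powerset with K ≤ #J, ∏ a ∈ J, f a ≤
      (∑ J ∈ s.powersetCard K, ∏ a ∈ J, f a) * ∏ a ∈ s, (1 + f a) := by
  classical
  have hex : ∀ J : Finset α, ∃ J' : Finset α, K ≤ #J → (J' ⊆ J ∧ #J' = K) := by
    intro J
    by_cases h : K ≤ #J
    · obtain ⟨J', h1, h2⟩ := Finset.exists_subset_card_eq h
      exact ⟨J', fun _ => ⟨h1, h2⟩⟩
    · exact ⟨∅, fun h' => absurd h' h⟩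
  choose g hg using hex
  rw [Finset.prod_one_add, Finset.sum_mul_sum, ← Finset.sum_product']
  have hinj : Set.InjOn (fun J => (g J, J \ g J)) (s.powerset.filter (fun J => K ≤ #J)) := by
    intro x hx y hy hxy
    simp only [coe_filter, Set.mem_ofPred_eq] at hx hy
    simp only [Prod.mk.injEq] at hxy
    have h1 := (hg x hx.2).1
    have h2 := (hg y hy.2).1
    rw [← Finset.sdiff_union_of_subset h1, ← Finset.sdiff_union_of_subset h2, hxy.2]
    congr 1
    exact hxy.1
  have h1 : ∑ J ∈ s.powerset with K ≤ #J, ∏ a ∈ J, f a =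
      ∑ z ∈ (s.powerset.filter (fun J => K ≤ #J)).image (fun J => (g J, J \ g J)),
        (∏ a ∈ z.1, f a) * ∏ a ∈ z.2, f a := by
    rw [Finset.sum_image hinj]
    refine Finset.sum_congr rfl fun J hJ => ?_
    have h2 := (hg J (mem_filter.mp hJ).2).1
    rw [mul_comm, Finset.prod_sdiff h2]
  rw [h1]
  refine Finset.sum_le_sum_of_subset_of_nonneg ?_ ?_
  · intro z hz
    rw [mem_image] at hz
    obtain ⟨J, hJ, rfl⟩ := hz
    rw [mem_filter, mem_powerset] at hJ
    have h2 := hg J hJ.2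
    rw [mem_product, mem_powersetCard, mem_powerset]
    exact ⟨⟨h2.1.trans hJ.1, h2.2⟩, Finset.sdiff_subset.trans hJ.1⟩
  · intro z hz _
    rw [mem_product, mem_powersetCard, mem_powerset] at hz
    exact mul_nonneg (Finset.prod_nonneg fun a ha => hf a (hz.1.1 ha))
      (Finset.prod_nonneg fun a ha => hf a (hz.2 ha))

variable {ι : Type*} [Fintype ι] [DecidableEq ι]

/-- The middle lemma. -/
theorem box_prod_le (Q : Finset Nat.Primes) (c : (p : Nat.Primes) → (ι → ZMod p) → ℝ)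
    (β μ γ : Nat.Primes → ℝ) (hβ1 : ∀ p ∈ Q, β p ≤ 1) (h0 : ∀ p ∈ Q, ∀ y, |c p y| ≤ β p)
    (hγ : ∀ p ∈ Q, 0 ≤ γ p) (h1 : ∀ p ∈ Q, ∑ y, c p y = γ p * ((p : ℕ) : ℝ) ^ Fintype.card ι)
    (h2 : ∀ p ∈ Q, ∑ y, |c p y| ≤ μ p * ((p : ℕ) : ℝ) ^ Fintype.card ι)
    (M Y K : ℕ) (hY2 : 2 ≤ Y) (hY : ∀ p ∈ Q, (p : ℕ) ≤ Y) (hcard : #Q ≤ Y) (hM : Y ^ K ≤ M) :
    ∑ x ∈ box ι M, ∏ p ∈ Q, (1 + c p (fun i => (x i : ZMod p))) ≤
      (M : ℝ) ^ Fintype.card ι * (Real.exp (∑ p ∈ Q, γ p) + Fintype.card ι * (Y : ℝ) ^ (2 * K) / M +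
        2 ^ Fintype.card ι * Real.exp (∑ p ∈ Q, β p) * ((∑ p ∈ Q, μ p) ^ K / K.factorial)) := by
  classical
  set q := Fintype.card ι with hq
  have hY0 : 0 < Y := by omega
  have hM0 : 0 < M := lt_of_lt_of_le (by positivity) hM
  have hM' : (0 : ℝ) < M := by exact_mod_cast hM0
  have hβ0 : ∀ p ∈ Q, 0 ≤ β p := fun p hp => (abs_nonneg _).trans (h0 p hp 0)
  have hμ0 : ∀ p ∈ Q, 0 ≤ μ p := by
    intro p hp
    have hp0 : (0 : ℝ) < ((p : ℕ) : ℝ) ^ q := by
      have : (0 : ℝ) < ((p : ℕ) : ℝ) := by exact_mod_cast p.2.pos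
      positivity
    have h3 : 0 ≤ μ p * ((p : ℕ) : ℝ) ^ q :=
      le_trans (Finset.sum_nonneg fun y _ => abs_nonneg _) (h2 p hp)
    exact nonneg_of_mul_nonneg_left h3 hp0
  -- bound for `dd J`
  have hdd : ∀ J ⊆ Q, #J ≤ K → dd J ≤ Y ^ K := by
    intro J hJ hJK
    rw [dd_eq]
    calc ∏ p ∈ J, (p : ℕ) ≤ ∏ _p ∈ J, Y := Finset.prod_le_prod' fun p hp => hY p (hJ hp)
      _ = Y ^ #J := by rw [Finset.prod_const]
      _ ≤ Y ^ K := Nat.pow_le_pow_right hY0 hJK
  -- expansion
  have hexp : ∀ x : ι → ℕ, ∏ p ∈ Q, (1 + c p (fun i => (x i : ZMod p))) =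
      ∑ J ∈ Q.powerset with #J < K, ∏ p ∈ J, c p (fun i => (x i : ZMod p)) +
      ∑ J ∈ Q.powerset with K ≤ #J, ∏ p ∈ J, c p (fun i => (x i : ZMod p)) := by
    intro x
    rw [Finset.prod_one_add, ← Finset.sum_filter_add_sum_filter_not Q.powerset (fun J => #J < K)]
    congr 1
    refine Finset.sum_congr ?_ fun _ _ => rfl
    ext J; simp only [mem_filter, not_lt]
  -- small sets
  have hsmall : ∑ x ∈ box ι M, ∑ J ∈ Q.powerset with #J < K, ∏ p ∈ J, c p (fun i => (x i : ZMod p)) ≤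
      (M : ℝ) ^ q * (Real.exp (∑ p ∈ Q, γ p) + q * (Y : ℝ) ^ (2 * K) / M) := by
    rw [Finset.sum_comm]
    have hone : ∀ J ∈ Q.powerset.filter (fun J => #J < K),
        ∑ x ∈ box ι M, ∏ p ∈ J, c p (fun i => (x i : ZMod p)) ≤
        (∏ p ∈ J, γ p) * (M : ℝ) ^ q + q * (M : ℝ) ^ (q - 1) * (Y : ℝ) ^ K := by
      intro J hJ
      rw [mem_filter, mem_powerset] at hJ
      have e1 : ∑ x ∈ box ι M, ∏ p ∈ J, c p (fun i => (x i : ZMod p)) =
          ∑ x ∈ box ι M, FF J c (fun i => (x i : ZMod (dd J))) :=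
        Finset.sum_congr rfl fun x _ => (FF_cast J c x).symm
      rw [e1]
      have hle1 : ∀ y, FF J c y ≤ 1 := by
        intro y
        refine (le_abs_self _).trans ?_
        unfold FF
        rw [Finset.abs_prod]
        refine Finset.prod_le_one (fun p _ => abs_nonneg _) fun p _ => ?_
        exact (h0 p (hJ.1 p.2) _).trans (hβ1 p (hJ.1 p.2))
      have hsum : ∑ y, FF J c y = (∏ p ∈ J, γ p) * ((dd J : ℕ) : ℝ) ^ q := by
        rw [sum_FF, dd_eq]
        push_cast
        rw [← Finset.prod_pow, ← Finset.prod_mul_distrib]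
        exact Finset.prod_congr rfl fun p hp => h1 p (hJ.1 hp)
      have h3 := box_sum_le_signed (dd J) M (FF J c) hle1 (∏ p ∈ J, γ p)
        (Finset.prod_nonneg fun p hp => hγ p (hJ.1 hp)) hsum
      refine h3.trans ?_
      have h4 : ((dd J : ℕ) : ℝ) ≤ (Y : ℝ) ^ K := by exact_mod_cast hdd J hJ.1 hJ.2.le
      have h5 : (0 : ℝ) ≤ q * (M : ℝ) ^ (q - 1) := by positivity
      have := mul_le_mul_of_nonneg_left h4 h5
      linarith
    refine (Finset.sum_le_sum hone).trans ?_
    rw [Finset.sum_add_distrib, ← Finset.sum_mul, Finset.sum_const, nsmul_eq_mul]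
    have h3 : ∑ J ∈ Q.powerset with #J < K, ∏ p ∈ J, γ p ≤ Real.exp (∑ p ∈ Q, γ p) := by
      calc ∑ J ∈ Q.powerset with #J < K, ∏ p ∈ J, γ p ≤ ∑ J ∈ Q.powerset, ∏ p ∈ J, γ p := by
            refine Finset.sum_le_sum_of_subset_of_nonneg (filter_subset _ _) fun J hJ _ => ?_
            exact Finset.prod_nonneg fun p hp => hγ p (mem_powerset.mp hJ hp)
        _ = ∏ p ∈ Q, (1 + γ p) := (Finset.prod_one_add Q).symm
        _ ≤ ∏ p ∈ Q, Real.exp (γ p) := by
            refine Finset.prod_le_prod (fun p hp => by have := hγ p hp; linarith) fun p hp => ?_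
            have := Real.add_one_le_exp (γ p)
            linarith
        _ = Real.exp (∑ p ∈ Q, γ p) := (Real.exp_sum Q γ).symm
    have h4 : #(Q.powerset.filter (fun J => #J < K)) ≤ Y ^ K := by
      have e : Q.powerset.filter (fun J => #J < K) = (range K).biUnion (fun j => Q.powersetCard j) := by
        ext J
        simp only [mem_filter, mem_powerset, mem_biUnion, mem_range, mem_powersetCard]
        constructor
        · rintro ⟨h3, h4⟩; exact ⟨#J, h4, h3, rfl⟩
        · rintro ⟨j, h3, h4, h5⟩; exact ⟨h4, by omega⟩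
      rw [e]
      refine Finset.card_biUnion_le.trans ?_
      calc ∑ j ∈ range K, #(Q.powersetCard j) ≤ ∑ j ∈ range K, Y ^ j := by
            refine Finset.sum_le_sum fun j _ => ?_
            rw [card_powersetCard]
            exact (Nat.choose_le_pow _ _).trans (Nat.pow_le_pow_left hcard j)
        _ ≤ Y ^ K := (Nat.geomSum_lt hY2 fun k hk => mem_range.mp hk).le
    have h5 : ((#(Q.powerset.filter (fun J => #J < K)) : ℕ) : ℝ) ≤ (Y : ℝ) ^ K := by exact_mod_cast h4
    have h6 : (#(Q.powerset.filter (fun J => #J < K)) : ℝ) * (q * (M : ℝ) ^ (q - 1) * (Y : ℝ) ^ K) ≤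
        (M : ℝ) ^ q * (q * (Y : ℝ) ^ (2 * K) / M) := by
      calc _ ≤ (Y : ℝ) ^ K * (q * (M : ℝ) ^ (q - 1) * (Y : ℝ) ^ K) :=
            mul_le_mul_of_nonneg_right h5 (by positivity)
        _ = _ := by
            rcases Nat.eq_zero_or_pos q with hq0 | hq0
            · rw [hq0]; simp
            · obtain ⟨k, hk⟩ : ∃ k, q = k + 1 := ⟨q - 1, by omega⟩
              rw [hk, Nat.add_sub_cancel]
              field_simp
              ring
    rw [mul_add]
    have h7 := mul_le_mul_of_nonneg_right h3 (show (0 : ℝ) ≤ (M : ℝ) ^ q by positivity)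
    linarith
  -- large sets
  have hlarge : ∑ x ∈ box ι M, ∑ J ∈ Q.powerset with K ≤ #J, ∏ p ∈ J, c p (fun i => (x i : ZMod p)) ≤
      (M : ℝ) ^ q * (2 ^ q * Real.exp (∑ p ∈ Q, β p) * ((∑ p ∈ Q, μ p) ^ K / K.factorial)) := by
    have hpt : ∀ x ∈ box ι M, ∑ J ∈ Q.powerset with K ≤ #J, ∏ p ∈ J, c p (fun i => (x i : ZMod p)) ≤
        (∑ J ∈ Q.powersetCard K, ∏ p ∈ J, |c p (fun i => (x i : ZMod p))|) *
          Real.exp (∑ p ∈ Q, β p) := by
      intro x _
      calc ∑ J ∈ Q.powerset with K ≤ #J, ∏ p ∈ J, c p (fun i => (x i : ZMod p)) ≤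
            ∑ J ∈ Q.powerset with K ≤ #J, ∏ p ∈ J, |c p (fun i => (x i : ZMod p))| := by
            refine Finset.sum_le_sum fun J _ => ?_
            rw [← Finset.abs_prod]
            exact le_abs_self _
        _ ≤ (∑ J ∈ Q.powersetCard K, ∏ p ∈ J, |c p (fun i => (x i : ZMod p))|) *
            ∏ p ∈ Q, (1 + |c p (fun i => (x i : ZMod p))|) :=
            sum_large_le Q _ (fun _ _ => abs_nonneg _) K
        _ ≤ _ := by
            refine mul_le_mul_of_nonneg_left ?_
              (Finset.sum_nonneg fun J _ => Finset.prod_nonneg fun p _ => abs_nonneg _)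
            rw [Real.exp_sum]
            refine Finset.prod_le_prod (fun p _ => by positivity) fun p hp => ?_
            have h3 := h0 p hp (fun i => (x i : ZMod p))
            have h4 := Real.add_one_le_exp (β p)
            linarith
    refine (Finset.sum_le_sum hpt).trans ?_
    rw [← Finset.sum_mul, Finset.sum_comm]
    have hone : ∀ J ∈ Q.powersetCard K,
        ∑ x ∈ box ι M, ∏ p ∈ J, |c p (fun i => (x i : ZMod p))| ≤ (2 * (M : ℝ)) ^ q * ∏ p ∈ J, μ p := by
      intro J hJ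
      rw [mem_powersetCard] at hJ
      have e1 : ∑ x ∈ box ι M, ∏ p ∈ J, |c p (fun i => (x i : ZMod p))| =
          ∑ x ∈ box ι M, FF J (fun p y => |c p y|) (fun i => (x i : ZMod (dd J))) :=
        Finset.sum_congr rfl fun x _ => (FF_cast J (fun p y => |c p y|) x).symm
      rw [e1]
      have h3 := box_sum_le_nonneg (dd J) M (FF J (fun p y => |c p y|))
        (fun y => Finset.prod_nonneg fun p _ => abs_nonneg _)
      refine h3.trans ?_
      rw [sum_FF]
      have hd0 : (0 : ℝ) < ((dd J : ℕ) : ℝ) := by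
        exact_mod_cast Nat.pos_of_ne_zero (NeZero.ne (dd J))
      have hdM : ((dd J : ℕ) : ℝ) ≤ M := by exact_mod_cast (hdd J hJ.1 hJ.2.le).trans hM
      have h4 : ∏ p ∈ J, ∑ y, |c p y| ≤ (∏ p ∈ J, μ p) * ((dd J : ℕ) : ℝ) ^ q := by
        rw [dd_eq]
        push_cast
        rw [← Finset.prod_pow, ← Finset.prod_mul_distrib]
        exact Finset.prod_le_prod (fun p _ => Finset.sum_nonneg fun y _ => abs_nonneg _)
          fun p hp => h2 p (hJ.1 hp)
      calc ((M : ℝ) / (dd J : ℕ) + 1) ^ q * ∏ p ∈ J, ∑ y, |c p y| ≤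
            ((M : ℝ) / (dd J : ℕ) + 1) ^ q * ((∏ p ∈ J, μ p) * ((dd J : ℕ) : ℝ) ^ q) :=
            mul_le_mul_of_nonneg_left h4 (by positivity)
        _ = ((M : ℝ) + (dd J : ℕ)) ^ q * ∏ p ∈ J, μ p := by
            have : (M : ℝ) + (dd J : ℕ) = ((M : ℝ) / (dd J : ℕ) + 1) * (dd J : ℕ) := by
              field_simp
            rw [this, mul_pow]
            ring
        _ ≤ (2 * (M : ℝ)) ^ q * ∏ p ∈ J, μ p := by
            refine mul_le_mul_of_nonneg_right ?_ (Finset.prod_nonneg fun p hp => hμ0 p (hJ.1 hp))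
            exact pow_le_pow_left₀ (by positivity) (by linarith) q
    calc _ ≤ (∑ J ∈ Q.powersetCard K, (2 * (M : ℝ)) ^ q * ∏ p ∈ J, μ p) *
          Real.exp (∑ p ∈ Q, β p) :=
          mul_le_mul_of_nonneg_right (Finset.sum_le_sum hone) (Real.exp_pos _).le
      _ = (M : ℝ) ^ q * (2 ^ q * Real.exp (∑ p ∈ Q, β p) *
            ∑ J ∈ Q.powersetCard K, ∏ p ∈ J, μ p) := by
          rw [← Finset.mul_sum, mul_pow]
          ring
      _ ≤ _ := by
          refine mul_le_mul_of_nonneg_left ?_ (by positivity)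
          exact mul_le_mul_of_nonneg_left (esymm_le Q μ hμ0 K) (by positivity)
  calc _ = ∑ x ∈ box ι M, ∑ J ∈ Q.powerset with #J < K, ∏ p ∈ J, c p (fun i => (x i : ZMod p)) +
        ∑ x ∈ box ι M, ∑ J ∈ Q.powerset with K ≤ #J, ∏ p ∈ J, c p (fun i => (x i : ZMod p)) := by
        rw [← Finset.sum_add_distrib]
        exact Finset.sum_congr rfl fun x _ => hexp x
    _ ≤ _ := by
        rw [mul_add]
        exact add_le_add hsmall hlarge

end Pool.Agent.H21.BFT
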