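import Pool.Agent.H21.BFT.Local
import Pool.Agent.H21.BFT.Mid

/-!
The sum over pairs of the pair correlations.
-/

set_option autoImplicit false

open Finset

namespace Pool.Agent.H21.BFT

/-- residues of a finite set of naturals modulo `p` -/
def res (p : ℕ) (U : Finset ℕ) : Finset (ZMod p) := U.image (fun u : ℕ => (u : ZMod p))

lemma card_res_le (p : ℕ) (U : Finset ℕ) : #(res p U) ≤ #U := card_image_le

lemma res_union (p : ℕ) (U U' : Finset ℕ) : res p (U ∪ U') = res p U ∪ res p U' := image_union _ _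

lemma card_mod_eq {p : ℕ} (hp : 0 < p) (U : Finset ℕ) : #(U.image (· % p)) = #(res p U) := by
  have : NeZero p := ⟨hp.ne'⟩
  have h1 : res p U = (U.image (· % p)).image (fun u : ℕ => (u : ZMod p)) := by
    rw [res, Finset.image_image]
    refine Finset.image_congr fun u _ => ?_
    simp
  symm
  rw [h1, Finset.card_image_of_injOn]
  intro x hx y hy hxy
  rw [coe_image, Set.mem_image] at hx hy
  obtain ⟨a, _, rfl⟩ := hx
  obtain ⟨b, _, rfl⟩ := hy
  simp only at hxy ⊢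
  have h2 := (ZMod.natCast_eq_natCast_iff _ _ _).mp hxy
  have h3 : a % p % p = b % p % p := h2
  rwa [Nat.mod_mod, Nat.mod_mod] at h3

lemma card_primes_dvd_le {L m : ℕ} (hm0 : 0 < m) (hm : m < 2 ^ L) (C : Finset ℕ)
    (hC : ∀ p ∈ C, p.Prime ∧ p ∣ m) : #C ≤ L := by
  have h1 : ∏ p ∈ C, p ∣ m :=
    Finset.prod_primes_dvd m (fun p hp => (hC p hp).1.prime) (fun p hp => (hC p hp).2)
  have h2 : 2 ^ #C ≤ ∏ p ∈ C, p := by
    rw [← Finset.prod_const]
    exact Finset.prod_le_prod' fun p hp => (hC p hp).1.two_le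
  have h3 := Nat.le_of_dvd hm0 h1
  by_contra h4
  push Not at h4
  have h5 : 2 ^ L < 2 ^ #C := Nat.pow_lt_pow_right (by norm_num) h4
  omega

/-- one residue class: the number of pairs -/
lemma card_inter_res_le (p : ℕ) (U U' : Finset ℕ) :
    #(res p U ∩ res p U') ≤ #((U ×ˢ U').filter (fun z => (z.1 : ZMod p) = z.2)) := by
  have h1 : res p U ∩ res p U' ⊆
      ((U ×ˢ U').filter (fun z => (z.1 : ZMod p) = z.2)).image (fun z => (z.1 : ZMod p)) := by
    intro a ha
    rw [mem_inter, res, res, mem_image, mem_image] at ha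
    obtain ⟨⟨u, hu, rfl⟩, ⟨u', hu', h⟩⟩ := ha
    rw [mem_image]
    exact ⟨(u, u'), mem_filter.mpr ⟨mem_product.mpr ⟨hu, hu'⟩, h.symm⟩, rfl⟩
  exact (card_le_card h1).trans card_image_le

/-- large primes: the total number of coincidences -/
lemma sum_large_inter (T : Finset ℕ) (hT : ∀ p ∈ T, p.Prime) (Y L : ℕ) (hY : 0 < Y)
    (hTY : ∀ p ∈ T, Y < p) (U U' : Finset ℕ) (N : ℕ) (hU : #U ≤ N) (hU' : #U' ≤ N)
    (hUL : ∀ u ∈ U, u < 2 ^ L) (hUL' : ∀ u ∈ U', u < 2 ^ L) (σ : ℝ) (hσ : ∑ p ∈ T, 1 / (p : ℝ) ≤ σ) :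
    ∑ p ∈ T, (#(res p U ∩ res p U') : ℝ) / p ≤ (N : ℝ) ^ 2 * L / Y + #(U ∩ U') * σ := by
  classical
  have hY' : (0 : ℝ) < Y := by exact_mod_cast hY
  have h1 : ∀ p ∈ T, (#(res p U ∩ res p U') : ℝ) / p ≤
      ∑ z ∈ U ×ˢ U', (if (z.1 : ZMod p) = z.2 then 1 / (p : ℝ) else 0) := by
    intro p hp
    rw [← Finset.sum_filter, Finset.sum_const, nsmul_eq_mul, mul_one_div]
    have hp' : (0 : ℝ) < p := by exact_mod_cast (hT p hp).pos
    rw [div_le_div_iff_of_pos_right hp']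
    exact_mod_cast card_inter_res_le p U U'
  refine (Finset.sum_le_sum h1).trans ?_
  rw [Finset.sum_comm]
  have hz : ∀ z ∈ U ×ˢ U', ∑ p ∈ T, (if (z.1 : ZMod p) = z.2 then 1 / (p : ℝ) else 0) ≤
      (L : ℝ) / Y + (if z.1 = z.2 then σ else 0) := by
    rintro ⟨u, u'⟩ hz
    rw [mem_product] at hz
    simp only at hz ⊢
    by_cases huu : u = u'
    · subst huu
      simp only [if_true]
      have : (0 : ℝ) ≤ (L : ℝ) / Y := by positivity
      linarith
    · rw [if_neg huu, add_zero]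
      rw [← Finset.sum_filter]
      set C := T.filter (fun p : ℕ => (u : ZMod p) = u') with hC
      have hCp : ∀ p ∈ C, p.Prime ∧ p ∣ Int.natAbs ((u : ℤ) - u') := by
        intro p hp
        rw [hC, mem_filter] at hp
        refine ⟨hT p hp.1, ?_⟩
        rw [← Int.natCast_dvd]
        have h2 : ((u' : ℤ) : ZMod p) = ((u : ℤ) : ZMod p) := by
          push_cast; exact hp.2.symm
        exact (ZMod.intCast_eq_intCast_iff_dvd_sub _ _ _).mp h2
      have hm0 : 0 < Int.natAbs ((u : ℤ) - u') := by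
        rw [Int.natAbs_pos, sub_ne_zero]
        exact_mod_cast huu
      have hm1 : Int.natAbs ((u : ℤ) - u') < 2 ^ L := by
        have h3 := hUL u hz.1
        have h4 := hUL' u' hz.2
        omega
      have h5 := card_primes_dvd_le hm0 hm1 C hCp
      calc ∑ p ∈ C, 1 / (p : ℝ) ≤ ∑ _p ∈ C, 1 / (Y : ℝ) := by
            refine Finset.sum_le_sum fun p hp => ?_
            apply one_div_le_one_div_of_le hY'
            exact_mod_cast (hTY p (mem_filter.mp hp).1).le
        _ = #C / (Y : ℝ) := by rw [Finset.sum_const, nsmul_eq_mul, mul_one_div]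
        _ ≤ L / Y := by gcongr
  refine (Finset.sum_le_sum hz).trans ?_
  rw [Finset.sum_add_distrib, Finset.sum_const, nsmul_eq_mul, card_product, ← Finset.sum_filter,
    Finset.sum_const, nsmul_eq_mul]
  have h2 : #((U ×ˢ U').filter (fun z => z.1 = z.2)) = #(U ∩ U') := by
    refine Finset.card_bij' (fun z _ => z.1) (fun u _ => (u, u)) ?_ ?_ ?_ ?_
    · rintro ⟨u, u'⟩ h
      rw [mem_filter, mem_product] at h
      simp only at h ⊢
      rw [mem_inter]
      exact ⟨h.1.1, h.2 ▸ h.1.2⟩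
    · intro u h
      rw [mem_inter] at h
      rw [mem_filter, mem_product]
      exact ⟨⟨h.1, h.2⟩, rfl⟩
    · rintro ⟨u, u'⟩ h
      rw [mem_filter] at h
      simp only at h ⊢
      rw [h.2]
    · intro u _; rfl
  rw [h2]
  have h3 : ((#U * #U' : ℕ) : ℝ) ≤ (N : ℝ) ^ 2 := by
    have : #U * #U' ≤ N ^ 2 := by rw [sq]; exact Nat.mul_le_mul hU hU'
    exact_mod_cast this
  have h4 : (0 : ℝ) ≤ (L : ℝ) / Y := by positivity
  have h5 := mul_le_mul_of_nonneg_right h3 h4
  have e : (N : ℝ) ^ 2 * L / Y = (N : ℝ) ^ 2 * ((L : ℝ) / Y) := by ring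
  rw [e]
  linarith

/-- bound for the product over the large primes -/
lemma prod_large_le (T : Finset ℕ) (hT : ∀ p ∈ T, p.Prime) (Y L : ℕ) (hY : 0 < Y)
    (hTY : ∀ p ∈ T, Y < p) (U U' : Finset ℕ) (N : ℕ) (hU : #U ≤ N) (hU' : #U' ≤ N)
    (hN : ∀ p ∈ T, 4 * N ≤ p)
    (hUL : ∀ u ∈ U, u < 2 ^ L) (hUL' : ∀ u ∈ U', u < 2 ^ L) (σ : ℝ) (hσ : ∑ p ∈ T, 1 / (p : ℝ) ≤ σ) :
    ∏ p ∈ T, (1 + cc p (res p U) (res p U')) ≤
      Real.exp (2 * ((N : ℝ) ^ 2 * L / Y + #(U ∩ U') * σ)) := by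
  calc ∏ p ∈ T, (1 + cc p (res p U) (res p U')) ≤
        ∏ p ∈ T, Real.exp (2 * (#(res p U ∩ res p U') / (p : ℝ))) := by
        refine Finset.prod_le_prod (fun p hp => ?_) fun p hp => ?_
        · exact one_add_cc_nonneg (hT p hp).pos (hN p hp) ((card_res_le p U).trans hU)
            ((card_res_le p U').trans hU')
        · exact one_add_cc_le (hT p hp).pos (hN p hp) ((card_res_le p U).trans hU)
            ((card_res_le p U').trans hU')
    _ = Real.exp (2 * ∑ p ∈ T, (#(res p U ∩ res p U') / (p : ℝ))) := by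
        rw [← Real.exp_sum, Finset.mul_sum]
    _ ≤ _ := by
        apply Real.exp_le_exp.mpr
        have := sum_large_inter T hT Y L hY hTY U U' N hU hU' hUL hUL' σ hσ
        linarith

/-- bound for the product over the middle primes -/
lemma prod_mid_le (T : Finset ℕ) (hT : ∀ p ∈ T, p.Prime) (U U' : Finset ℕ) (N : ℕ) (hU : #U ≤ N)
    (hU' : #U' ≤ N) (hN : ∀ p ∈ T, 4 * N ≤ p) :
    ∏ p ∈ T, (1 + cc p (res p U) (res p U')) ≤ Real.exp (4 * N * ∑ p ∈ T, 1 / (p : ℝ)) := by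
  rw [Finset.mul_sum, Real.exp_sum]
  refine Finset.prod_le_prod (fun p hp => ?_) fun p hp => ?_
  · exact one_add_cc_nonneg (hT p hp).pos (hN p hp) ((card_res_le p U).trans hU)
      ((card_res_le p U').trans hU')
  · have h1 := abs_cc_le (hT p hp).pos (hN p hp) ((card_res_le p U).trans hU)
      ((card_res_le p U').trans hU')
    have h2 := le_abs_self (cc p (res p U) (res p U'))
    have h3 := Real.add_one_le_exp (4 * (N : ℝ) * (1 / (p : ℝ)))
    have h4 : 4 * (N : ℝ) * (1 / (p : ℝ)) = 4 * N / p := by ring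
    rw [h4] at h3 ⊢
    linarith

lemma inv_one_sub_le {u : ℝ} (h0 : 0 ≤ u) (h1 : u ≤ 1 / 4) : (1 - u)⁻¹ ≤ Real.exp (u + u ^ 2) := by
  have h2 : 0 < 1 - u := by linarith
  rw [inv_le_comm₀ h2 (Real.exp_pos _), ← Real.exp_neg]
  have h3 := Real.one_sub_le_exp_neg u
  -- exp(-(u+u^2)) ≤ 1 - u
  have h4 : Real.exp (-(u + u ^ 2)) ≤ 1 / (1 + (u + u ^ 2) + (u + u ^ 2) ^ 2 / 2) := by
    rw [Real.exp_neg, ← one_div]
    apply one_div_le_one_div_of_le
    · positivity
    · exact Real.quadratic_le_exp_of_nonneg (by positivity)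
  refine h4.trans ?_
  rw [div_le_iff₀ (by positivity)]
  nlinarith [pow_nonneg h0 2, pow_nonneg h0 3, pow_nonneg h0 4, pow_nonneg h0 5, mul_nonneg h0 h0]

/-- trivial bound -/
lemma prod_all_le (T : Finset ℕ) (hT : ∀ p ∈ T, p.Prime) (U U' : Finset ℕ) (N : ℕ) (hU : #U ≤ N)
    (hU' : #U' ≤ N) (hN : ∀ p ∈ T, 4 * N ≤ p) :
    ∏ p ∈ T, (1 + cc p (res p U) (res p U')) ≤
      Real.exp (N * ∑ p ∈ T, 1 / (p : ℝ) + (N : ℝ) ^ 2 * ∑ p ∈ T, 1 / (p : ℝ) ^ 2) := by
  rw [Finset.mul_sum, Finset.mul_sum, ← Finset.sum_add_distrib, Real.exp_sum]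
  refine Finset.prod_le_prod (fun p hp => ?_) fun p hp => ?_
  · exact one_add_cc_nonneg (hT p hp).pos (hN p hp) ((card_res_le p U).trans hU)
      ((card_res_le p U').trans hU')
  · have hp' : (0 : ℝ) < p := by exact_mod_cast (hT p hp).pos
    have h1 := frac_ge (hT p hp).pos (hN p hp) ((card_res_le p U).trans hU)
    have h2 := frac_ge (hT p hp).pos (hN p hp) ((card_res_le p U').trans hU')
    have h3 : 1 + cc p (res p U) (res p U') ≤ (1 - #(res p U') / (p : ℝ))⁻¹ := by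
      unfold cc
      rw [add_sub_cancel, div_le_iff₀ (by nlinarith)]
      have h4 : (#(res p U) : ℝ) ≤ #(res p U ∪ res p U') := by
        exact_mod_cast card_le_card subset_union_left
      have h5 : (#(res p U) : ℝ) / p ≤ #(res p U ∪ res p U') / p := by gcongr
      have h6 : (1 - #(res p U') / (p : ℝ))⁻¹ * ((1 - #(res p U) / (p : ℝ)) *
          (1 - #(res p U') / (p : ℝ))) = 1 - #(res p U) / (p : ℝ) := by
        rw [mul_comm (1 - #(res p U) / (p : ℝ)), ← mul_assoc, inv_mul_cancel₀ (by linarith), one_mul]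
      rw [h6]
      linarith
    refine h3.trans ?_
    have h4 : (1 - #(res p U') / (p : ℝ))⁻¹ ≤ (1 - (N : ℝ) / p)⁻¹ := by
      have h5 : (4 : ℝ) * N ≤ p := by exact_mod_cast hN p hp
      have h6 : (N : ℝ) / p ≤ 1 / 4 := by rw [div_le_iff₀ hp']; linarith
      apply inv_anti₀ (by linarith)
      have h7 : (#(res p U') : ℝ) ≤ N := by exact_mod_cast (card_res_le p U').trans hU'
      have h8 : (#(res p U') : ℝ) / p ≤ N / p := by gcongr
      linarith
    refine h4.trans ?_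
    have h5 : (4 : ℝ) * N ≤ p := by exact_mod_cast hN p hp
    have h6 : (N : ℝ) / p ≤ 1 / 4 := by rw [div_le_iff₀ hp']; linarith
    refine (inv_one_sub_le (by positivity) h6).trans ?_
    apply Real.exp_le_exp.mpr
    rw [div_pow]
    apply le_of_eq
    ring

end Pool.Agent.H21.BFT
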