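import Pool.Agent.H21.BFT.LowB
import Mathlib.NumberTheory.Chebyshev

/-!
Deterministic part of the upper bound: the common difference of a long progression is large.
-/

set_option autoImplicit false

open Finset Pool.Agent.H90.BFT MeasureTheory Filter Topology

namespace Pool.Agent.H21.BFT

/-- `p` consecutive terms cover all classes modulo `p` -/
lemma dvd_of_ap (α : ℕ → ℕ) (a b h0 l : ℕ) (hap : ∀ j < l, a + j * b + h0 ∈ RS α) (p j0 : ℕ)
    (hp : p.Prime) (hj : j0 + p ≤ l) (hact : (Th p)⁻¹ ≤ Real.log ((a + j0 * b + h0 : ℕ) : ℝ)) : p ∣ b := by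
  by_contra hb
  have : Fact p.Prime := ⟨hp⟩
  have hb' : (b : ZMod p) ≠ 0 := by rwa [Ne, ZMod.natCast_eq_zero_iff]
  set i : ZMod p := ((α p : ZMod p) - a - j0 * b - h0) * (b : ZMod p)⁻¹ with hi
  have hilt : i.val < p := ZMod.val_lt i
  have hmem := hap (j0 + i.val) (by omega)
  apply hmem.2 p hp
  · refine hact.trans ?_
    have h1 : a + j0 * b + h0 ≤ a + (j0 + i.val) * b + h0 := by nlinarith
    rcases Nat.eq_zero_or_pos (a + j0 * b + h0) with h0' | h0'
    · rw [h0']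
      simp only [Nat.cast_zero, Real.log_zero]
      exact Real.log_natCast_nonneg _
    · apply Real.log_le_log (by exact_mod_cast h0')
      exact_mod_cast h1
  · rw [← ZMod.natCast_eq_natCast_iff]
    push_cast
    rw [ZMod.natCast_zmod_val, hi]
    field_simp
    ring

lemma primorial_dvd_of (b y : ℕ) (h : ∀ p : ℕ, p.Prime → p ≤ y → p ∣ b) : primorial y ∣ b := by
  rw [primorial_eq_prod_primesLE]
  exact Finset.prod_primes_dvd b (fun p hp => (Nat.mem_primesLE.mp hp).2.prime)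
    (fun p hp => h p (Nat.mem_primesLE.mp hp).2 (Nat.mem_primesLE.mp hp).1)

/-- Chebyshev's lower bound -/
lemma ev_primorial_ge : ∀ᶠ n : ℕ in atTop, Real.exp (n / 2) ≤ (primorial n : ℝ) := by
  have h1 : ∀ᶠ n : ℕ in atTop, Real.log n ≤ 0.01 * n := ev_log_le 0.01 (by norm_num)
  have h2 : ∀ᶠ n : ℕ in atTop, Real.log n ^ 2 ≤ 0.0001 * n := ev_log_sq_le 0.0001 (by norm_num)
  filter_upwards [h1, h2, ev_ge 1000, eventually_ge_atTop 2] with n g1 g2 g3 g4
  have h3 := Chebyshev.theta_ge n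
  have h4 : Chebyshev.theta n = Real.log (primorial n) := by
    rw [Chebyshev.theta_eq_log_primorial, Nat.floor_natCast]
  rw [h4] at h3
  have hpos : (0 : ℝ) < (primorial n : ℝ) := by exact_mod_cast primorial_pos n
  rw [← Real.le_log_iff_exp_le hpos]
  refine le_trans ?_ h3
  have h5 := Real.log_two_gt_d9
  have hn0 : (0 : ℝ) ≤ n := by positivity
  have h6 : √(n : ℝ) * Real.log n ≤ 0.01 * n := by
    have h7 : √(n : ℝ) * √(n : ℝ) = n := Real.mul_self_sqrt hn0
    have h8 : Real.log n ≤ 0.01 * √(n : ℝ) := by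
      have h9 : Real.log n ^ 2 ≤ (0.01 * √(n : ℝ)) ^ 2 := by
        rw [mul_pow, Real.sq_sqrt hn0]
        norm_num at g2 ⊢
        linarith
      have h10 : 0 ≤ Real.log n := Real.log_natCast_nonneg n
      exact (pow_le_pow_iff_left₀ h10 (by positivity) (by norm_num)).mp h9
    calc √(n : ℝ) * Real.log n ≤ √(n : ℝ) * (0.01 * √(n : ℝ)) := by gcongr
      _ = 0.01 * n := by rw [mul_left_comm, h7]
  have h7 : Real.log ((n : ℝ) + 1) ≤ Real.log n + 1 := by
    have hn1 : (1 : ℝ) ≤ n := by linarith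
    have h8 : Real.log ((n : ℝ) + 1) ≤ Real.log (n * 2) := Real.log_le_log (by linarith) (by linarith)
    rw [Real.log_mul (by linarith) (by norm_num)] at h8
    have := Real.log_two_lt_d9
    linarith
  nlinarith

/-- `(Th p)⁻¹ ≤ C log p` -/
lemma exists_Th_inv_le : ∃ C : ℝ, 1 ≤ C ∧ ∀ n : ℕ, 2 ≤ n → (Th n)⁻¹ ≤ C * Real.log n := by
  obtain ⟨c, hc, h⟩ := Pool.Agent.H16.Vp_ge
  refine ⟨max 1 (1 / c), le_max_left _ _, fun n hn => ?_⟩
  have h1 := h n hn
  have hl : 0 < Real.log n := Real.log_pos (by exact_mod_cast hn)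
  have h2 : Pool.Agent.H16.Vp n = Th n := rfl
  rw [h2] at h1
  have h3 : (Th n)⁻¹ ≤ (c / Real.log n)⁻¹ := inv_anti₀ (by positivity) h1
  refine h3.trans ?_
  rw [inv_div]
  have h4 : Real.log n / c = 1 / c * Real.log n := by ring
  rw [h4]
  exact mul_le_mul_of_nonneg_right (le_max_right _ _) hl.le

/-- the common difference is at least `e^{l/4}` -/
lemma exists_diff_large : ∃ L0 : ℕ, ∀ l : ℕ, L0 ≤ l → ∀ (α : ℕ → ℕ) (a b h0 : ℕ), 0 < b →
    (∀ j < l, a + j * b + h0 ∈ RS α) → Real.exp (l / 4) ≤ (b : ℝ) := by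
  obtain ⟨C, hC1, hC⟩ := exists_Th_inv_le
  have hC0 : 0 < C := by linarith
  -- `y l = ⌊(l/2)^(1/C)⌋`
  set y : ℕ → ℕ := fun l => ⌊((l : ℝ) / 2) ^ (1 / C)⌋₊ with hy
  have hyt : Tendsto y atTop atTop := by
    apply tendsto_nat_floor_atTop.comp
    apply (tendsto_rpow_atTop (by positivity : 0 < 1 / C)).comp
    exact tendsto_natCast_atTop_atTop.atTop_div_const (by norm_num)
  have e1 := hyt.eventually ev_primorial_ge
  have e2 : ∀ᶠ l : ℕ in atTop, Real.exp (((l - 1 : ℕ) : ℝ) / 2) ≤ (primorial (l - 1) : ℝ) :=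
    (tendsto_sub_atTop_nat 1).eventually ev_primorial_ge
  have e3 : ∀ᶠ l : ℕ in atTop, C * Real.log l ≤ (y l : ℝ) / 2 := by
    have h1 : (fun x : ℝ => Real.log x) =o[atTop] fun x : ℝ => x ^ (1 / C) :=
      isLittleO_log_rpow_atTop (by positivity)
    have h2 := h1.def (show (0 : ℝ) < 1 / (8 * C) by positivity)
    have h3 := (tendsto_natCast_atTop_atTop (R := ℝ)).atTop_div_const (show (0 : ℝ) < 2 by norm_num)
    have h4 := h3.eventually h2
    filter_upwards [h4, eventually_ge_atTop 4, ev_log_ge (4 * Real.log 2), hyt.eventually_ge_atTop 1]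
      with l g1 g2 g3 g4
    have g2' : (4 : ℝ) ≤ l := by exact_mod_cast g2
    rw [Real.norm_eq_abs, Real.norm_eq_abs, abs_of_nonneg (a := ((l : ℝ) / 2) ^ (1 / C)) (by positivity)] at g1
    have g5 := (le_abs_self _).trans g1
    rw [Real.log_div (by linarith) (by norm_num)] at g5
    have g6 : ((l : ℝ) / 2) ^ (1 / C) ≤ 2 * y l := by
      have h5 := Nat.lt_floor_add_one (((l : ℝ) / 2) ^ (1 / C))
      have h6 : (1 : ℝ) ≤ y l := by exact_mod_cast g4
      have h7 : ((⌊((l : ℝ) / 2) ^ (1 / C)⌋₊ : ℕ) : ℝ) = y l := rfl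
      rw [h7] at h5
      linarith
    have g7 : Real.log l / 2 ≤ Real.log l - Real.log 2 := by
      have : 0 ≤ Real.log 2 := Real.log_nonneg (by norm_num)
      linarith
    have g8 : Real.log l / 2 ≤ 1 / (8 * C) * (2 * y l) := by
      refine g7.trans (g5.trans ?_)
      gcongr
    have g9 : C * (Real.log l / 2) ≤ C * (1 / (8 * C) * (2 * y l)) := by gcongr
    have g10 : C * (1 / (8 * C) * (2 * (y l : ℝ))) = y l / 4 := by
      field_simp
      ring
    rw [g10] at g9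
    linarith
  obtain ⟨L0, hL0⟩ := eventually_atTop.mp ((e1.and e2).and (e3.and (eventually_ge_atTop 4)))
  refine ⟨L0, fun l hl α a b h0 hb hap => ?_⟩
  obtain ⟨⟨f1, f2⟩, f3, f4⟩ := hL0 l hl
  have hl4 : (4 : ℝ) ≤ l := by exact_mod_cast f4
  have hy1 : (y l : ℝ) ≤ ((l : ℝ) / 2) ^ (1 / C) := Nat.floor_le (by positivity)
  have hC1' : 1 / C ≤ 1 := by rw [div_le_one hC0]; exact hC1
  have hy2 : ((l : ℝ) / 2) ^ (1 / C) ≤ l / 2 := by
    calc ((l : ℝ) / 2) ^ (1 / C) ≤ ((l : ℝ) / 2) ^ (1 : ℝ) :=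
          Real.rpow_le_rpow_of_exponent_le (by linarith) hC1'
      _ = l / 2 := Real.rpow_one _
  have hb1 : 1 ≤ b := hb
  -- first step
  have s1 : ∀ p : ℕ, p.Prime → p ≤ y l → p ∣ b := by
    intro p hp hpy
    have hp' : (p : ℝ) ≤ ((l : ℝ) / 2) ^ (1 / C) := le_trans (by exact_mod_cast hpy) hy1
    have hp2 : (p : ℝ) ≤ l / 2 := hp'.trans hy2
    have hpl : p ≤ l := by
      have : (p : ℝ) ≤ l := by linarith
      exact_mod_cast this
    apply dvd_of_ap α a b h0 l hap p (l - p) hp (by omega)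
    refine (hC p hp.two_le).trans ?_
    have h1 : Real.log p ≤ 1 / C * Real.log ((l : ℝ) / 2) := by
      rw [← Real.log_rpow (by linarith)]
      exact Real.log_le_log (by exact_mod_cast hp.pos) hp'
    have h2 : C * Real.log p ≤ Real.log ((l : ℝ) / 2) := by
      calc C * Real.log p ≤ C * (1 / C * Real.log ((l : ℝ) / 2)) := by gcongr
        _ = _ := by field_simp
    refine h2.trans (Real.log_le_log (by linarith) ?_)
    have h3 : (l - p) * 1 ≤ (l - p) * b := Nat.mul_le_mul_left _ hb1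
    have h4 : l - p ≤ a + (l - p) * b + h0 := by omega
    have h5 : ((l - p : ℕ) : ℝ) ≤ ((a + (l - p) * b + h0 : ℕ) : ℝ) := by exact_mod_cast h4
    rw [Nat.cast_sub hpl] at h5
    linarith
  have hbig1 : Real.exp ((y l : ℝ) / 2) ≤ b := by
    refine f1.trans ?_
    exact_mod_cast Nat.le_of_dvd hb (primorial_dvd_of b (y l) s1)
  -- second step
  have s2 : ∀ p : ℕ, p.Prime → p ≤ l - 1 → p ∣ b := by
    intro p hp hpl
    apply dvd_of_ap α a b h0 l hap p (l - p) hp (by omega)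
    refine (hC p hp.two_le).trans ?_
    have h1 : Real.log p ≤ Real.log l := by
      apply Real.log_le_log (by exact_mod_cast hp.pos)
      exact_mod_cast (show p ≤ l by omega)
    have h2 : C * Real.log p ≤ (y l : ℝ) / 2 := (mul_le_mul_of_nonneg_left h1 hC0.le).trans f3
    refine h2.trans ?_
    rw [Real.le_log_iff_exp_le]
    · refine hbig1.trans ?_
      have h3 : 1 * b ≤ (l - p) * b := Nat.mul_le_mul_right _ (by omega)
      exact_mod_cast (show b ≤ a + (l - p) * b + h0 by omega)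
    · have h3 : 1 * b ≤ (l - p) * b := Nat.mul_le_mul_right _ (by omega)
      exact_mod_cast (show 0 < a + (l - p) * b + h0 by omega)
  have h3 : (primorial (l - 1) : ℝ) ≤ b := by
    exact_mod_cast Nat.le_of_dvd hb (primorial_dvd_of b (l - 1) s2)
  refine le_trans (Real.exp_le_exp.mpr ?_) (f2.trans h3)
  rw [Nat.cast_sub (by omega)]
  push_cast
  linarith

/-- lower bound for the sum of the reciprocals of the primes -/
lemma sum_inv_ge (Z : ℕ) (hZ : 2 ≤ Z) :
    Real.log (Real.log Z) - 1 ≤ ∑ q ∈ Nat.primesLE Z, 1 / (q : ℝ) := by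
  have h1 : Real.log (Th Z)⁻¹ ≤ ∑ q ∈ Nat.primesLE Z, (1 / (q : ℝ) + 1 / (q : ℝ) ^ 2) := by
    unfold Th
    rw [Real.log_inv, Real.log_prod (fun q hq => (one_sub_inv_pos (two_le_of_mem hq)).ne'),
      ← Finset.sum_neg_distrib]
    refine Finset.sum_le_sum fun q hq => ?_
    have hq2 := two_le_of_mem hq
    have h2 : 0 < 1 - 1 / (q : ℝ) := one_sub_inv_pos hq2
    rw [← Real.log_inv]
    have hq2' : (2 : ℝ) ≤ q := by exact_mod_cast hq2
    have h3 : (1 - 1 / (q : ℝ))⁻¹ ≤ Real.exp (1 / (q : ℝ) + 1 / (q : ℝ) ^ 2) := by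
      have h4 : 1 + (1 / (q : ℝ) + 1 / (q : ℝ) ^ 2) + (1 / (q : ℝ) + 1 / (q : ℝ) ^ 2) ^ 2 / 2 ≤
          Real.exp (1 / (q : ℝ) + 1 / (q : ℝ) ^ 2) := Real.quadratic_le_exp_of_nonneg (by positivity)
      refine le_trans ?_ h4
      set v := 1 / (q : ℝ) with hv
      have hv0 : 0 < v := by positivity
      have hv1 : v ≤ 1 / 2 := one_div_le_one_div_of_le (by norm_num) hq2'
      have e : 1 / (q : ℝ) ^ 2 = v ^ 2 := by rw [hv]; ring
      rw [e, inv_le_iff_one_le_mul₀ h2]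
      nlinarith [pow_pos hv0 2, pow_pos hv0 3, pow_pos hv0 4, pow_pos hv0 5,
        mul_nonneg (pow_pos hv0 2).le (sub_nonneg.mpr hv1), mul_nonneg (pow_pos hv0 3).le (sub_nonneg.mpr hv1)]
    calc Real.log (1 - 1 / (q : ℝ))⁻¹ ≤ Real.log (Real.exp (1 / (q : ℝ) + 1 / (q : ℝ) ^ 2)) :=
          Real.log_le_log (inv_pos.mpr h2) h3
      _ = _ := Real.log_exp _
  have h2 : Real.log (Real.log Z) ≤ Real.log (Th Z)⁻¹ := by
    have hl : 0 < Real.log Z := Real.log_pos (by exact_mod_cast hZ)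
    apply Real.log_le_log hl
    refine le_trans ?_ (log_le_Th_inv Z (by omega))
    apply Real.log_le_log (by positivity)
    linarith
  have h3 : ∑ q ∈ Nat.primesLE Z, 1 / (q : ℝ) ^ 2 ≤ 1 := by
    have h4 := sum_inv_sq_le (Nat.primesLE Z) 1 le_rfl (fun p hp => (Nat.mem_primesLE.mp hp).2.one_lt)
    simpa using h4
  rw [Finset.sum_add_distrib] at h1
  linarith

end Pool.Agent.H21.BFT
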