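import Pool.Agent.H21.BFT.UpA

/-!
First moment bound for long progressions.
-/

set_option autoImplicit false

open Finset Pool.Agent.H90.BFT MeasureTheory Filter Topology

namespace Pool.Agent.H21.BFT

lemma card_le_res_add (p : ℕ) (U : Finset ℕ) :
    #U ≤ #(res p U) + #((U ×ˢ U).filter (fun z => z.1 ≠ z.2 ∧ (z.1 : ZMod p) = z.2)) := by
  classical
  set V := U.filter (fun u : ℕ => ∀ u' ∈ U, (u' : ZMod p) = (u : ZMod p) → u ≤ u') with hV
  have h1 : #V ≤ #(res p U) := by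
    have h2 : #(V.image (fun u : ℕ => (u : ZMod p))) = #V := by
      apply Finset.card_image_of_injOn
      intro u hu v hv huv
      rw [hV, mem_coe, mem_filter] at hu hv
      exact le_antisymm (hu.2 v hv.1 huv.symm) (hv.2 u hu.1 huv)
    rw [← h2]
    exact card_le_card (Finset.image_subset_image (filter_subset _ _))
  have h2 : #(U \ V) ≤ #((U ×ˢ U).filter (fun z => z.1 ≠ z.2 ∧ (z.1 : ZMod p) = z.2)) := by
    have h3 : U \ V ⊆ ((U ×ˢ U).filter (fun z => z.1 ≠ z.2 ∧ (z.1 : ZMod p) = z.2)).image Prod.fst := by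
      intro u hu
      rw [Finset.mem_sdiff, hV, mem_filter, not_and] at hu
      have h4 := hu.2 hu.1
      push Not at h4
      obtain ⟨u', hu', h5, h6⟩ := h4
      rw [mem_image]
      exact ⟨(u, u'), mem_filter.mpr ⟨mem_product.mpr ⟨hu.1, hu'⟩, by simp only; omega, h5.symm⟩, rfl⟩
    exact (card_le_card h3).trans card_image_le
  have h3 : #(U \ V) + #V = #U := card_sdiff_add_card_eq_card (filter_subset _ _)
  omega

/-- the loss by coincidences modulo large primes -/
lemma sum_loss (T : Finset ℕ) (hT : ∀ p ∈ T, p.Prime) (Y L : ℕ) (hY : 0 < Y)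
    (hTY : ∀ p ∈ T, Y < p) (U : Finset ℕ) (hUL : ∀ u ∈ U, u < 2 ^ L) :
    (#U : ℝ) * ∑ p ∈ T, 1 / (p : ℝ) - (#U : ℝ) ^ 2 * L / Y ≤ ∑ p ∈ T, (#(res p U) : ℝ) / p := by
  classical
  have hY' : (0 : ℝ) < Y := by exact_mod_cast hY
  have h1 : ∀ p ∈ T, (#U : ℝ) * (1 / (p : ℝ)) - (#(res p U) : ℝ) / p ≤
      ∑ z ∈ U ×ˢ U, (if z.1 ≠ z.2 ∧ (z.1 : ZMod p) = z.2 then 1 / (p : ℝ) else 0) := by
    intro p hp
    have hp' : (0 : ℝ) < p := by exact_mod_cast (hT p hp).pos
    rw [← Finset.sum_filter, Finset.sum_const, nsmul_eq_mul, mul_one_div, mul_one_div, ← sub_div,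
      div_le_div_iff_of_pos_right hp', sub_le_iff_le_add']
    exact_mod_cast card_le_res_add p U
  have h2 : (#U : ℝ) * ∑ p ∈ T, 1 / (p : ℝ) - ∑ p ∈ T, (#(res p U) : ℝ) / p ≤ (#U : ℝ) ^ 2 * L / Y := by
    rw [Finset.mul_sum, ← Finset.sum_sub_distrib]
    refine (Finset.sum_le_sum h1).trans ?_
    rw [Finset.sum_comm]
    have hz : ∀ z ∈ U ×ˢ U, ∑ p ∈ T, (if z.1 ≠ z.2 ∧ (z.1 : ZMod p) = z.2 then 1 / (p : ℝ) else 0) ≤
        (L : ℝ) / Y := by
      rintro ⟨u, u'⟩ hz
      rw [mem_product] at hz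
      simp only at hz ⊢
      by_cases huu : u = u'
      · subst huu
        simp only [ne_eq, not_true_eq_false, false_and, if_false, Finset.sum_const_zero]
        positivity
      · rw [← Finset.sum_filter]
        set C := T.filter (fun p : ℕ => u ≠ u' ∧ (u : ZMod p) = u') with hC
        have hCp : ∀ p ∈ C, p.Prime ∧ p ∣ Int.natAbs ((u : ℤ) - u') := by
          intro p hp
          rw [hC, mem_filter] at hp
          refine ⟨hT p hp.1, ?_⟩
          rw [← Int.natCast_dvd]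
          have h2 : ((u' : ℤ) : ZMod p) = ((u : ℤ) : ZMod p) := by
            push_cast; exact hp.2.2.symm
          exact (ZMod.intCast_eq_intCast_iff_dvd_sub _ _ _).mp h2
        have hm0 : 0 < Int.natAbs ((u : ℤ) - u') := by
          rw [Int.natAbs_pos, sub_ne_zero]
          exact_mod_cast huu
        have hm1 : Int.natAbs ((u : ℤ) - u') < 2 ^ L := by
          have h3 := hUL u hz.1
          have h4 := hUL u' hz.2
          omega
        have h5 := card_primes_dvd_le hm0 hm1 C hCp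
        calc ∑ p ∈ C, 1 / (p : ℝ) ≤ ∑ _p ∈ C, 1 / (Y : ℝ) := by
              refine Finset.sum_le_sum fun p hp => ?_
              apply one_div_le_one_div_of_le hY'
              exact_mod_cast (hTY p (mem_filter.mp hp).1).le
          _ = #C / (Y : ℝ) := by rw [Finset.sum_const, nsmul_eq_mul, mul_one_div]
          _ ≤ L / Y := by gcongr
    refine (Finset.sum_le_sum hz).trans (le_of_eq ?_)
    rw [Finset.sum_const, nsmul_eq_mul, card_product]
    push_cast
    ring
  linarith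

/-- the elements with index `≥ 1` -/
def UP (a b l : ℕ) (H : Finset ℕ) : Finset ℕ :=
  (Finset.Ico 1 l ×ˢ H).image (fun z => a + z.1 * b + z.2)

lemma card_UP (a b l : ℕ) (H : Finset ℕ) (hm : ℕ) (hH : ∀ h ∈ H, h ≤ hm) (hb : hm < b) :
    #(UP a b l H) = (l - 1) * #H := by
  unfold UP
  rw [card_image_of_injOn, card_product, Nat.card_Ico]
  rintro ⟨j, h⟩ hz ⟨j', h'⟩ hz' he
  rw [mem_coe, mem_product] at hz hz'
  simp only at hz hz' he
  have h1 := hH h hz.2
  have h2 := hH h' hz'.2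
  have h3 : j * b + h = j' * b + h' := by omega
  have h4 : j = j' := by
    rcases lt_trichotomy j j' with h5 | h5 | h5
    · have : (j + 1) * b ≤ j' * b := Nat.mul_le_mul_right b h5
      rw [add_mul, one_mul] at this
      omega
    · exact h5
    · have : (j' + 1) * b ≤ j * b := Nat.mul_le_mul_right b h5
      rw [add_mul, one_mul] at this
      omega
  subst h4
  have : h = h' := by omega
  rw [this]

variable {Ω : Type*} [MeasurableSpace Ω] {P : Measure Ω} [IsProbabilityMeasure P] {a : ℕ → Ω → ℕ}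

lemma avoid_prob_le (h : Model P a) (T : Finset ℕ) (hT : ∀ p ∈ T, p.Prime) (Y L : ℕ) (hY : 0 < Y)
    (hTY : ∀ p ∈ T, Y < p) (U : Finset ℕ) (hUL : ∀ u ∈ U, u < 2 ^ L) :
    P.real {ω | ∀ p ∈ T, a p ω ∉ U.image (· % p)} ≤
      Real.exp (-((#U : ℝ) * ∑ p ∈ T, 1 / (p : ℝ)) + (#U : ℝ) ^ 2 * L / Y) := by
  classical
  rw [h.avoid_all T hT (fun p => U.image (· % p)) (fun p hp c hc => by
    rw [mem_image] at hc
    obtain ⟨u, _, rfl⟩ := hc
    exact mem_range.mpr (Nat.mod_lt _ (hT p hp).pos))]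
  have h1 : ∏ p ∈ T, (1 - (#(U.image (· % p)) : ℝ) / (p : ℝ)) ≤
      Real.exp (-∑ p ∈ T, (#(res p U) : ℝ) / p) := by
    rw [← Finset.sum_neg_distrib, Real.exp_sum]
    refine Finset.prod_le_prod (fun p hp => ?_) fun p hp => ?_
    · have hp' : (0 : ℝ) < p := by exact_mod_cast (hT p hp).pos
      rw [sub_nonneg, div_le_one hp']
      have h2 : U.image (· % p) ⊆ range p := by
        intro c hc
        rw [mem_image] at hc
        obtain ⟨u, _, rfl⟩ := hc
        exact mem_range.mpr (Nat.mod_lt _ (hT p hp).pos)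
      have h3 := card_le_card h2
      rw [card_range] at h3
      exact_mod_cast h3
    · rw [card_mod_eq (hT p hp).pos]
      exact Real.one_sub_le_exp_neg _
  refine h1.trans (Real.exp_le_exp.mpr ?_)
  have h2 := sum_loss T hT Y L hY hTY U hUL
  linarith

/-- first moment bound -/
lemma first_moment (h : Model P a) (H : Finset ℕ) (hm : ℕ) (hHm : ∀ h ∈ H, h ≤ hm) (C : ℝ) (hC1 : 1 ≤ C)
    (hC : ∀ n : ℕ, 2 ≤ n → (Th n)⁻¹ ≤ C * Real.log n) (l x Y Z L : ℕ) (hl : 2 ≤ l)
    (hne : H.Nonempty)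
    (hdiff : ∀ (α : ℕ → ℕ) (a b h0 : ℕ), 0 < b →
      (∀ j < l, a + j * b + h0 ∈ RS α) → Real.exp (l / 4) ≤ (b : ℝ))
    (hbhm : (hm : ℝ) < Real.exp (l / 4)) (hY : 0 < Y) (hZ : (Z : ℝ) ≤ Real.exp (l / (4 * C)))
    (hx : x < 2 ^ L) (S : ℝ) (hS : S ≤ ∑ p ∈ (Nat.primesLE Z).filter (fun p => Y < p), 1 / (p : ℝ)) :
    P {ω | HasAP (RS fun p => a p ω) H x l} ≤ ENNReal.ofReal (((x : ℝ) + 1) ^ 2 *
      Real.exp (-(((l - 1 : ℕ) : ℝ) * #H * S) + (((l - 1 : ℕ) : ℝ) * #H) ^ 2 * L / Y)) := by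
  classical
  set T := (Nat.primesLE Z).filter (fun p => Y < p) with hT
  have hTp : ∀ p ∈ T, p.Prime := fun p hp => (Nat.mem_primesLE.mp (mem_filter.mp hp).1).2
  have hTY : ∀ p ∈ T, Y < p := fun p hp => (mem_filter.mp hp).2
  set I := ((range (x + 1)) ×ˢ (range (x + 1))).filter
    (fun z : ℕ × ℕ => hm < z.2 ∧ ∀ u ∈ UP z.1 z.2 l H, u ≤ x) with hI
  set ρ := Real.exp (-(((l - 1 : ℕ) : ℝ) * #H * S) + (((l - 1 : ℕ) : ℝ) * #H) ^ 2 * L / Y) with hρ
  have hcov : {ω | HasAP (RS fun p => a p ω) H x l} ⊆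
      ⋃ z ∈ I, {ω | ∀ p ∈ T, a p ω ∉ (UP z.1 z.2 l H).image (· % p)} := by
    rintro ω ⟨a0, b, hb, hap⟩
    obtain ⟨h0, hh0⟩ := hne
    have hbig := hdiff (fun p => a p ω) a0 b h0 hb (fun j hj => (hap j hj h0 hh0).1)
    have hhb : hm < b := by exact_mod_cast hbhm.trans_le hbig
    have hUP : ∀ u ∈ UP a0 b l H, u ∈ RS (fun p => a p ω) ∧ u ≤ x ∧ b ≤ u := by
      intro u hu
      unfold UP at hu
      rw [mem_image] at hu
      obtain ⟨⟨j, h1⟩, hz, rfl⟩ := hu
      rw [mem_product, Finset.mem_Ico] at hz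
      simp only at hz ⊢
      obtain ⟨h2, h3⟩ := hap j hz.1.2 h1 hz.2
      refine ⟨h2, h3, ?_⟩
      have h4 : 1 * b ≤ j * b := Nat.mul_le_mul_right b hz.1.1
      omega
    simp only [Set.mem_iUnion]
    refine ⟨(a0, b), ?_, ?_⟩
    · rw [hI, mem_filter, mem_product, mem_range, mem_range]
      have h2 := (hap 0 (by omega) h0 hh0).2
      have h3 := (hap 1 (by omega) h0 hh0).2
      refine ⟨⟨by simp only; omega, by simp only; omega⟩, hhb, fun u hu => (hUP u hu).2.1⟩
    · rw [Set.mem_ofPred_eq]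
      intro p hp hcon
      rw [mem_image] at hcon
      obtain ⟨u, hu, hup⟩ := hcon
      obtain ⟨h2, -, h4⟩ := hUP u hu
      apply h2.2 p (hTp p hp)
      · have hpZ : p ≤ Z := (Nat.mem_primesLE.mp (mem_filter.mp hp).1).1
        refine (hC p (hTp p hp).two_le).trans ?_
        have hp0 : (0 : ℝ) < p := by exact_mod_cast (hTp p hp).pos
        have h5 : Real.log p ≤ l / (4 * C) := by
          rw [Real.log_le_iff_le_exp hp0]
          exact le_trans (by exact_mod_cast hpZ) hZ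
        have h6 : C * Real.log p ≤ l / 4 := by
          have hC0 : 0 < C := by linarith
          calc C * Real.log p ≤ C * (l / (4 * C)) := by gcongr
            _ = l / 4 := by field_simp
        refine h6.trans ?_
        have hu0 : (0 : ℝ) < u := by exact_mod_cast (show 0 < u by omega)
        rw [Real.le_log_iff_exp_le hu0]
        exact hbig.trans (by exact_mod_cast h4)
      · have h5 : a p ω < p := h.lt p (hTp p hp) ω
        change u % p = a p ω % p
        rw [Nat.mod_eq_of_lt h5]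
        exact hup
  refine (measure_mono hcov).trans ((measure_biUnion_finset_le _ _).trans ?_)
  have hone : ∀ z ∈ I, P {ω | ∀ p ∈ T, a p ω ∉ (UP z.1 z.2 l H).image (· % p)} ≤ ENNReal.ofReal ρ := by
    intro z hz
    rw [hI, mem_filter] at hz
    rw [← ENNReal.ofReal_toReal (measure_ne_top P _)]
    apply ENNReal.ofReal_le_ofReal
    have h1 := avoid_prob_le h T hTp Y L hY hTY (UP z.1 z.2 l H)
      (fun u hu => lt_of_le_of_lt (hz.2.2 u hu) hx)
    refine h1.trans ?_
    rw [card_UP z.1 z.2 l H hm hHm hz.2.1, hρ]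
    apply Real.exp_le_exp.mpr
    push_cast
    have h2 : (0 : ℝ) ≤ ((l - 1 : ℕ) : ℝ) * #H := by positivity
    have h3 := mul_le_mul_of_nonneg_left hS h2
    linarith
  refine (Finset.sum_le_sum hone).trans ?_
  rw [Finset.sum_const, nsmul_eq_mul, ENNReal.ofReal_mul (by positivity)]
  gcongr
  have h1 : #I ≤ (x + 1) ^ 2 := by
    refine (card_filter_le _ _).trans (le_of_eq ?_)
    rw [card_product, card_range, sq]
  have h2 : ((x : ℝ) + 1) ^ 2 = (((x + 1) ^ 2 : ℕ) : ℝ) := by push_cast; ring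
  rw [h2, ENNReal.ofReal_natCast]
  exact_mod_cast h1

end Pool.Agent.H21.BFT
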