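import Pool.Agent.H21.BFT.UpB

/-!
No very long progressions up to `e^t`, with probability `1 - O(t^{-2})`.
-/

set_option autoImplicit false

open Finset Pool.Agent.H90.BFT MeasureTheory Filter Topology

namespace Pool.Agent.H21.BFT

variable {Ω : Type*} [MeasurableSpace Ω] {P : Measure Ω} [IsProbabilityMeasure P] {a : ℕ → Ω → ℕ}

/-- the length for the upper bound -/
noncomputable def lenUp (H : Finset ℕ) (ε : ℝ) (t : ℕ) : ℕ :=
  ⌊2 / (#H : ℝ) * ((1 + ε) * (t / Real.log t))⌋₊ + 2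

lemma ev_loglog_le (η : ℝ) (hη : 0 < η) : ∀ᶠ t : ℕ in atTop, Real.log (Real.log t) ≤ η * Real.log t := by
  have h := (Real.isLittleO_log_id_atTop.def hη)
  have h2 := (Real.tendsto_log_atTop.comp tendsto_natCast_atTop_atTop).eventually
    (f := fun t : ℕ => Real.log (t : ℝ)) h
  filter_upwards [h2, ev_log_ge 0] with t ht h0
  simp only [id, Real.norm_eq_abs] at ht
  rw [abs_of_nonneg h0] at ht
  exact (le_abs_self _).trans ht

theorem up_prob (h : Model P a) (H : Finset ℕ) (hne : H.Nonempty) (ε : ℝ)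
    (hε : 0 < ε) (hε1 : ε ≤ 1) : ∀ᶠ t : ℕ in atTop,
    P {ω | HasAP (RS fun p => a p ω) H ⌊Real.exp t⌋₊ (lenUp H ε t)} ≤
      ENNReal.ofReal (1 / (t : ℝ) ^ 2) := by
  classical
  have hk0 : 0 < #H := hne.card_pos
  have hk : (1 : ℝ) ≤ #H := by exact_mod_cast hk0
  set k : ℝ := (#H : ℝ) with hkdef
  set hm : ℕ := H.sup id with hhm
  have hHm : ∀ x ∈ H, x ≤ hm := fun x hx => Finset.le_sup (f := id) hx
  obtain ⟨C, hC1, hC⟩ := exists_Th_inv_le
  have hC0 : 0 < C := by linarith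
  obtain ⟨L0, hL0⟩ := exists_diff_large
  set C4 : ℝ := Real.log k + Real.log (8 * C) + 1 + Real.log (5 * C) with hC4
  filter_upwards [ev_log_ge 1000, ev_log_sq_le (1 / 100) (by norm_num), ev_log_ge (k * L0),
    ev_log_ge (k * hm), ev_log_ge (k * (8 * C)), ev_loglog_le (ε / 32) (by positivity),
    ev_log_ge (C4 / (ε / 16)), ev_log_ge (8 * k), ev_ge (4 * k), ev_log_le (ε / 4) (by positivity),
    ev_ge (3 / ε), ev_ge 11]
    with t g1 g2 g3 g4 g5 g6 g7 g8 g9 g10 g11 g12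
  set lt := Real.log t with hlt
  have ht0 : (0 : ℝ) < t := by linarith
  have hlt0 : 0 < lt := by linarith
  set s := (t : ℝ) / lt with hs
  have hs0 : 0 < s := by positivity
  have hslt : s * lt = t := by rw [hs]; field_simp
  have hs2 : 100 * lt ≤ s := by
    rw [hs, le_div_iff₀ hlt0]
    nlinarith
  set l := lenUp H ε t with hl
  have hl2 : 2 ≤ l := by rw [hl]; unfold lenUp; omega
  have hl1 : 2 / k * ((1 + ε) * s) ≤ ((l - 1 : ℕ) : ℝ) := by
    have h1 := Nat.lt_floor_add_one (2 / k * ((1 + ε) * s))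
    have h2 : l - 1 = ⌊2 / k * ((1 + ε) * s)⌋₊ + 1 := by
      rw [hl]; unfold lenUp
      rfl
    rw [h2]
    push_cast
    exact h1.le
  have hlup : (l : ℝ) ≤ 2 / k * ((1 + ε) * s) + 2 := by
    have h1 : ((⌊2 / k * ((1 + ε) * s)⌋₊ : ℕ) : ℝ) ≤ 2 / k * ((1 + ε) * s) := Nat.floor_le (by positivity)
    have h2 : (l : ℝ) = ((⌊2 / k * ((1 + ε) * s)⌋₊ : ℕ) : ℝ) + 2 := by
      rw [hl]; unfold lenUp
      push_cast
      rfl
    linarith
  have hl1' : ((l - 1 : ℕ) : ℝ) ≤ l := by exact_mod_cast Nat.sub_le l 1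
  have hlk : 2 * s / k ≤ l := by
    have h1 : 2 * s / k ≤ 2 / k * ((1 + ε) * s) := by
      have e : 2 / k * ((1 + ε) * s) = 2 * s / k * (1 + ε) := by ring
      rw [e]
      have : 0 ≤ 2 * s / k := by positivity
      nlinarith
    linarith
  have hlge : ∀ B : ℝ, k * B ≤ lt → 0 ≤ B → 100 * B ≤ l := by
    intro B hB hB0
    refine le_trans ?_ hlk
    rw [le_div_iff₀ (by linarith)]
    have : 0 ≤ k * B := by positivity
    nlinarith
  have hlL0 : L0 ≤ l := by
    have h1 := hlge L0 g3 (Nat.cast_nonneg _)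
    have h2 : (L0 : ℝ) ≤ l := by
      have : (0 : ℝ) ≤ L0 := Nat.cast_nonneg _
      linarith
    exact_mod_cast h2
  have hbhm : (hm : ℝ) < Real.exp (l / 4) := by
    have h1 := hlge hm g4 (Nat.cast_nonneg _)
    have h2 := Real.add_one_le_exp ((l : ℝ) / 4)
    have : (0 : ℝ) ≤ hm := Nat.cast_nonneg _
    linarith
  have hl8C : 8 * C ≤ l := by
    have h1 := hlge (8 * C) g5 (by positivity)
    linarith
  set Z := ⌊Real.exp (l / (4 * C))⌋₊ with hZ
  have hZle : (Z : ℝ) ≤ Real.exp (l / (4 * C)) := Nat.floor_le (Real.exp_pos _).le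
  have hexp2 : 2 ≤ l / (4 * C) := by
    rw [le_div_iff₀ (by positivity)]
    linarith
  have hexp4 : (4 : ℝ) ≤ Real.exp (l / (4 * C)) := by
    have h1 : Real.exp 2 ≤ Real.exp (l / (4 * C)) := Real.exp_le_exp.mpr hexp2
    have h2 : Real.exp 2 = Real.exp 1 * Real.exp 1 := by rw [← Real.exp_add]; norm_num
    nlinarith [exp_two_le]
  have hZge : Real.exp (l / (4 * C)) / 2 ≤ Z := by
    have := Nat.lt_floor_add_one (Real.exp ((l : ℝ) / (4 * C)))
    rw [← hZ] at this
    linarith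
  have hZ2 : 2 ≤ Z := by
    have : (2 : ℝ) ≤ Z := by linarith
    exact_mod_cast this
  have hlogZ : (l : ℝ) / (8 * C) ≤ Real.log Z := by
    have hZ0 : (0 : ℝ) < Z := by linarith
    rw [Real.le_log_iff_exp_le hZ0]
    refine le_trans ?_ hZge
    have e : (l : ℝ) / (4 * C) = l / (8 * C) + l / (8 * C) := by field_simp; ring
    have h1 : 1 ≤ (l : ℝ) / (8 * C) := by
      rw [le_div_iff₀ (by positivity)]
      linarith
    have h2 : 2 ≤ Real.exp ((l : ℝ) / (8 * C)) := exp_two_le.trans (Real.exp_le_exp.mpr h1)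
    rw [e, Real.exp_add, le_div_iff₀ (by norm_num)]
    exact mul_le_mul_of_nonneg_left h2 (Real.exp_pos _).le
  set Y := t ^ 5 with hY
  have ht1 : 11 ≤ t := by exact_mod_cast g12
  have hY2 : 2 ≤ Y := by
    rw [hY]
    calc 2 ≤ t := by omega
      _ ≤ t ^ 5 := Nat.le_self_pow (by norm_num) t
  -- the sum over the primes
  set S : ℝ := lt - 2 * Real.log lt - C4 with hS
  have hSle : S ≤ ∑ p ∈ (Nat.primesLE Z).filter (fun p => Y < p), 1 / (p : ℝ) := by
    have h1 : ∑ p ∈ Nat.primesLE Z, 1 / (p : ℝ) =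
        ∑ p ∈ (Nat.primesLE Z).filter (fun p => Y < p), 1 / (p : ℝ) +
        ∑ p ∈ (Nat.primesLE Z).filter (fun p => ¬ Y < p), 1 / (p : ℝ) :=
      (Finset.sum_filter_add_sum_filter_not _ _ _).symm
    have h2 : ∑ p ∈ (Nat.primesLE Z).filter (fun p => ¬ Y < p), 1 / (p : ℝ) ≤ Real.log (C * (5 * lt)) := by
      have hlY : Real.log (Y : ℝ) = 5 * lt := by
        rw [hY]; push_cast
        rw [Real.log_pow]
        push_cast
        rfl
      refine sum_inv_le_log _ (fun p hp => (Nat.mem_primesLE.mp (mem_filter.mp hp).1).2) _ ?_ ?_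
      · nlinarith
      · intro p hp
        have hpp := (Nat.mem_primesLE.mp (mem_filter.mp hp).1).2
        have hpY := not_lt.mp (mem_filter.mp hp).2
        refine (hC p hpp.two_le).trans ?_
        rw [← hlY]
        refine mul_le_mul_of_nonneg_left (Real.log_le_log (by exact_mod_cast hpp.pos) ?_) hC0.le
        exact_mod_cast hpY
    have h3 := sum_inv_ge Z hZ2
    have h4 : Real.log (l : ℝ) - Real.log (8 * C) ≤ Real.log (Real.log Z) := by
      rw [← Real.log_div (by linarith) (by positivity)]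
      exact Real.log_le_log (by positivity) hlogZ
    have h5 : lt - Real.log lt - Real.log k ≤ Real.log (l : ℝ) := by
      have e : lt - Real.log lt - Real.log k = Real.log (s / k) := by
        rw [Real.log_div hs0.ne' (by linarith), hs, Real.log_div ht0.ne' hlt0.ne']
      rw [e]
      apply Real.log_le_log (by positivity)
      refine le_trans ?_ hlk
      apply div_le_div_of_nonneg_right _ (by linarith)
      linarith
    have h6 : Real.log (C * (5 * lt)) = Real.log (5 * C) + Real.log lt := by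
      rw [← Real.log_mul (by positivity) hlt0.ne']
      congr 1
      ring
    rw [hS, hC4]
    linarith
  have hx : ⌊Real.exp (t : ℝ)⌋₊ < 2 ^ (2 * t) := by
    have h1 : ((⌊Real.exp (t : ℝ)⌋₊ : ℕ) : ℝ) ≤ Real.exp t := Nat.floor_le (Real.exp_pos _).le
    have h2 : Real.exp t < (2 : ℝ) ^ (2 * t) := by
      have h3 : Real.exp (t : ℝ) = Real.exp 1 ^ t := by rw [← Real.exp_nat_mul, mul_one]
      rw [h3, pow_mul]
      apply pow_lt_pow_left₀ _ (Real.exp_pos 1).le (by omega)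
      have := Real.exp_one_lt_d9
      norm_num
      linarith
    have h3 : ((⌊Real.exp (t : ℝ)⌋₊ : ℕ) : ℝ) < ((2 ^ (2 * t) : ℕ) : ℝ) := by
      push_cast
      linarith
    exact_mod_cast h3
  have hfm := first_moment h H hm hHm C hC1 hC l ⌊Real.exp (t : ℝ)⌋₊ Y Z (2 * t) hl2 hne
    (fun α a b h0 => hL0 l hlL0 α a b h0) hbhm (by omega) hZle hx S hSle
  refine hfm.trans (ENNReal.ofReal_le_ofReal ?_)
  -- numerical part
  set N' : ℝ := ((l - 1 : ℕ) : ℝ) * k with hN'
  have hN'ge : 2 * (1 + ε) * s ≤ N' := by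
    rw [hN']
    calc 2 * (1 + ε) * s = 2 / k * ((1 + ε) * s) * k := by field_simp
      _ ≤ _ := mul_le_mul_of_nonneg_right hl1 (by linarith)
  have hN'0 : 0 ≤ N' := by positivity
  have hN'le : N' ≤ t := by
    have h1 : N' ≤ (2 / k * ((1 + ε) * s) + 2) * k := by
      rw [hN']
      exact mul_le_mul_of_nonneg_right (hl1'.trans hlup) (by linarith)
    have h2 : (2 / k * ((1 + ε) * s) + 2) * k = 2 * (1 + ε) * s + 2 * k := by field_simp
    rw [h2] at h1
    have h3 : 8 * s ≤ t := by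
      rw [← hslt]
      nlinarith
    nlinarith
  have hloss : N' ^ 2 * ((2 * t : ℕ) : ℝ) / (Y : ℝ) ≤ 1 := by
    rw [hY]
    push_cast
    rw [div_le_one (by positivity)]
    have h1 : N' ^ 2 ≤ (t : ℝ) ^ 2 := pow_le_pow_left₀ hN'0 hN'le 2
    calc N' ^ 2 * (2 * (t : ℝ)) ≤ (t : ℝ) ^ 2 * (2 * t) := by gcongr
      _ ≤ (t : ℝ) ^ 5 := by nlinarith [pow_pos ht0 3, pow_pos ht0 4, pow_pos ht0 5]
  have hS2 : (1 - ε / 8) * lt ≤ S := by
    rw [div_le_iff₀ (by positivity)] at g7
    rw [hS]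
    have : Real.log lt ≤ ε / 32 * lt := g6
    linarith
  have hNS : (2 + 3 / 2 * ε) * t ≤ N' * S := by
    have h1 : 0 ≤ (1 - ε / 8) * lt := by
      have : 0 ≤ 1 - ε / 8 := by linarith
      positivity
    calc (2 + 3 / 2 * ε) * t ≤ 2 * (1 + ε) * (1 - ε / 8) * t := by
          apply mul_le_mul_of_nonneg_right _ ht0.le
          nlinarith
      _ = 2 * (1 + ε) * s * ((1 - ε / 8) * lt) := by rw [← hslt]; ring
      _ ≤ N' * S := mul_le_mul hN'ge hS2 h1 hN'0
  have hxle : ((⌊Real.exp (t : ℝ)⌋₊ : ℕ) : ℝ) + 1 ≤ Real.exp (1 + t) := by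
    have h1 : ((⌊Real.exp (t : ℝ)⌋₊ : ℕ) : ℝ) ≤ Real.exp t := Nat.floor_le (Real.exp_pos _).le
    have h2 : 1 ≤ Real.exp t := Real.one_le_exp ht0.le
    rw [Real.exp_add]
    nlinarith [exp_two_le]
  calc (((⌊Real.exp (t : ℝ)⌋₊ : ℕ) : ℝ) + 1) ^ 2 *
        Real.exp (-(N' * S) + N' ^ 2 * ((2 * t : ℕ) : ℝ) / (Y : ℝ)) ≤
        Real.exp (1 + t) ^ 2 * Real.exp (-((2 + 3 / 2 * ε) * t) + 1) := by
        refine mul_le_mul (pow_le_pow_left₀ (by positivity) hxle 2) (Real.exp_le_exp.mpr (by linarith))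
          (Real.exp_pos _).le (by positivity)
    _ = Real.exp (3 - 3 / 2 * ε * t) := by
        rw [← Real.exp_nat_mul, ← Real.exp_add]
        congr 1
        push_cast
        ring
    _ ≤ Real.exp (-(2 * lt)) := by
        apply Real.exp_le_exp.mpr
        rw [div_le_iff₀ hε] at g11
        linarith
    _ = 1 / (t : ℝ) ^ 2 := by
        rw [Real.exp_neg, one_div]
        congr 1
        rw [mul_comm, Real.exp_mul, hlt, Real.exp_log ht0]
        norm_cast

end Pool.Agent.H21.BFT
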